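import Pool.Agent.MOM.Defs

/-!
MOM (MP_2b7f8f_an), tool N2: the mean value theorem for Dirichlet polynomials.

PROOF of `mvt_gauss`. Expand the square (finite sums; `conj (ph t n) = ph (-t) n`):
`∫ ‖dp S a t‖² e^{-(t/T)²} dt = ∑_{m,n} (a_m/m) conj(a_n/n) ∫ e^{-it(log m - log n)} e^{-(t/T)²}
dt`,
and `∫ e^{-itx} e^{-(t/T)²} dt = T √π e^{-T²x²/4}` (Mathlib: Fourier transform of a Gaussian,
`fourierIntegral_gaussian` or `integral_cexp_neg_mul_sq_add_const` etc.). With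
`|a_m a_n|/(mn) ≤ (|a_m|²/m² + |a_n|²/n²)/2` and symmetry it is at most
`T √π ∑_m |a_m|²/m² ∑_{n ≤ N} e^{-T²(log(m/n))²/4}`. For `1 ≤ m, n ≤ N` one has
`|log m - log n| ≥ |m-n|/N` (from `log x ≤ x - 1`), so the inner sum is at most
`∑_{j ∈ ℤ} e^{-T²j²/(4N²)} ≤ 1 + 2 ∫_0^∞ e^{-T²x²/(4N²)} dx = 1 + 2√π N/T`.
So the total is `≤ √π (T + 2√π N) ∑ |a_m|²/m²`.
`mvt` follows with `1 ≤ e·e^{-(t/T)²}` on `[-T,T]`.

-/

set_option autoImplicit false

namespace Pool.Agent.MOM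

open Finset MeasureTheory

private theorem mvt_geom (S : Finset ℕ) (f : ℕ → ℕ) (hf : Set.InjOn f S) {r : ℝ}
    (h0 : 0 ≤ r) (h1 : r < 1) : ∑ n ∈ S, r ^ (f n) ≤ (1 - r)⁻¹ := by
  have h2 : ∑ n ∈ S, r ^ (f n) = ∑ j ∈ S.image f, r ^ j := by
    rw [Finset.sum_image hf]
  rw [h2, ← tsum_geometric_of_lt_one h0 h1]
  exact (summable_geometric_of_lt_one h0 h1).sum_le_tsum _ (fun _ _ => by positivity)

private theorem mvt_log {m n : ℕ} {N : ℝ} (hn : 0 < n) (hnm : n ≤ m) (hm : (m : ℝ) ≤ N) :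
    ((m - n : ℕ) : ℝ) / N ≤ Real.log m - Real.log n := by
  have hn' : (0 : ℝ) < n := by exact_mod_cast hn
  have hm' : (0 : ℝ) < m := by exact_mod_cast (lt_of_lt_of_le hn hnm)
  have hN : 0 < N := lt_of_lt_of_le hm' hm
  have h1 : 1 - ((m : ℝ) / n)⁻¹ ≤ Real.log ((m : ℝ) / n) :=
    Real.one_sub_inv_le_log_of_pos (by positivity)
  rw [Real.log_div hm'.ne' hn'.ne'] at h1
  refine le_trans ?_ h1
  have hle : (n : ℝ) ≤ m := by exact_mod_cast hnm
  rw [Nat.cast_sub hnm, inv_div]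
  have h2 : 1 - (n : ℝ) / m = ((m : ℝ) - n) / m := by
    field_simp
  rw [h2]
  exact div_le_div_of_nonneg_left (by linarith) hm' hm

private theorem mvt_term {N T L : ℝ} {k : ℕ} (hT : 0 < T) (hN : 0 < N)
    (hL : (k : ℝ) / N ≤ L) :
    Real.exp (-(T ^ 2 * L ^ 2 / 4)) ≤ 2 * Real.exp (-(T / (2 * N))) ^ k := by
  rw [← Real.exp_nat_mul]
  have h0 : 0 ≤ (k : ℝ) / N := by positivity
  set y : ℝ := T / (2 * N) * k with hy
  have hy1 : y = T / 2 * ((k : ℝ) / N) := by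
    rw [hy]
    field_simp
  have h1 : y ≤ T * L / 2 := by
    rw [hy1]
    have := mul_le_mul_of_nonneg_left hL (by positivity : 0 ≤ T / 2)
    linarith
  have hy0 : 0 ≤ y := by
    rw [hy1]
    positivity
  have h2 : y ^ 2 ≤ T ^ 2 * L ^ 2 / 4 := by
    have := pow_le_pow_left₀ hy0 h1 2
    calc y ^ 2 ≤ (T * L / 2) ^ 2 := this
      _ = T ^ 2 * L ^ 2 / 4 := by ring
  have h3 : Real.exp (1 / 4) ≤ 2 := by
    have h4 : Real.exp (1 / 4) ^ 4 = Real.exp 1 := by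
      rw [← Real.exp_nat_mul]
      norm_num
    by_contra h5
    have h5' := not_le.1 h5
    have h6 : (2 : ℝ) ^ 4 < Real.exp (1 / 4) ^ 4 :=
      pow_lt_pow_left₀ h5' (by norm_num) (by norm_num)
    rw [h4] at h6
    have := Real.exp_one_lt_d9
    norm_num at h6
    linarith
  calc Real.exp (-(T ^ 2 * L ^ 2 / 4)) ≤ Real.exp (1 / 4 + -y) := by
        apply Real.exp_le_exp.2
        nlinarith [sq_nonneg (y - 1 / 2)]
    _ = Real.exp (1 / 4) * Real.exp (-y) := Real.exp_add _ _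
    _ ≤ 2 * Real.exp (-y) := by
        exact mul_le_mul_of_nonneg_right h3 (Real.exp_pos _).le
    _ = 2 * Real.exp (k * -(T / (2 * N))) := by
        rw [hy]
        congr 2
        ring

private theorem mvt_kernel {S : Finset ℕ} {N T : ℝ} (hT : 0 < T) (hN : 0 < N)
    (hS : ∀ n ∈ S, 0 < n ∧ (n : ℝ) ≤ N) {m : ℕ} (hm : m ∈ S) :
    ∑ n ∈ S, Real.exp (-(T ^ 2 * (Real.log m - Real.log n) ^ 2 / 4)) ≤
      4 * (1 + 2 * N / T) := by
  set r : ℝ := Real.exp (-(T / (2 * N))) with hr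
  have ha : 0 < T / (2 * N) := by positivity
  have hr0 : 0 ≤ r := (Real.exp_pos _).le
  have hr1 : r < 1 := by
    rw [hr]
    exact Real.exp_lt_one_iff.2 (by linarith)
  have hinv : (1 - r)⁻¹ ≤ 1 + 2 * N / T := by
    have h1 : T / (2 * N) + 1 ≤ Real.exp (T / (2 * N)) := Real.add_one_le_exp _
    have h2 : r * Real.exp (T / (2 * N)) = 1 := by
      rw [hr, ← Real.exp_add]
      simp
    have h3 : r * (T / (2 * N) + 1) ≤ 1 :=
      (mul_le_mul_of_nonneg_left h1 hr0).trans h2.le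
    have h4 : 1 ≤ (1 + 2 * N / T) * (1 - r) := by
      have h5 : (1 + 2 * N / T) * (1 - r) =
          1 + (2 * N / T) * (1 - r * (T / (2 * N) + 1)) := by
        field_simp
        ring
      rw [h5]
      have : 0 ≤ (2 * N / T) * (1 - r * (T / (2 * N) + 1)) :=
        mul_nonneg (by positivity) (by linarith)
      linarith
    have h6 : 0 < 1 - r := by linarith
    rw [inv_le_iff_one_le_mul₀ h6]
    exact h4
  have hsplit : ∑ n ∈ S, Real.exp (-(T ^ 2 * (Real.log m - Real.log n) ^ 2 / 4)) ≤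
      ∑ n ∈ S, (if n ≤ m then 2 * r ^ (m - n) else 2 * r ^ (n - m)) := by
    refine Finset.sum_le_sum fun n hn => ?_
    split_ifs with h
    · exact mvt_term hT hN (mvt_log (hS n hn).1 h (hS m hm).2)
    · have h1 := mvt_log (hS m hm).1 (le_of_lt (not_le.1 h)) (hS n hn).2
      have h2 := mvt_term hT hN h1
      have h3 : (Real.log m - Real.log n) ^ 2 = (Real.log n - Real.log m) ^ 2 := by ring
      rw [h3]
      exact h2
  refine hsplit.trans ?_
  rw [Finset.sum_ite, ← Finset.mul_sum, ← Finset.mul_sum]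
  have h1 : ∑ n ∈ S.filter (fun n => n ≤ m), r ^ (m - n) ≤ (1 - r)⁻¹ := by
    refine mvt_geom _ (fun n => m - n) ?_ hr0 hr1
    intro x hx y hy hxy
    simp only [Finset.coe_filter, Set.mem_ofPred_eq] at hx hy hxy
    omega
  have h2 : ∑ n ∈ S.filter (fun n => ¬ n ≤ m), r ^ (n - m) ≤ (1 - r)⁻¹ := by
    refine mvt_geom _ (fun n => n - m) ?_ hr0 hr1
    intro x hx y hy hxy
    simp only [Finset.coe_filter, Set.mem_ofPred_eq] at hx hy hxy
    omega
  linarith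

private theorem mvt_int_exp {T : ℝ} (hT : 0 < T) :
    Integrable (fun t : ℝ => Real.exp (-(t / T) ^ 2)) := by
  have h := integrable_exp_neg_mul_sq (b := 1 / T ^ 2) (by positivity)
  refine h.congr (Filter.Eventually.of_forall fun t => ?_)
  show Real.exp (-(1 / T ^ 2) * t ^ 2) = Real.exp (-(t / T) ^ 2)
  congr 1
  field_simp

private theorem mvt_ph_mul (t : ℝ) (m n : ℕ) : ph t m * (starRingEnd ℂ) (ph t n) =
    Complex.exp (Complex.I * ((Real.log n - Real.log m : ℝ) : ℂ) * t) := by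
  unfold ph
  rw [← Complex.exp_conj, ← Complex.exp_add]
  congr 1
  simp only [map_mul, Complex.conj_ofReal, Complex.conj_I]
  push_cast
  ring

private theorem mvt_fourier {T : ℝ} (hT : 0 < T) (x : ℝ) :
    ‖∫ t : ℝ, Complex.exp (Complex.I * (x : ℂ) * t) * ((Real.exp (-(t / T) ^ 2) : ℝ) : ℂ)‖ ≤
      2 * T * Real.exp (-(T ^ 2 * x ^ 2 / 4)) := by
  have hb : 0 < (((1 / T ^ 2 : ℝ)) : ℂ).re := by
    rw [Complex.ofReal_re]
    positivity
  have h := fourierIntegral_gaussian hb (x : ℂ)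
  have h2 : ∫ t : ℝ, Complex.exp (Complex.I * (x : ℂ) * t) *
      ((Real.exp (-(t / T) ^ 2) : ℝ) : ℂ) =
      ∫ t : ℝ, Complex.exp (Complex.I * (x : ℂ) * t) *
      Complex.exp (-(((1 / T ^ 2 : ℝ)) : ℂ) * (t : ℂ) ^ 2) := by
    congr 1
    funext t
    congr 1
    rw [Complex.ofReal_exp]
    congr 1
    push_cast
    have hT' : (T : ℂ) ≠ 0 := by exact_mod_cast hT.ne'
    field_simp
  rw [h2, h, norm_mul]
  have h3 : ((Real.pi : ℂ) / (((1 / T ^ 2 : ℝ)) : ℂ)) = ((Real.pi * T ^ 2 : ℝ) : ℂ) := by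
    push_cast
    have hT' : (T : ℂ) ≠ 0 := by exact_mod_cast hT.ne'
    field_simp
  have h4 : ‖((Real.pi : ℂ) / (((1 / T ^ 2 : ℝ)) : ℂ)) ^ (1 / 2 : ℂ)‖ ≤ 2 * T := by
    rw [h3, Complex.norm_cpow_eq_rpow_re_of_pos (by positivity)]
    have h5 : (1 / 2 : ℂ).re = 1 / 2 := by
      simp
    rw [h5, ← Real.sqrt_eq_rpow]
    have h6 : Real.sqrt (Real.pi * T ^ 2) ≤ Real.sqrt ((2 * T) ^ 2) := by
      apply Real.sqrt_le_sqrt
      have := Real.pi_le_four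
      nlinarith [sq_nonneg T]
    rwa [Real.sqrt_sq (by positivity)] at h6
  have h7 : ‖Complex.exp (-(x : ℂ) ^ 2 / (4 * (((1 / T ^ 2 : ℝ)) : ℂ)))‖ =
      Real.exp (-(T ^ 2 * x ^ 2 / 4)) := by
    have h8 : (-(x : ℂ) ^ 2 / (4 * (((1 / T ^ 2 : ℝ)) : ℂ))) =
        ((-(T ^ 2 * x ^ 2 / 4) : ℝ) : ℂ) := by
      push_cast
      have hT' : (T : ℂ) ≠ 0 := by exact_mod_cast hT.ne'
      field_simp
    rw [h8, ← Complex.ofReal_exp, Complex.norm_real, Real.norm_eq_abs, Real.abs_exp]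
  rw [h7]
  exact mul_le_mul_of_nonneg_right h4 (Real.exp_pos _).le

private theorem mvt_integrable (S : Finset ℕ) (a : ℕ → ℂ) {T : ℝ} (hT : 0 < T) :
    Integrable (fun t => ‖dp S a t‖ ^ 2 * Real.exp (-(t / T) ^ 2)) := by
  have hc : Continuous fun t => ‖dp S a t‖ ^ 2 * Real.exp (-(t / T) ^ 2) := by
    have := continuous_dp S a
    fun_prop
  refine Integrable.mono' ((mvt_int_exp hT).const_mul ((∑ n ∈ S, ‖a n‖ / n) ^ 2))
    hc.aestronglyMeasurable (Filter.Eventually.of_forall fun t => ?_)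
  rw [Real.norm_eq_abs, abs_of_nonneg (by positivity)]
  refine mul_le_mul_of_nonneg_right ?_ (Real.exp_pos _).le
  exact pow_le_pow_left₀ (norm_nonneg _) (norm_dp_le S a t) 2

private theorem mvt_expand (S : Finset ℕ) (a : ℕ → ℂ) {T : ℝ} (hT : 0 < T) :
    ((∫ t, ‖dp S a t‖ ^ 2 * Real.exp (-(t / T) ^ 2) : ℝ) : ℂ) =
      ∑ m ∈ S, ∑ n ∈ S, a m / (m : ℂ) * (starRingEnd ℂ) (a n / (n : ℂ)) *
        ∫ t : ℝ, Complex.exp (Complex.I * ((Real.log n - Real.log m : ℝ) : ℂ) * t) *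
          ((Real.exp (-(t / T) ^ 2) : ℝ) : ℂ) := by
  rw [← integral_complex_ofReal]
  have h1 : ∀ t : ℝ, ((‖dp S a t‖ ^ 2 * Real.exp (-(t / T) ^ 2) : ℝ) : ℂ) =
      ∑ m ∈ S, ∑ n ∈ S, a m / (m : ℂ) * (starRingEnd ℂ) (a n / (n : ℂ)) *
        (Complex.exp (Complex.I * ((Real.log n - Real.log m : ℝ) : ℂ) * t) *
          ((Real.exp (-(t / T) ^ 2) : ℝ) : ℂ)) := by
    intro t
    rw [Complex.ofReal_mul, Complex.ofReal_pow, ← Complex.mul_conj']
    unfold dp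
    rw [map_sum, Finset.sum_mul_sum, Finset.sum_mul]
    refine Finset.sum_congr rfl fun m _ => ?_
    rw [Finset.sum_mul]
    refine Finset.sum_congr rfl fun n _ => ?_
    rw [← mvt_ph_mul, map_mul]
    ring
  have hint : ∀ m n : ℕ, Integrable fun t : ℝ =>
      Complex.exp (Complex.I * ((Real.log n - Real.log m : ℝ) : ℂ) * t) *
          ((Real.exp (-(t / T) ^ 2) : ℝ) : ℂ) := by
    intro m n
    have hc : Continuous fun t : ℝ =>
        Complex.exp (Complex.I * ((Real.log n - Real.log m : ℝ) : ℂ) * t) *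
          ((Real.exp (-(t / T) ^ 2) : ℝ) : ℂ) := by
      fun_prop
    refine Integrable.mono' (mvt_int_exp hT) hc.aestronglyMeasurable
      (Filter.Eventually.of_forall fun t => ?_)
    rw [norm_mul, Complex.norm_real, Real.norm_eq_abs, Real.abs_exp]
    have h2 : Complex.I * ((Real.log n - Real.log m : ℝ) : ℂ) * t =
        (((Real.log n - Real.log m) * t : ℝ) : ℂ) * Complex.I := by
      push_cast
      ring
    rw [h2, Complex.norm_exp_ofReal_mul_I, one_mul]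
  simp_rw [h1]
  rw [integral_finsetSum _ fun m _ => integrable_finsetSum _ fun n _ => (hint m n).const_mul _]
  refine Finset.sum_congr rfl fun m _ => ?_
  rw [integral_finsetSum _ fun n _ => (hint m n).const_mul _]
  refine Finset.sum_congr rfl fun n _ => ?_
  exact integral_const_mul _ _

private theorem mvt_main {S : Finset ℕ} (a : ℕ → ℂ) {N T : ℝ} (hT : 0 < T) (hN : 0 < N)
    (hS : ∀ n ∈ S, 0 < n ∧ (n : ℝ) ≤ N) :
    ∫ t, ‖dp S a t‖ ^ 2 * Real.exp (-(t / T) ^ 2) ≤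
      16 * (T + N) * ∑ n ∈ S, ‖a n‖ ^ 2 / (n : ℝ) ^ 2 := by
  set I : ℝ := ∫ t, ‖dp S a t‖ ^ 2 * Real.exp (-(t / T) ^ 2) with hI
  have hI0 : I ≤ ‖(I : ℂ)‖ := by
    rw [Complex.norm_real]
    exact le_abs_self _
  refine hI0.trans ?_
  rw [hI, mvt_expand S a hT]
  set c : ℕ → ℝ := fun n => ‖a n‖ / n with hc
  set K : ℕ → ℕ → ℝ := fun m n =>
    Real.exp (-(T ^ 2 * (Real.log m - Real.log n) ^ 2 / 4)) with hK
  have hKs : ∀ m n, K m n = K n m := by
    intro m n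
    simp only [hK]
    congr 1
    ring
  have hK0 : ∀ m n, 0 ≤ K m n := fun m n => (Real.exp_pos _).le
  have hcn : ∀ n, ‖a n / (n : ℂ)‖ = c n := by
    intro n
    rw [norm_div, Complex.norm_natCast]
  have hb : ∀ m ∈ S, ∀ n ∈ S, ‖a m / (m : ℂ) * (starRingEnd ℂ) (a n / (n : ℂ)) *
        ∫ t : ℝ, Complex.exp (Complex.I * ((Real.log n - Real.log m : ℝ) : ℂ) * t) *
          ((Real.exp (-(t / T) ^ 2) : ℝ) : ℂ)‖ ≤
        T * (c m ^ 2 * K m n) + T * (c n ^ 2 * K n m) := by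
    intro m _ n _
    rw [norm_mul, norm_mul, RCLike.norm_conj, hcn, hcn]
    have h1 := mvt_fourier hT (Real.log n - Real.log m)
    have h2 : Real.exp (-(T ^ 2 * (Real.log n - Real.log m) ^ 2 / 4)) = K n m := rfl
    rw [h2] at h1
    have hc0 : 0 ≤ c m := by
      simp only [hc]
      positivity
    have hc1 : 0 ≤ c n := by
      simp only [hc]
      positivity
    calc c m * c n * _ ≤ c m * c n * (2 * T * K n m) :=
          mul_le_mul_of_nonneg_left h1 (mul_nonneg hc0 hc1)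
      _ = T * K n m * (2 * c m * c n) := by ring
      _ ≤ T * K n m * (c m ^ 2 + c n ^ 2) := by
          refine mul_le_mul_of_nonneg_left ?_ (mul_nonneg hT.le (hK0 _ _))
          nlinarith [sq_nonneg (c m - c n)]
      _ = T * (c m ^ 2 * K m n) + T * (c n ^ 2 * K n m) := by
          rw [hKs m n]
          ring
  have h3 : ‖∑ m ∈ S, ∑ n ∈ S, a m / (m : ℂ) * (starRingEnd ℂ) (a n / (n : ℂ)) *
        ∫ t : ℝ, Complex.exp (Complex.I * ((Real.log n - Real.log m : ℝ) : ℂ) * t) *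
          ((Real.exp (-(t / T) ^ 2) : ℝ) : ℂ)‖ ≤
      ∑ m ∈ S, ∑ n ∈ S, (T * (c m ^ 2 * K m n) + T * (c n ^ 2 * K n m)) := by
    refine (norm_sum_le _ _).trans (Finset.sum_le_sum fun m hm => ?_)
    exact (norm_sum_le _ _).trans (Finset.sum_le_sum fun n hn => hb m hm n hn)
  refine h3.trans ?_
  simp_rw [Finset.sum_add_distrib]
  have h4 : ∑ m ∈ S, ∑ n ∈ S, T * (c n ^ 2 * K n m) =
      ∑ m ∈ S, ∑ n ∈ S, T * (c m ^ 2 * K m n) := by
    rw [Finset.sum_comm]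
  rw [h4]
  have h5 : ∑ m ∈ S, ∑ n ∈ S, T * (c m ^ 2 * K m n) ≤
      ∑ m ∈ S, 8 * (T + N) * (c m ^ 2) := by
    refine Finset.sum_le_sum fun m hm => ?_
    rw [← Finset.mul_sum, ← Finset.mul_sum]
    have h6 := mvt_kernel hT hN hS hm
    have h7 : T * (c m ^ 2 * ∑ n ∈ S, K m n) ≤ T * (c m ^ 2 * (4 * (1 + 2 * N / T))) := by
      refine mul_le_mul_of_nonneg_left ?_ hT.le
      exact mul_le_mul_of_nonneg_left h6 (sq_nonneg _)
    refine h7.trans ?_
    have h8 : T * (c m ^ 2 * (4 * (1 + 2 * N / T))) = (4 * T + 8 * N) * c m ^ 2 := by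
      field_simp
      ring
    rw [h8]
    refine mul_le_mul_of_nonneg_right ?_ (sq_nonneg _)
    linarith
  have h9 : ∑ m ∈ S, 8 * (T + N) * (c m ^ 2) =
      8 * (T + N) * ∑ n ∈ S, ‖a n‖ ^ 2 / (n : ℝ) ^ 2 := by
    rw [Finset.mul_sum]
    refine Finset.sum_congr rfl fun m _ => ?_
    simp only [hc]
    rw [div_pow]
  rw [h9] at h5
  linarith

theorem mvt_gauss : ∃ C : ℝ, 0 < C ∧ ∀ (S : Finset ℕ) (a : ℕ → ℂ) (N T : ℝ), 0 < T → 0 < N →
    (∀ n ∈ S, 0 < n ∧ (n : ℝ) ≤ N) →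
    Integrable (fun t => ‖dp S a t‖ ^ 2 * Real.exp (-(t / T) ^ 2)) ∧
    ∫ t, ‖dp S a t‖ ^ 2 * Real.exp (-(t / T) ^ 2) ≤
      C * (T + N) * ∑ n ∈ S, ‖a n‖ ^ 2 / (n : ℝ) ^ 2 :=
  ⟨16, by norm_num, fun S a _ _ hT hN hS => ⟨mvt_integrable S a hT, mvt_main a hT hN hS⟩⟩

theorem mvt : ∃ C : ℝ, 0 < C ∧ ∀ (S : Finset ℕ) (a : ℕ → ℂ) (N T : ℝ), 0 < T → 0 < N →
    (∀ n ∈ S, 0 < n ∧ (n : ℝ) ≤ N) →
    ∫ t in Set.Icc (-T) T, ‖dp S a t‖ ^ 2 ≤
      C * (T + N) * ∑ n ∈ S, ‖a n‖ ^ 2 / (n : ℝ) ^ 2 := by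
  refine ⟨Real.exp 1 * 16, by positivity, fun S a N T hT hN hS => ?_⟩
  have h1 := mvt_main a hT hN hS
  have hint := mvt_integrable S a hT
  have h2 : ∫ t in Set.Icc (-T) T, ‖dp S a t‖ ^ 2 ≤
      ∫ t in Set.Icc (-T) T, Real.exp 1 * (‖dp S a t‖ ^ 2 * Real.exp (-(t / T) ^ 2)) := by
    refine setIntegral_mono_on ?_ ?_ measurableSet_Icc ?_
    · have hc : Continuous fun t => ‖dp S a t‖ ^ 2 := by
        have := continuous_dp S a
        fun_prop
      exact hc.continuousOn.integrableOn_Icc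
    · exact (hint.const_mul _).integrableOn
    · intro t ht
      have h3 : (t / T) ^ 2 ≤ 1 := by
        rw [sq_le_one_iff_abs_le_one, abs_div, abs_of_pos hT, div_le_one hT]
        exact abs_le.2 ht
      have h4 : 1 ≤ Real.exp 1 * Real.exp (-(t / T) ^ 2) := by
        rw [← Real.exp_add]
        exact Real.one_le_exp (by linarith)
      calc ‖dp S a t‖ ^ 2 = ‖dp S a t‖ ^ 2 * 1 := (mul_one _).symm
        _ ≤ ‖dp S a t‖ ^ 2 * (Real.exp 1 * Real.exp (-(t / T) ^ 2)) :=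
            mul_le_mul_of_nonneg_left h4 (by positivity)
        _ = Real.exp 1 * (‖dp S a t‖ ^ 2 * Real.exp (-(t / T) ^ 2)) := by ring
  have h5 : ∫ t in Set.Icc (-T) T, Real.exp 1 * (‖dp S a t‖ ^ 2 * Real.exp (-(t / T) ^ 2)) ≤
      ∫ t, Real.exp 1 * (‖dp S a t‖ ^ 2 * Real.exp (-(t / T) ^ 2)) :=
    setIntegral_le_integral (hint.const_mul _)
      (Filter.Eventually.of_forall fun t => by
        show 0 ≤ Real.exp 1 * (‖dp S a t‖ ^ 2 * Real.exp (-(t / T) ^ 2))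
        positivity)
  have h7 : ∫ t, Real.exp 1 * (‖dp S a t‖ ^ 2 * Real.exp (-(t / T) ^ 2)) =
      Real.exp 1 * ∫ t, ‖dp S a t‖ ^ 2 * Real.exp (-(t / T) ^ 2) := integral_const_mul _ _
  rw [h7] at h5
  refine h2.trans (h5.trans ?_)
  have h6 := mul_le_mul_of_nonneg_left h1 (Real.exp_pos 1).le
  refine h6.trans (le_of_eq ?_)
  ring

end Pool.Agent.MOM
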