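import Pool.Agent.MOM.Defs

/-!
MOM (MP_2b7f8f_an), tool N4: the Turán-Kubilius inequality on `(X, lam X]` for a fixed finite set
`S`
of primes and `X → ∞`.

PROOF. For `d ≥ 1`: `∑_{X < n ≤ lam X, d | n} 1/n = (1/d) ∑_{X/d < k ≤ lam X/d} 1/k →
(log lam)/d` as `X → ∞` (this is all that is needed, no rate: `∑_{A < k ≤ B} 1/k - log(B/A) → 0`
when
`A → ∞`, `B/A` fixed; e.g. from `Real.tendsto_harmonic_sub_log`). Expanding the square,
`∑ (1/n)(ω_S(n) - W)² = ∑_{p,p' ∈ S} ∑_{[p,p'] | n} 1/n - 2W ∑_p ∑_{p | n} 1/n + W² ∑ 1/n` tends to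
`log lam · (∑_{p ≠ p'} 1/(pp') + W - 2W² + W²) = log lam · (W - ∑ 1/p²) ≤ W` (`log lam ≤ log 2 <
1`),
so it is `≤ W + 1` for `X` large.
-/

set_option autoImplicit false

namespace Pool.Agent.MOM

open Finset Filter Topology

/-- `H(⌊A⌋) - log A → γ` along real `A → ∞`. -/
private theorem harm_floor :
    Tendsto (fun A : ℝ => ((harmonic ⌊A⌋₊ : ℚ) : ℝ) - Real.log A) atTop
      (𝓝 Real.eulerMascheroniConstant) := by
  have h1 : Tendsto (fun A : ℝ => ((harmonic ⌊A⌋₊ : ℚ) : ℝ) - Real.log (⌊A⌋₊ : ℝ)) atTop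
      (𝓝 Real.eulerMascheroniConstant) :=
    Real.tendsto_harmonic_sub_log.comp tendsto_nat_floor_atTop
  have h2 : Tendsto (fun A : ℝ => Real.log ((⌊A⌋₊ : ℝ) / A)) atTop (𝓝 0) := by
    have h3 := (Real.continuousAt_log one_ne_zero).tendsto.comp
      (tendsto_nat_floor_div_atTop (R := ℝ))
    rw [Real.log_one] at h3
    exact h3
  have h4 := h1.add h2
  rw [add_zero] at h4
  refine h4.congr' ?_
  filter_upwards [eventually_ge_atTop (1 : ℝ)] with A hA
  have h5 : (0 : ℝ) < ⌊A⌋₊ := by exact_mod_cast Nat.floor_pos.2 hA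
  rw [Real.log_div h5.ne' (by linarith)]
  ring

private theorem sum_Ioc_inv {a b : ℕ} (h : a ≤ b) :
    ∑ k ∈ Ioc a b, 1 / (k : ℝ) = ((harmonic b : ℚ) : ℝ) - ((harmonic a : ℚ) : ℝ) := by
  induction b, h using Nat.le_induction with
  | base => simp
  | succ n hn ih =>
    rw [← Finset.insert_Ioc_right_eq_Ioc_add_one hn, Finset.sum_insert (by simp), ih,
      harmonic_succ]
    push_cast
    ring

private theorem filter_dvd_Ioc {a b d : ℕ} (hd : 0 < d) :
    (Ioc a b).filter (d ∣ ·) = (Ioc (a / d) (b / d)).image (d * ·) := by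
  ext n
  simp only [mem_filter, mem_Ioc, mem_image]
  constructor
  · rintro ⟨⟨h1, h2⟩, k, rfl⟩
    refine ⟨k, ⟨?_, ?_⟩, rfl⟩
    · rwa [Nat.div_lt_iff_lt_mul hd, mul_comm]
    · rwa [Nat.le_div_iff_mul_le hd, mul_comm]
  · rintro ⟨k, ⟨h1, h2⟩, rfl⟩
    refine ⟨⟨?_, ?_⟩, dvd_mul_right d k⟩
    · rwa [Nat.div_lt_iff_lt_mul hd, mul_comm] at h1
    · rwa [Nat.le_div_iff_mul_le hd, mul_comm] at h2

theorem sum_inv_multiples (lam : ℝ) (hl : 1 < lam) (d : ℕ) (hd : 0 < d) :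
    Tendsto (fun X : ℝ => ∑ n ∈ (win X (lam * X)).filter (d ∣ ·), 1 / (n : ℝ)) atTop
      (𝓝 (Real.log lam / d)) := by
  have hdR : (0 : ℝ) < d := by exact_mod_cast hd
  have hc1 : Tendsto (fun X : ℝ => lam * X / d) atTop atTop :=
    (tendsto_id.const_mul_atTop (by linarith)).atTop_div_const hdR
  have hc2 : Tendsto (fun X : ℝ => X / d) atTop atTop :=
    tendsto_id.atTop_div_const hdR
  have h1 := ((harm_floor.comp hc1).sub (harm_floor.comp hc2)).add_const (Real.log lam)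
  rw [sub_self, zero_add] at h1
  have h2 := h1.const_mul (1 / (d : ℝ))
  have h3 : 1 / (d : ℝ) * Real.log lam = Real.log lam / d := by ring
  rw [h3] at h2
  refine h2.congr' ?_
  filter_upwards [eventually_gt_atTop (0 : ℝ)] with X hX
  have hab : ⌊X⌋₊ / d ≤ ⌊lam * X⌋₊ / d :=
    Nat.div_le_div_right (Nat.floor_le_floor (by nlinarith))
  have hinj : Set.InjOn (d * ·) (Ioc (⌊X⌋₊ / d) (⌊lam * X⌋₊ / d) : Set ℕ) :=
    fun x _ y _ hxy => Nat.eq_of_mul_eq_mul_left hd hxy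
  have h4 : ∑ n ∈ (win X (lam * X)).filter (d ∣ ·), 1 / (n : ℝ) =
      1 / (d : ℝ) * (((harmonic (⌊lam * X⌋₊ / d) : ℚ) : ℝ) -
        ((harmonic (⌊X⌋₊ / d) : ℚ) : ℝ)) := by
    unfold win
    rw [filter_dvd_Ioc hd, Finset.sum_image hinj, ← sum_Ioc_inv hab, Finset.mul_sum]
    refine Finset.sum_congr rfl fun k _ => ?_
    push_cast
    rw [one_div, mul_inv, one_div, one_div]
  rw [h4]
  simp only [Function.comp_apply]
  rw [Nat.floor_div_natCast, Nat.floor_div_natCast, mul_div_assoc,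
    Real.log_mul (by linarith) (by positivity)]
  ring

theorem turan_kubilius (S : Finset ℕ) (hS : ∀ p ∈ S, p.Prime) (lam : ℝ) (hl : 1 < lam)
    (hl2 : lam ≤ 2) : ∃ X0 : ℝ, ∀ X : ℝ, X0 ≤ X →
      ∑ n ∈ win X (lam * X), 1 / (n : ℝ) * ((om S n : ℝ) - qs S) ^ 2 ≤ qs S + 1 := by
  have hlog0 : 0 < Real.log lam := Real.log_pos hl
  have hlog1 : Real.log lam ≤ 1 := by
    have h1 : Real.log lam ≤ lam - 1 := Real.log_le_sub_one_of_pos (by linarith)
    linarith
  set q : ℝ := qs S with hq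
  have hq0 : 0 ≤ q := qs_nonneg S
  -- the sum over multiples
  set F : ℕ → ℝ → ℝ := fun d X => ∑ n ∈ (win X (lam * X)).filter (d ∣ ·), 1 / (n : ℝ) with hF
  have hFl : ∀ d : ℕ, 0 < d → Tendsto (F d) atTop (𝓝 (Real.log lam / d)) := fun d hd =>
    sum_inv_multiples lam hl d hd
  have hexp : ∀ X : ℝ, ∑ n ∈ win X (lam * X), 1 / (n : ℝ) * ((om S n : ℝ) - q) ^ 2 =
      (∑ p ∈ S, ∑ r ∈ S, F (Nat.lcm p r) X) - 2 * q * (∑ p ∈ S, F p X) + q ^ 2 * F 1 X := by
    intro X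
    have hom : ∀ n : ℕ, (om S n : ℝ) = ∑ p ∈ S, if p ∣ n then (1 : ℝ) else 0 := by
      intro n
      unfold om
      rw [Finset.card_filter]
      push_cast
      rfl
    have hFi : ∀ d : ℕ, F d X = ∑ n ∈ win X (lam * X), 1 / (n : ℝ) * if d ∣ n then 1 else 0 := by
      intro d
      simp only [hF]
      rw [Finset.sum_filter]
      refine Finset.sum_congr rfl fun n _ => ?_
      split_ifs <;> simp
    have hsq : ∀ n : ℕ, (om S n : ℝ) ^ 2 =
        ∑ p ∈ S, ∑ r ∈ S, if Nat.lcm p r ∣ n then (1 : ℝ) else 0 := by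
      intro n
      rw [sq, hom, Finset.sum_mul_sum]
      refine Finset.sum_congr rfl fun p _ => Finset.sum_congr rfl fun r _ => ?_
      by_cases h1 : p ∣ n
      · by_cases h2 : r ∣ n
        · have h3 : Nat.lcm p r ∣ n := Nat.lcm_dvd h1 h2
          simp [h1, h2, h3]
        · have h3 : ¬ Nat.lcm p r ∣ n := fun h => h2 ((Nat.dvd_lcm_right p r).trans h)
          simp [h2, h3]
      · have h3 : ¬ Nat.lcm p r ∣ n := fun h => h1 ((Nat.dvd_lcm_left p r).trans h)
        simp [h1, h3]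
    have e1 : ∑ p ∈ S, ∑ r ∈ S, F (Nat.lcm p r) X =
        ∑ n ∈ win X (lam * X), 1 / (n : ℝ) * (om S n : ℝ) ^ 2 := by
      simp_rw [hFi, hsq, Finset.mul_sum]
      exact (Finset.sum_congr rfl fun p _ => Finset.sum_comm).trans Finset.sum_comm
    have e2 : ∑ p ∈ S, F p X = ∑ n ∈ win X (lam * X), 1 / (n : ℝ) * (om S n : ℝ) := by
      simp_rw [hFi, hom, Finset.mul_sum]
      exact Finset.sum_comm
    have e3 : F 1 X = ∑ n ∈ win X (lam * X), 1 / (n : ℝ) := by
      simp [hF]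
    rw [e1, e2, e3, Finset.mul_sum, Finset.mul_sum, ← Finset.sum_sub_distrib,
      ← Finset.sum_add_distrib]
    refine Finset.sum_congr rfl fun n _ => ?_
    ring
  have hlim : Tendsto (fun X : ℝ => ∑ n ∈ win X (lam * X),
      1 / (n : ℝ) * ((om S n : ℝ) - q) ^ 2) atTop
      (𝓝 ((∑ p ∈ S, ∑ r ∈ S, Real.log lam / (Nat.lcm p r : ℕ)) -
        2 * q * (∑ p ∈ S, Real.log lam / (p : ℕ)) + q ^ 2 * (Real.log lam / (1 : ℕ)))) := by
    have h1 : (fun X : ℝ => ∑ n ∈ win X (lam * X), 1 / (n : ℝ) * ((om S n : ℝ) - q) ^ 2) =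
        fun X => (∑ p ∈ S, ∑ r ∈ S, F (Nat.lcm p r) X) - 2 * q * (∑ p ∈ S, F p X) +
          q ^ 2 * F 1 X := funext hexp
    rw [h1]
    refine ((tendsto_finsetSum _ fun p hp => tendsto_finsetSum _ fun r hr => ?_).sub
      ((tendsto_finsetSum _ fun p hp => ?_).const_mul _)).add ((hFl 1 one_pos).const_mul _)
    · exact hFl _ (Nat.lcm_pos (hS p hp).pos (hS r hr).pos)
    · exact hFl _ (hS p hp).pos
  have hbound : (∑ p ∈ S, ∑ r ∈ S, Real.log lam / (Nat.lcm p r : ℕ)) -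
      2 * q * (∑ p ∈ S, Real.log lam / (p : ℕ)) + q ^ 2 * (Real.log lam / (1 : ℕ)) < q + 1 := by
    have h1 : ∑ p ∈ S, Real.log lam / (p : ℕ) = Real.log lam * q := by
      rw [hq]
      unfold qs
      rw [Finset.mul_sum]
      refine Finset.sum_congr rfl fun p _ => ?_
      ring
    have h2 : ∑ p ∈ S, ∑ r ∈ S, Real.log lam / (Nat.lcm p r : ℕ) ≤
        Real.log lam * (q ^ 2 + q) := by
      have h3 : ∀ p ∈ S, ∑ r ∈ S, Real.log lam / (Nat.lcm p r : ℕ) ≤
          Real.log lam * (1 / (p : ℝ) * q + 1 / (p : ℝ)) := by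
        intro p hp
        have h4 : ∀ r ∈ S, Real.log lam / (Nat.lcm p r : ℕ) ≤
            Real.log lam * (1 / (p : ℝ) * (1 / (r : ℝ)) + if r = p then 1 / (p : ℝ) else 0) := by
          intro r hr
          have hp0 : (0 : ℝ) < p := by exact_mod_cast (hS p hp).pos
          have hr0 : (0 : ℝ) < r := by exact_mod_cast (hS r hr).pos
          by_cases hrp : r = p
          · subst hrp
            rw [Nat.lcm_self, if_pos rfl, div_eq_mul_one_div]
            refine mul_le_mul_of_nonneg_left ?_ hlog0.le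
            have : 0 ≤ 1 / (r : ℝ) * (1 / (r : ℝ)) := by positivity
            linarith
          · rw [if_neg hrp, Nat.Coprime.lcm_eq_mul
              ((Nat.coprime_primes (hS p hp) (hS r hr)).2 (Ne.symm hrp))]
            push_cast
            rw [add_zero, div_eq_mul_one_div]
            refine mul_le_mul_of_nonneg_left ?_ hlog0.le
            rw [one_div, one_div, one_div, mul_inv]
        refine (Finset.sum_le_sum h4).trans (le_of_eq ?_)
        rw [← Finset.mul_sum, Finset.sum_add_distrib, ← Finset.mul_sum, Finset.sum_ite_eq' S p,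
          if_pos hp, hq]
        rfl
      refine (Finset.sum_le_sum h3).trans (le_of_eq ?_)
      rw [← Finset.mul_sum, Finset.sum_add_distrib, ← Finset.sum_mul]
      have h5 : ∑ p ∈ S, 1 / (p : ℝ) = q := rfl
      rw [h5]
      ring
    rw [h1]
    push_cast
    nlinarith
  obtain ⟨X0, hX0⟩ := Filter.eventually_atTop.1 (hlim.eventually_lt_const hbound)
  exact ⟨X0, fun X hX => (hX0 X hX).le⟩

end Pool.Agent.MOM
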