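import Pool.Agent.MOM.Defs
import Pool.Agent.ESel.Slow

/-!
MOM (MP_2b7f8f_an), Brun-Titchmarsh for the cells with an absolute constant.

PROOF. Library: `Pool.Agent.ESel.brun_titchmarsh` (file Pool/Agent/ESel/Slow.lean): for `D ≥ 1`,
`a ≤ b`: the number of primes `> D` in `(a, b]` is at most `(b - a)/log (D+1) + D²`. Put
`x = exp(u/H)`, `z = exp((u+1)/H) ≤ (1 + 2/H) x` (`exp t ≤ 1 + 2t` for `0 ≤ t ≤ 1`), `a = ⌈x⌉₊ - 1`,
`b = ⌈z⌉₊`, `D = ⌊x^{1/4}⌋₊`. All primes of the cell lie in `(a,b]` and are `> D` for `x` large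
(`x^{1/4} < x`), `b - a ≤ 2x/H + 2`, `log (D+1) ≥ (1/4) log x = u/(4H)`, `D² ≤ x^{1/2}`. So
`qs (cell H u) ≤ (1/x) #cell ≤ (1/x) ((2x/H + 2)·4H/u + x^{1/2}) = 8/u + 8H/(u x) + x^{-1/2} ≤ 17/u`
for `u ≥ u0(H)` (`u x^{-1/2} = u e^{-u/(2H)} → 0`, and `8H/x ≤ 8`).
-/

set_option autoImplicit false

namespace Pool.Agent.MOM

open Finset

theorem brun_titchmarsh : ∃ C : ℝ, 0 < C ∧ ∀ H : ℕ, 1 ≤ H → ∃ u0 : ℕ, ∀ u : ℕ, u0 ≤ u →
    qs (cell H u) ≤ C / u := by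
  refine ⟨18, by norm_num, fun H hH => ?_⟩
  have hHr : (1 : ℝ) ≤ H := by exact_mod_cast hH
  have hH0 : (0 : ℝ) < H := by linarith
  refine ⟨64 * H ^ 2, fun u hu => ?_⟩
  have hur : 64 * (H : ℝ) ^ 2 ≤ u := by exact_mod_cast hu
  have hu64 : (64 : ℝ) * H ≤ u := by nlinarith
  have hu0 : (0 : ℝ) < u := by nlinarith
  set x : ℝ := Real.exp ((u : ℝ) / H) with hx
  have hxpos : 0 < x := Real.exp_pos _
  have hlogx : Real.log x = (u : ℝ) / H := Real.log_exp _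
  have huH : 64 ≤ (u : ℝ) / H := by rw [le_div_iff₀ hH0]; exact hu64
  -- `x ≥ (u/H)^2/2`, and more
  have hx1 : ((u : ℝ) / (2 * H)) ≤ Real.exp ((u : ℝ) / (2 * H)) := by
    have := Real.add_one_le_exp ((u : ℝ) / (2 * H))
    linarith
  have hx2 : x = Real.exp ((u : ℝ) / (2 * H)) ^ 2 := by
    rw [hx, ← Real.exp_nat_mul]
    congr 1
    field_simp
    push_cast
    ring
  have hx3 : x = Real.exp ((u : ℝ) / (4 * H)) ^ 4 := by
    rw [hx, ← Real.exp_nat_mul]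
    congr 1
    field_simp
    push_cast
    ring
  set w : ℝ := Real.exp ((u : ℝ) / (4 * H)) with hw
  have hwpos : 0 < w := Real.exp_pos _
  have hw16 : (u : ℝ) / (4 * H) + 1 ≤ w := Real.add_one_le_exp _
  have hu4 : 16 ≤ (u : ℝ) / (4 * H) := by
    rw [le_div_iff₀ (by positivity)]
    nlinarith
  have hw1 : 17 ≤ w := by linarith
  set D : ℕ := ⌊w⌋₊ with hD
  have hDle : (D : ℝ) ≤ w := Nat.floor_le hwpos.le
  have hDlt : w < (D : ℝ) + 1 := Nat.lt_floor_add_one w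
  have hD1 : 1 ≤ D := Nat.le_floor (by push_cast; linarith)
  have hlogD : (u : ℝ) / (4 * H) ≤ Real.log (D + 1) := by
    have h1 : Real.log w ≤ Real.log (D + 1) := Real.log_le_log hwpos hDlt.le
    rwa [hw, Real.log_exp] at h1
  set z : ℝ := Real.exp (((u : ℝ) + 1) / H) with hz
  have hzx : z ≤ (1 + 2 / H) * x := by
    have h1 : z = Real.exp (1 / (H : ℝ)) * x := by
      rw [hz, hx, ← Real.exp_add]
      congr 1
      field_simp
      ring
    have h2 : Real.exp (1 / (H : ℝ)) ≤ 1 + 2 / H := by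
      have h3 : (1 : ℝ) / H ≤ 1 := by rw [div_le_one hH0]; exact hHr
      have h4 : (0 : ℝ) ≤ 1 / H := by positivity
      have h5 := Real.abs_exp_sub_one_sub_id_le (x := 1 / (H : ℝ)) (by rw [abs_of_nonneg h4]; exact h3)
      have h6 := (abs_le.1 h5).2
      have h7 : (1 / (H : ℝ)) ^ 2 ≤ 1 / H := by
        rw [sq]
        exact mul_le_of_le_one_left h4 h3
      have h8 : (2 : ℝ) / H = 1 / H + 1 / H := by ring
      linarith
    rw [h1]
    exact mul_le_mul_of_nonneg_right h2 hxpos.le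
  have hxz : x ≤ z := by
    rw [hx, hz]
    refine Real.exp_le_exp.2 ?_
    gcongr
    linarith
  set a : ℕ := ⌈x⌉₊ - 1 with ha
  set b : ℕ := ⌈z⌉₊ with hb
  have hx17 : (1 : ℝ) < x := by
    rw [hx3]
    have : (1 : ℝ) < w := by linarith
    exact one_lt_pow₀ this (by norm_num)
  have hcx : 1 ≤ ⌈x⌉₊ := Nat.one_le_ceil_iff.2 hxpos
  have hab : a ≤ b := by
    have : ⌈x⌉₊ ≤ ⌈z⌉₊ := Nat.ceil_mono hxz
    omega
  have har : x - 1 ≤ (a : ℝ) := by
    have h1 : x ≤ (⌈x⌉₊ : ℝ) := Nat.le_ceil x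
    have h2 : ((⌈x⌉₊ - 1 : ℕ) : ℝ) = (⌈x⌉₊ : ℝ) - 1 := by
      rw [Nat.cast_sub hcx]; simp
    rw [ha, h2]; linarith
  have hbr : (b : ℝ) ≤ z + 1 := (Nat.ceil_lt_add_one (by positivity)).le
  have hbt := Pool.Agent.ESel.brun_titchmarsh hD1 a b hab
  have hwx : w < x := by
    rw [hx3]
    have : w * 1 < w * w ^ 3 := by
      refine mul_lt_mul_of_pos_left ?_ hwpos
      exact one_lt_pow₀ (by linarith) (by norm_num)
    calc w = w * 1 := (mul_one w).symm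
      _ < w * w ^ 3 := this
      _ = w ^ 4 := by ring
  -- the cell
  have hsub : cell H u ⊆ (Ioc a b).filter fun p => p.Prime ∧ D < p := by
    intro p hp
    rw [mem_cell] at hp
    obtain ⟨⟨h1, h2⟩, h3⟩ := hp
    rw [mem_filter, mem_Ioc]
    refine ⟨⟨?_, ?_⟩, h3, ?_⟩
    · have : ⌈x⌉₊ ≤ p := Nat.ceil_le.2 h1
      omega
    · have : (p : ℝ) < (⌈z⌉₊ : ℝ) := h2.trans_le (Nat.le_ceil z)
      exact_mod_cast this.le
    · have : (D : ℝ) < p := by linarith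
      exact_mod_cast this
  have hcard : ((cell H u).card : ℝ) ≤ ((b : ℝ) - a) / Real.log (D + 1) + D ^ 2 := by
    refine le_trans ?_ hbt
    exact_mod_cast Finset.card_le_card hsub
  have hq : qs (cell H u) ≤ (cell H u).card * (1 / x) := by
    unfold qs
    rw [← nsmul_eq_mul]
    refine Finset.sum_le_card_nsmul _ _ _ fun p hp => ?_
    rw [mem_cell] at hp
    exact one_div_le_one_div_of_le hxpos hp.1.1
  have hba : (b : ℝ) - a ≤ 2 / H * x + 2 := by nlinarith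
  have hba0 : 0 ≤ (b : ℝ) - a := by
    have : (a : ℝ) ≤ b := by exact_mod_cast hab
    linarith
  have h1 : ((b : ℝ) - a) / Real.log (D + 1) ≤ (2 / H * x + 2) * (4 * H / u) := by
    have h2 : ((b : ℝ) - a) / Real.log (D + 1) ≤ (2 / H * x + 2) / ((u : ℝ) / (4 * H)) := by
      gcongr
    refine h2.trans (le_of_eq ?_)
    field_simp
  have h2 : (D : ℝ) ^ 2 ≤ w ^ 2 := by gcongr
  have h3 : qs (cell H u) ≤ ((2 / H * x + 2) * (4 * H / u) + w ^ 2) * (1 / x) := by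
    refine hq.trans (mul_le_mul_of_nonneg_right ?_ (by positivity))
    linarith
  have h4 : ((2 / H * x + 2) * (4 * H / u) + w ^ 2) * (1 / x) =
      8 / u + 8 * H / (u * x) + w ^ 2 / x := by
    field_simp
    ring
  have h5 : w ^ 2 / x = 1 / w ^ 2 := by
    rw [hx3]
    field_simp
  -- `u ≤ w ^ 2` : `w ≥ u/(4H)`, `w^2 ≥ (u/(4H))^2 = u * (u/(16 H^2)) ≥ 4 u`
  have h6 : (u : ℝ) ≤ w ^ 2 := by
    have h7 : ((u : ℝ) / (4 * H)) ^ 2 ≤ w ^ 2 := by
      have h8 : 0 ≤ (u : ℝ) / (4 * H) := by positivity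
      gcongr
      linarith
    refine le_trans ?_ h7
    rw [div_pow, le_div_iff₀ (by positivity)]
    nlinarith
  have h7 : 1 / w ^ 2 ≤ 1 / (u : ℝ) := one_div_le_one_div_of_le hu0 h6
  have h8 : 8 * (H : ℝ) / (u * x) ≤ 8 / u := by
    rw [div_le_div_iff₀ (by positivity) hu0]
    have h9 : (H : ℝ) ≤ x := by
      have h10 : (u : ℝ) ≤ x := by
        rw [hx3]
        nlinarith [sq_nonneg w]
      nlinarith
    nlinarith
  have h9 : (8 : ℝ) / u + 8 / u + 1 / u ≤ 18 / u := by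
    rw [← add_div, ← add_div]
    gcongr
    norm_num
  rw [h4, h5] at h3
  linarith

end Pool.Agent.MOM
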