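import Pool.Agent.MOM.Defs

/-!
MOM (MP_2b7f8f_an), tool N1, part 3: many cells with a not too small mass.

PROOF of `good_cells`. Suppose not: every finite set `V` of good numbers `v`
(`P ≤ exp(v/H)` and `exp(-c v/H) ≤ qs (cell H v)`) has `∑_{v ∈ V} qs (cell H v) < B`. Then
`∑ 1/p` over all primes converges, contradicting Mathlib `Nat.Primes.not_summable_one_div` (or
`not_summable_one_div_on_primes`): Let `W` be any finite set of primes `> 1`; every `p ∈ W` lies in
the cell `v(p) = ⌊H log p⌋₊` (`mem_cell`), so `∑_{p ∈ W} 1/p ≤ ∑_{v ∈ W'} qs (cell H v)`,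
`W' = image v W`. Split `W'`: the numbers with `exp(v/H) < P` are `v < v0 := ⌈H log (max P 1)⌉₊ +
1`,
finitely many, total mass at most `B1 := ∑_{v < v0} qs (cell H v)`; those with
`qs (cell H v) < exp(-c v/H)` have total mass at most `∑_v (exp(-c/H))^v = 1/(1-exp(-c/H)) =: B2`;
the rest is good, total mass `< B` (`B` may be replaced by `max B 0`). So
`∑_{p ∈ W} 1/p ≤ B1 + B2 + max B 0` for all finite `W`; `summable_of_sum_le`.
-/

set_option autoImplicit false

namespace Pool.Agent.MOM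

open Finset

theorem good_cells (H : ℕ) (hH : 1 ≤ H) {c : ℝ} (hc : 0 < c) (P B : ℝ) : ∃ V : Finset ℕ,
    (∀ v ∈ V, P ≤ Real.exp ((v : ℝ) / H) ∧ Real.exp (-(c * (v : ℝ) / H)) ≤ qs (cell H v)) ∧
      B ≤ ∑ v ∈ V, qs (cell H v) := by
  classical
  by_contra hcon
  have hcon' : ∀ V : Finset ℕ, (∀ v ∈ V, P ≤ Real.exp ((v : ℝ) / H) ∧
      Real.exp (-(c * (v : ℝ) / H)) ≤ qs (cell H v)) → ∑ v ∈ V, qs (cell H v) < B := by
    intro V hV
    by_contra h
    exact hcon ⟨V, hV, not_lt.1 h⟩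
  have hH0 : (0 : ℝ) < H := by exact_mod_cast hH
  set N : ℕ := ⌈(H : ℝ) * |P|⌉₊ with hN
  have hNv : ∀ v : ℕ, Real.exp ((v : ℝ) / H) < P → v < N := by
    intro v hv
    by_contra h
    have h1 : (H : ℝ) * |P| ≤ v := (Nat.le_ceil _).trans (by exact_mod_cast not_lt.1 h)
    have h2 : |P| ≤ (v : ℝ) / H := by
      rw [le_div_iff₀ hH0, mul_comm]
      exact h1
    have h3 := Real.add_one_le_exp ((v : ℝ) / H)
    have h4 := le_abs_self P
    linarith
  set r : ℝ := Real.exp (-(c / H)) with hr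
  have hr0 : 0 ≤ r := (Real.exp_pos _).le
  have hr1 : r < 1 := by
    rw [hr, Real.exp_lt_one_iff]
    have : 0 < c / H := by positivity
    linarith
  have hrv : ∀ v : ℕ, Real.exp (-(c * (v : ℝ) / H)) = r ^ v := by
    intro v
    rw [hr, ← Real.exp_nat_mul]
    congr 1
    ring
  have hsum := summable_geometric_of_lt_one hr0 hr1
  set K : ℝ := ∑ v ∈ Finset.range N, qs (cell H v) + (∑' v : ℕ, r ^ v + B) with hK
  apply not_summable_one_div_on_primes
  refine summable_of_sum_le (c := K) ?_ ?_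
  · intro n
    exact Set.indicator_nonneg (fun n _ => by positivity) n
  intro u
  -- the primes of the set
  set W : Finset ℕ := u.filter Nat.Prime with hW
  have h1 : ∑ x ∈ u, Set.indicator {p : ℕ | p.Prime} (fun n : ℕ => (1 : ℝ) / n) x =
      ∑ p ∈ W, (1 : ℝ) / p := by
    rw [hW, Finset.sum_filter]
    refine Finset.sum_congr rfl fun x _ => ?_
    by_cases hx : x.Prime
    · rw [if_pos hx, Set.indicator_of_mem (show x ∈ {p : ℕ | p.Prime} from hx)]
    · rw [if_neg hx, Set.indicator_of_notMem (show x ∉ {p : ℕ | p.Prime} from hx)]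
  rw [h1]
  set g : ℕ → ℕ := fun p => ⌊(H : ℝ) * Real.log p⌋₊ with hg
  have hcell : ∀ p : ℕ, p.Prime → p ∈ cell H (g p) := by
    intro p hp
    have hp0 : (0 : ℝ) < p := by exact_mod_cast hp.pos
    have hl : 0 ≤ (H : ℝ) * Real.log p :=
      mul_nonneg hH0.le (Real.log_nonneg (by exact_mod_cast hp.one_lt.le))
    rw [mem_cell]
    refine ⟨⟨?_, ?_⟩, hp⟩
    · rw [← Real.le_log_iff_exp_le hp0, div_le_iff₀ hH0, mul_comm]
      exact Nat.floor_le hl
    · rw [← Real.log_lt_iff_lt_exp hp0, lt_div_iff₀ hH0, mul_comm]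
      exact Nat.lt_floor_add_one _
  have h2 : ∑ p ∈ W, (1 : ℝ) / p = ∑ v ∈ W.image g, ∑ p ∈ W.filter (fun p => g p = v),
      (1 : ℝ) / p :=
    (Finset.sum_fiberwise_of_maps_to (fun p hp => Finset.mem_image_of_mem g hp) _).symm
  have h3 : ∑ v ∈ W.image g, ∑ p ∈ W.filter (fun p => g p = v), (1 : ℝ) / p ≤
      ∑ v ∈ W.image g, qs (cell H v) := by
    refine Finset.sum_le_sum fun v _ => ?_
    unfold qs
    refine Finset.sum_le_sum_of_subset_of_nonneg ?_ (fun _ _ _ => by positivity)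
    intro p hp
    rw [Finset.mem_filter, hW, Finset.mem_filter] at hp
    have := hcell p hp.1.2
    rw [hp.2] at this
    exact this
  rw [h2]
  refine h3.trans ?_
  set S := W.image g with hS
  set S1 := S.filter (fun v : ℕ => Real.exp ((v : ℝ) / H) < P) with hS1
  set S2 := S.filter (fun v : ℕ => ¬ Real.exp ((v : ℝ) / H) < P) with hS2
  set S3 := S2.filter (fun v : ℕ => qs (cell H v) < Real.exp (-(c * (v : ℝ) / H))) with hS3
  set S4 := S2.filter (fun v : ℕ => ¬ qs (cell H v) < Real.exp (-(c * (v : ℝ) / H))) with hS4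
  have e1 : ∑ v ∈ S, qs (cell H v) = ∑ v ∈ S1, qs (cell H v) + ∑ v ∈ S2, qs (cell H v) :=
    (Finset.sum_filter_add_sum_filter_not _ _ _).symm
  have e2 : ∑ v ∈ S2, qs (cell H v) = ∑ v ∈ S3, qs (cell H v) + ∑ v ∈ S4, qs (cell H v) :=
    (Finset.sum_filter_add_sum_filter_not _ _ _).symm
  have b1 : ∑ v ∈ S1, qs (cell H v) ≤ ∑ v ∈ Finset.range N, qs (cell H v) := by
    refine Finset.sum_le_sum_of_subset_of_nonneg ?_ (fun _ _ _ => qs_nonneg _)
    intro v hv
    rw [hS1, Finset.mem_filter] at hv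
    exact Finset.mem_range.2 (hNv v hv.2)
  have b2 : ∑ v ∈ S3, qs (cell H v) ≤ ∑' v : ℕ, r ^ v := by
    calc ∑ v ∈ S3, qs (cell H v) ≤ ∑ v ∈ S3, r ^ v := by
          refine Finset.sum_le_sum fun v hv => ?_
          rw [hS3, Finset.mem_filter] at hv
          rw [← hrv v]
          exact hv.2.le
      _ ≤ ∑' v : ℕ, r ^ v := hsum.sum_le_tsum _ (fun v _ => pow_nonneg hr0 v)
  have b3 : ∑ v ∈ S4, qs (cell H v) < B := by
    refine hcon' S4 fun v hv => ?_
    rw [hS4, Finset.mem_filter, hS2, Finset.mem_filter] at hv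
    exact ⟨not_lt.1 hv.1.2, not_lt.1 hv.2⟩
  rw [e1, e2, hK]
  linarith

end Pool.Agent.MOM
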