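import Pool.Agent.MOM.NT.MertA

/-!
MOM (MP_2b7f8f_an), tool N1, part 2: Mertens' second theorem with error term.

PROOF of `mertens_qs_nat` (integers `2 ≤ a ≤ b`; `mP n = ∑_{p ≤ n} 1/p`). Subtract
`Pool.Agent.ExpSum.mP_eq` for `a` from the one for `b`:
`mP b - mP a = mA b/log b - mA a/log a + ∑_{k ∈ Ico a b} mA k (1/log k - 1/log(k+1))`.
By `mertens_A`, `mA k = log k + E k`, `|E k| ≤ C` (`C ≥ 0`). The part with `E` is at most
`C/log b + C/log a + C ∑ (1/log k - 1/log(k+1)) ≤ 3C/log a` (telescoping, every term is `≥ 0`).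
The part
with `log k` is `1 - 1 + ∑_{k} (1 - log k/log(k+1))`. Put `r = log(k+1)/log k ≥ 1`; then
`0 ≤ log r - (1 - 1/r) ≤ (r - 1) - (1 - 1/r) = (r-1)²/r ≤ (r-1)²` and
`r - 1 = log(1 + 1/k)/log k ≤ 1/(k log k)`, so the difference between `∑ (1 - 1/r)` and
`∑ log r = log (log b/log a)` (telescoping) is at most `∑_{k ≥ a} 1/(k² log² k) ≤
(1/log² a) ∑_{k ≥ a} 1/k² ≤ (1/log² a)·(2/a) ≤ C'/log a` (`a log a ≥ 2 log 2`, or prove the bound
`∑_{k ∈ Ico a b} 1/k² ≤ 1/(a-1) ≤ 2/a` by induction, and `2/(a log a) ≤ 2`).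

PROOF of `mertens_qs`. `a = ⌈y⌉₊ ≥ 2`, `b = ⌈z⌉₊ ≥ a`, `prs y z` = primes of `Ico a b`, so `qs`
differs
from `mP b - mP a` by at most `1/a + 1/b ≤ 2/y ≤ 2/log y`. And `y ≤ a ≤ y + 1`, so
`0 ≤ log log a - log log y ≤ (log a - log y)/log y ≤ (1/y)/log y ≤ 1/log y` (`log x ≤ x - 1` for
`x = log a/log y`), the same for `z`; finally `1/log a ≤ 1/log y`.
-/

set_option autoImplicit false

namespace Pool.Agent.MOM

open Finset

private theorem mertQ_step {A B C m k L : ℝ} (hL : 0 < L) (hLA : L ≤ A) (hAB : A ≤ B)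
    (hk : 0 < k) (hBA : B - A ≤ 1 / k) (hm : |m - A| ≤ C) :
    |m * (1 / A - 1 / B) - (Real.log B - Real.log A)| ≤
      C * (1 / A - 1 / B) + 1 / L ^ 2 * (1 / k ^ 2) := by
  have hA : 0 < A := lt_of_lt_of_le hL hLA
  have hB : 0 < B := lt_of_lt_of_le hA hAB
  have h1 : 0 ≤ 1 / A - 1 / B := by
    rw [sub_nonneg]
    exact one_div_le_one_div_of_le hA hAB
  have h2 : m * (1 / A - 1 / B) - (Real.log B - Real.log A) =
      (m - A) * (1 / A - 1 / B) - (Real.log B - Real.log A - (1 - A / B)) := by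
    have : A * (1 / A - 1 / B) = 1 - A / B := by field_simp
    linear_combination this
  have h3 : 0 ≤ Real.log B - Real.log A - (1 - A / B) := by
    have h := Real.log_le_sub_one_of_pos (div_pos hA hB)
    rw [Real.log_div hA.ne' hB.ne'] at h
    linarith
  have h4 : Real.log B - Real.log A - (1 - A / B) ≤ 1 / L ^ 2 * (1 / k ^ 2) := by
    have h := Real.log_le_sub_one_of_pos (div_pos hB hA)
    rw [Real.log_div hB.ne' hA.ne'] at h
    have h5 : Real.log B - Real.log A - (1 - A / B) ≤ (B - A) ^ 2 / (A * B) := by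
      have e : (B - A) ^ 2 / (A * B) = B / A - 1 - (1 - A / B) := by
        field_simp
      rw [e]
      linarith
    have h6 : (B - A) ^ 2 / (A * B) ≤ (1 / k) ^ 2 / (L * L) := by
      have h7 : (B - A) ^ 2 ≤ (1 / k) ^ 2 := pow_le_pow_left₀ (by linarith) hBA 2
      have h8 : L * L ≤ A * B := mul_le_mul hLA (hLA.trans hAB) hL.le hA.le
      exact div_le_div₀ (by positivity) h7 (by positivity) h8
    refine (h5.trans h6).trans (le_of_eq ?_)
    field_simp
  rw [h2]
  have h9 : |(m - A) * (1 / A - 1 / B)| ≤ C * (1 / A - 1 / B) := by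
    rw [abs_mul, abs_of_nonneg h1]
    exact mul_le_mul_of_nonneg_right hm h1
  calc |(m - A) * (1 / A - 1 / B) - (Real.log B - Real.log A - (1 - A / B))|
      ≤ |(m - A) * (1 / A - 1 / B)| + |Real.log B - Real.log A - (1 - A / B)| := abs_sub _ _
    _ ≤ _ := by
        rw [abs_of_nonneg h3]
        exact add_le_add h9 h4

private theorem mertQ_sum {C : ℝ}
    (hC : ∀ n : ℕ, 1 ≤ n → |Pool.Agent.ExpSum.mA n - Real.log n| ≤ C) (a : ℕ) (ha : 2 ≤ a) :
    ∀ M : ℕ, a ≤ M →
    |∑ k ∈ Ico a M, Pool.Agent.ExpSum.mA k * (1 / Real.log k - 1 / Real.log ((k : ℝ) + 1)) -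
      (Real.log (Real.log M) - Real.log (Real.log a))| ≤
      C * (1 / Real.log a - 1 / Real.log M) +
        1 / Real.log a ^ 2 * ∑ k ∈ Ico a M, 1 / (k : ℝ) ^ 2 := by
  intro M hM
  induction M, hM using Nat.le_induction with
  | base => simp
  | succ M hM ih =>
    have haR : (2 : ℝ) ≤ a := by exact_mod_cast ha
    have hMR : (a : ℝ) ≤ M := by exact_mod_cast hM
    have hLa : 0 < Real.log (a : ℝ) := Real.log_pos (by linarith)
    have hs := mertQ_step (A := Real.log (M : ℝ)) (B := Real.log ((M : ℝ) + 1)) (C := C)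
      (m := Pool.Agent.ExpSum.mA M) (k := (M : ℝ)) (L := Real.log (a : ℝ)) hLa
      (Real.log_le_log (by linarith) hMR) (Real.log_le_log (by linarith) (by linarith))
      (by linarith) (by
        rw [← Real.log_div (by linarith) (by linarith)]
        have h := Real.log_le_sub_one_of_pos
          (show 0 < ((M : ℝ) + 1) / M by
            apply div_pos <;> linarith)
        have e : ((M : ℝ) + 1) / M - 1 = 1 / M := by
          have : (M : ℝ) ≠ 0 := by linarith
          field_simp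
          ring
        linarith) (hC M (by omega))
    rw [Finset.sum_Ico_succ_top hM, Finset.sum_Ico_succ_top hM]
    push_cast
    have e1 : ∀ S x u v w : ℝ, S + x - (v - w) = (S - (u - w)) + (x - (v - u)) := by
      intro S x u v w
      ring
    rw [e1 _ _ (Real.log (Real.log (M : ℝ))) _ _]
    refine (abs_add_le _ _).trans ?_
    refine (add_le_add ih hs).trans (le_of_eq ?_)
    ring

private theorem mertQ_sq (a : ℕ) (ha : 2 ≤ a) : ∀ M : ℕ, a ≤ M →
    ∑ k ∈ Ico a M, 1 / (k : ℝ) ^ 2 ≤ 1 / ((a : ℝ) - 1) - 1 / ((M : ℝ) - 1) := by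
  intro M hM
  induction M, hM using Nat.le_induction with
  | base => simp
  | succ M hM ih =>
    have haR : (2 : ℝ) ≤ a := by exact_mod_cast ha
    have hMR : (a : ℝ) ≤ M := by exact_mod_cast hM
    rw [Finset.sum_Ico_succ_top hM]
    push_cast
    have h1 : 1 / (M : ℝ) ^ 2 ≤ 1 / ((M : ℝ) - 1) - 1 / ((M : ℝ) + 1 - 1) := by
      have e : 1 / ((M : ℝ) - 1) - 1 / ((M : ℝ) + 1 - 1) = 1 / (((M : ℝ) - 1) * M) := by
        have h2 : (M : ℝ) - 1 ≠ 0 := by linarith
        have h3 : (M : ℝ) ≠ 0 := by linarith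
        have h4 : (M : ℝ) + 1 - 1 = M := by ring
        rw [h4]
        field_simp
        ring
      rw [e]
      apply one_div_le_one_div_of_le
      · apply mul_pos <;> linarith
      · nlinarith
    linarith

private theorem mertQ_mP (a : ℕ) : ∀ b : ℕ, a ≤ b →
    Pool.Agent.ExpSum.mP b - Pool.Agent.ExpSum.mP a =
      (∑ p ∈ (Ico a b).filter Nat.Prime, 1 / (p : ℝ)) + (if b.Prime then 1 / (b : ℝ) else 0) -
        (if a.Prime then 1 / (a : ℝ) else 0) := by
  intro b hb
  induction b, hb using Nat.le_induction with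
  | base => simp
  | succ b hb ih =>
    have e1 : Pool.Agent.ExpSum.mP (b + 1) = Pool.Agent.ExpSum.mP b +
        (if (b + 1).Prime then 1 / (((b + 1 : ℕ)) : ℝ) else 0) := by
      unfold Pool.Agent.ExpSum.mP
      rw [Finset.sum_filter, Finset.sum_filter, ← Finset.sum_Ioc_succ_top (Nat.zero_le b)]
    have e2 : (∑ p ∈ (Ico a (b + 1)).filter Nat.Prime, 1 / (p : ℝ)) =
        (∑ p ∈ (Ico a b).filter Nat.Prime, 1 / (p : ℝ)) +
          (if b.Prime then 1 / (b : ℝ) else 0) := by
      rw [Finset.sum_filter, Finset.sum_filter, Finset.sum_Ico_succ_top hb]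
    rw [e1, e2]
    linarith

theorem mertens_qs_nat : ∃ C : ℝ, 0 ≤ C ∧ ∀ a b : ℕ, 2 ≤ a → a ≤ b →
    |Pool.Agent.ExpSum.mP b - Pool.Agent.ExpSum.mP a - Real.log (Real.log b / Real.log a)| ≤
      C / Real.log a := by
  obtain ⟨C, hC⟩ := mertens_A
  have hC0 : 0 ≤ C := (abs_nonneg _).trans (hC 1 le_rfl)
  refine ⟨2 * C + 2, by positivity, ?_⟩
  intro a b ha hab
  have haR : (2 : ℝ) ≤ a := by exact_mod_cast ha
  have hbR : (a : ℝ) ≤ b := by exact_mod_cast hab
  have hLa : 0 < Real.log (a : ℝ) := Real.log_pos (by linarith)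
  have hLab : Real.log (a : ℝ) ≤ Real.log (b : ℝ) := Real.log_le_log (by linarith) hbR
  have hLb : 0 < Real.log (b : ℝ) := lt_of_lt_of_le hLa hLab
  have h1 := mertQ_sum hC a ha b hab
  have h2 := mertQ_sq a ha b hab
  have h3 : Pool.Agent.ExpSum.mP b - Pool.Agent.ExpSum.mP a =
      Pool.Agent.ExpSum.mA b / Real.log b - Pool.Agent.ExpSum.mA a / Real.log a +
      ∑ k ∈ Ico a b, Pool.Agent.ExpSum.mA k *
        (1 / Real.log k - 1 / Real.log ((k : ℝ) + 1)) := by
    rw [Pool.Agent.ExpSum.mP_eq (ha.trans hab), Pool.Agent.ExpSum.mP_eq ha,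
      ← Finset.sum_Ico_consecutive _ ha hab]
    ring
  have h4 : |Pool.Agent.ExpSum.mA b / Real.log b - 1| ≤ C / Real.log b := by
    have e : Pool.Agent.ExpSum.mA b / Real.log b - 1 =
        (Pool.Agent.ExpSum.mA b - Real.log b) / Real.log b := by
      field_simp
    rw [e, abs_div, abs_of_pos hLb]
    exact div_le_div_of_nonneg_right (hC b (by omega)) hLb.le
  have h5 : |Pool.Agent.ExpSum.mA a / Real.log a - 1| ≤ C / Real.log a := by
    have e : Pool.Agent.ExpSum.mA a / Real.log a - 1 =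
        (Pool.Agent.ExpSum.mA a - Real.log a) / Real.log a := by
      field_simp
    rw [e, abs_div, abs_of_pos hLa]
    exact div_le_div_of_nonneg_right (hC a (by omega)) hLa.le
  have h6 : 1 / Real.log (a : ℝ) ^ 2 * ∑ k ∈ Ico a b, 1 / (k : ℝ) ^ 2 ≤ 2 / Real.log a := by
    have hb1 : 0 < (b : ℝ) - 1 := by linarith
    have ha1 : 0 < (a : ℝ) - 1 := by linarith
    have h7 : 1 / ((a : ℝ) - 1) - 1 / ((b : ℝ) - 1) ≤ 1 / ((a : ℝ) - 1) := by
      have : 0 ≤ 1 / ((b : ℝ) - 1) := by positivity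
      linarith
    have h8 : (1 : ℝ) / 2 ≤ Real.log 2 := by
      have := Real.log_two_gt_d9
      linarith
    have h9 : Real.log 2 ≤ Real.log (a : ℝ) := Real.log_le_log (by norm_num) haR
    have h10 : 1 / ((a : ℝ) - 1) ≤ 1 := by
      rw [div_le_one ha1]
      linarith
    have h11 : 1 / Real.log (a : ℝ) ^ 2 * ∑ k ∈ Ico a b, 1 / (k : ℝ) ^ 2 ≤
        1 / Real.log (a : ℝ) ^ 2 * 1 :=
      mul_le_mul_of_nonneg_left (h2.trans (h7.trans h10)) (by positivity)
    refine h11.trans ?_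
    rw [mul_one, div_le_div_iff₀ (by positivity) hLa]
    nlinarith
  rw [h3, Real.log_div hLb.ne' hLa.ne']
  have e : ∀ x y S u v : ℝ, x - y + S - (u - v) = (x - 1) - (y - 1) + (S - (u - v)) := by
    intro x y S u v
    ring
  rw [e]
  refine (abs_add_le _ _).trans ?_
  have h12 := (abs_sub (Pool.Agent.ExpSum.mA b / Real.log (b : ℝ) - 1)
    (Pool.Agent.ExpSum.mA a / Real.log (a : ℝ) - 1))
  have e2 : (2 * C + 2) / Real.log (a : ℝ) =
      2 * (C / Real.log a) + 2 / Real.log a := by ring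
  have e3 : C * (1 / Real.log (a : ℝ) - 1 / Real.log (b : ℝ)) =
      C / Real.log a - C / Real.log b := by ring
  rw [e2]
  rw [e3] at h1
  linarith

theorem mertens_qs : ∃ C : ℝ, 0 ≤ C ∧ ∀ y z : ℝ, 2 ≤ y → y ≤ z →
    |qs (prs y z) - Real.log (Real.log z / Real.log y)| ≤ C / Real.log y := by
  obtain ⟨C, hC0, hC⟩ := mertens_qs_nat
  refine ⟨C + 4, by positivity, ?_⟩
  intro y z hy hyz
  set a : ℕ := ⌈y⌉₊ with ha
  set b : ℕ := ⌈z⌉₊ with hb
  have hya : y ≤ a := Nat.le_ceil y
  have hzb : z ≤ b := Nat.le_ceil z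
  have hay : (a : ℝ) < y + 1 := Nat.ceil_lt_add_one (by linarith)
  have hbz : (b : ℝ) < z + 1 := Nat.ceil_lt_add_one (by linarith)
  have haR : (2 : ℝ) ≤ a := hy.trans hya
  have ha2 : 2 ≤ a := by exact_mod_cast haR
  have hab : a ≤ b := Nat.ceil_mono hyz
  have hLy : 0 < Real.log y := Real.log_pos (by linarith)
  have hLyz : Real.log y ≤ Real.log z := Real.log_le_log (by linarith) hyz
  have hLz : 0 < Real.log z := lt_of_lt_of_le hLy hLyz
  have hLya : Real.log y ≤ Real.log a := Real.log_le_log (by linarith) hya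
  have hLzb : Real.log z ≤ Real.log b := Real.log_le_log (by linarith) hzb
  have hLa : 0 < Real.log (a : ℝ) := lt_of_lt_of_le hLy hLya
  have hLb : 0 < Real.log (b : ℝ) := lt_of_lt_of_le hLz hLzb
  have h1 := hC a b ha2 hab
  have h2 := mertQ_mP a b hab
  have hqs : qs (prs y z) = ∑ p ∈ (Ico a b).filter Nat.Prime, 1 / (p : ℝ) := rfl
  have hinv : ∀ n : ℕ, a ≤ n → 0 ≤ (if n.Prime then 1 / (n : ℝ) else 0) ∧
      (if n.Prime then 1 / (n : ℝ) else 0) ≤ 1 / Real.log y := by
    intro n hn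
    have hnR : (a : ℝ) ≤ n := by exact_mod_cast hn
    have hn0 : 0 < (n : ℝ) := by linarith
    split_ifs
    · refine ⟨by positivity, ?_⟩
      apply one_div_le_one_div_of_le hLy
      have := Real.log_le_sub_one_of_pos (show 0 < y by linarith)
      linarith
    · exact ⟨le_rfl, by positivity⟩
  have h3 := hinv a le_rfl
  have h4 := hinv b hab
  have hll : ∀ u v : ℝ, 2 ≤ u → u ≤ v → v ≤ u + 1 → y ≤ u →
      |Real.log (Real.log v) - Real.log (Real.log u)| ≤ 1 / Real.log y := by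
    intro u v hu huv hvu hyu
    have hLu : 0 < Real.log u := Real.log_pos (by linarith)
    have hLuv : Real.log u ≤ Real.log v := Real.log_le_log (by linarith) huv
    have hLv : 0 < Real.log v := lt_of_lt_of_le hLu hLuv
    have h5 : 0 ≤ Real.log (Real.log v) - Real.log (Real.log u) := by
      have := Real.log_le_log hLu hLuv
      linarith
    rw [abs_of_nonneg h5]
    have h6 := Real.log_le_sub_one_of_pos (div_pos hLv hLu)
    rw [Real.log_div hLv.ne' hLu.ne'] at h6
    have h7 := Real.log_le_sub_one_of_pos (show 0 < v / u by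
      apply div_pos <;> linarith)
    rw [Real.log_div (by linarith) (by linarith)] at h7
    have h8 : v / u - 1 ≤ 1 := by
      have : v / u ≤ 2 := by
        rw [div_le_iff₀ (by linarith)]
        linarith
      linarith
    have h9 : Real.log v / Real.log u - 1 ≤ 1 / Real.log u := by
      have e : Real.log v / Real.log u - 1 = (Real.log v - Real.log u) / Real.log u := by
        field_simp
      rw [e]
      exact div_le_div_of_nonneg_right (h7.trans h8) hLu.le
    have h10 : 1 / Real.log u ≤ 1 / Real.log y :=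
      one_div_le_one_div_of_le hLy (Real.log_le_log (by linarith) hyu)
    linarith
  have h5 := hll y a hy hya hay.le le_rfl
  have h6 := hll z b (hy.trans hyz) hzb hbz.le hyz
  rw [Real.log_div hLb.ne' hLa.ne'] at h1
  rw [Real.log_div hLz.ne' hLy.ne', hqs]
  have h7 : C / Real.log (a : ℝ) ≤ C / Real.log y := div_le_div_of_nonneg_left hC0 hLy hLya
  have e2 : (C + 4) / Real.log y = C / Real.log y + 4 * (1 / Real.log y) := by ring
  rw [e2]
  rw [abs_le] at h1 h5 h6 ⊢
  constructor <;> linarith [h1.1, h1.2, h5.1, h5.2, h6.1, h6.2, h3.1, h3.2, h4.1, h4.2]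

end Pool.Agent.MOM
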