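import Pool.Agent.MOM.NT.MertA
import Pool.Agent.MOM.NT.MertQ
import Pool.Agent.MOM.NT.GoodCells

/-!
MOM (MP_2b7f8f_an), tool N1: Mertens' theorems (`mertens_A`, `mertens_unit`, `mertens_qs`) and
`good_cells`; see the imported files.
-/
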