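import Pool.Agent.MOM.NT.WeylA

/-!
MOM (MP_2b7f8f_an), tool N5, part 4b: power saving for `∑_{n ∈ I} n^{-iτ}`.

PROOF of `weyl`. It suffices to find `M0, c, C` for `M ≥ M0(K)` (then enlarge `C`: trivially the
sum
has at most `2M` terms, `2M = 2 M^c M^{1-c} ≤ 2 M0^c M^{1-c}` for `M ≤ M0`). Write `|τ| = M^ε` with
`1/3 ≤ ε ≤ K` (`ε = log|τ|/log M`), `J = ⌊ε⌋₊ + 1 ≤ K + 1` (finitely many `J ≤ ⌊K⌋₊ + 1`: take the
maximum of the constants of `weyl_J`, and `c` for the largest `J`), `δ = (J - ε + 1/4)/J`. Since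
`0 < J - ε ≤ 1`: `1/(4J) ≤ δ ≤ 11/12` (`J = 1`: `δ = 5/4 - ε ≤ 11/12`; `J ≥ 2`: `δ ≤ 5/8`). Let
`Q = ⌊M^δ⌋₊`, so `M^δ/2 ≤ Q ≤ M^δ ≤ M`. Hypothesis of `weyl_J`: `|τ| J! Q^J ≤ J! M^{ε+Jδ} =
J! M^{J+1/4} ≤ M^{J+1}` for `M^{3/4} ≥ J!`. Conclusion:
`(|S|/(2M))^{2^J} ≤ C(2 M^{-δ} + 2^J M^{J-ε-Jδ} (1+log M)^J) ≤ C'(M^{-1/(4J)} + M^{-1/4}(1+log
M)^J)`,
and `(1+log M)^J ≤ C'' M^{1/8}` (Mathlib `Real.log_le_rpow_div` or `isLittleO_log_rpow_atTop`), so
it
is `≤ C''' M^{-c'}` with `c' = 1/(8J)`; the `2^J`-th root gives the claim with `c = 1/(8J·2^J)`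
(smaller `c` is weaker as `M ≥ 1`).

PROOF of `weyl'`. `[M, 32M]` is covered by the five blocks `[2^i M, 2^{i+1} M]`, `i < 5` (split
`Ico a b` at `⌈2^i M⌉₊`), for each of them `(2^i M)^{1/3} ≤ (16M)^{1/3} ≤ M^{1/2} ≤ |τ|` if `M ≥
2^8`
and `|τ| ≤ M^K ≤ (2^i M)^K`, so `weyl` gives `C (16 M)^{1-c}` each; for `M < 2^8` trivially (at
most
`32·2^8` terms). Replace `c` by `min c 1`.
-/

set_option autoImplicit false

namespace Pool.Agent.MOM

open Finset

private theorem weylB_triv (τ : ℝ) (a b : ℕ) {B : ℝ} (hb : (b : ℝ) ≤ B) :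
    ‖∑ n ∈ Ico a b, ph τ n‖ ≤ B := by
  calc ‖∑ n ∈ Ico a b, ph τ n‖ ≤ ∑ n ∈ Ico a b, ‖ph τ n‖ := norm_sum_le _ _
    _ = ((b - a : ℕ) : ℝ) := by
        simp [norm_ph]
    _ ≤ (b : ℝ) := by exact_mod_cast Nat.sub_le b a
    _ ≤ B := hb

private theorem weylB_floor {x : ℝ} (hx : 1 ≤ x) : x / 2 ≤ (⌊x⌋₊ : ℝ) := by
  have h1 := Nat.lt_floor_add_one x
  have h2 : (1 : ℝ) ≤ (⌊x⌋₊ : ℝ) := by
    have : 1 ≤ ⌊x⌋₊ := Nat.le_floor (by simpa using hx)
    exact_mod_cast this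
  linarith

private theorem weylB_piece (J : ℕ) (hJ : 1 ≤ J) : ∃ C : ℝ, 1 ≤ C ∧ ∀ M ε τ : ℝ, 1 ≤ M →
    1 / 3 ≤ ε → (J : ℝ) - 1 ≤ ε → ε ≤ J → |τ| = M ^ ε → ∀ a b : ℕ, M ≤ a → (b : ℝ) ≤ 2 * M →
      ‖∑ n ∈ Ico a b, ph τ n‖ ≤ C * M ^ (1 - 1 / (8 * (J : ℝ) * 2 ^ J)) := by
  obtain ⟨C1, hC1, hW⟩ := weyl_J J
  have hJ0 : (1 : ℝ) ≤ (J : ℝ) := by exact_mod_cast hJ
  have hJpos : (0 : ℝ) < J := by linarith
  have hfac : (1 : ℝ) ≤ (J.factorial : ℝ) := Nat.one_le_cast.2 (Nat.factorial_pos J)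
  have h2J : (1 : ℝ) ≤ 2 ^ J := one_le_pow₀ (by norm_num)
  set c : ℝ := 1 / (8 * (J : ℝ) * 2 ^ J) with hc
  have hc0 : 0 < c := by positivity
  have hc1 : c ≤ 1 := by
    rw [hc, div_le_one (by positivity)]
    nlinarith
  set C2 : ℝ := C1 * (2 + 2 ^ J * (1 + 8 * (J : ℝ)) ^ J) with hC2
  have hC20 : 0 < C2 := by positivity
  set C3 : ℝ := max C2 1 with hC3
  have hC31 : 1 ≤ C3 := le_max_right _ _
  refine ⟨2 * C3 + 2 * (J.factorial : ℝ) ^ 2, by nlinarith, ?_⟩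
  intro M ε τ hM hε hε1 hε2 hτ a b ha hb
  have hM0 : 0 < M := by linarith
  have hMc : 0 < M ^ (1 - c) := Real.rpow_pos_of_pos hM0 _
  rcases lt_or_ge M ((J.factorial : ℝ) ^ 2) with hMs | hMb
  · have h1 := weylB_triv τ a b hb
    have h2 : M = M ^ c * M ^ (1 - c) := by
      rw [← Real.rpow_add hM0]
      simp
    have h3 : M ^ c ≤ (J.factorial : ℝ) ^ 2 := by
      calc M ^ c ≤ M ^ (1 : ℝ) := Real.rpow_le_rpow_of_exponent_le hM hc1
        _ = M := Real.rpow_one M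
        _ ≤ _ := hMs.le
    have h4 : M ≤ (J.factorial : ℝ) ^ 2 * M ^ (1 - c) := by
      calc M = M ^ c * M ^ (1 - c) := h2
        _ ≤ _ := by gcongr
    have h5 : 0 ≤ C3 * M ^ (1 - c) := by positivity
    nlinarith
  · -- the main case
    set δ : ℝ := ((J : ℝ) - ε + 1 / 4) / J with hδ
    have hδJ : δ * J = (J : ℝ) - ε + 1 / 4 := by
      rw [hδ]
      field_simp
    have hδlow : 1 / (4 * (J : ℝ)) ≤ δ := by
      rw [hδ, div_le_div_iff₀ (by positivity) (by positivity)]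
      nlinarith
    have hδ0 : 0 < δ := lt_of_lt_of_le (by positivity) hδlow
    have hδ1 : δ ≤ 1 := by
      rw [hδ, div_le_one hJpos]
      linarith
    set x : ℝ := M ^ δ with hx
    have hx1 : 1 ≤ x := Real.one_le_rpow hM hδ0.le
    have hx0 : 0 < x := by linarith
    set Q : ℕ := ⌊x⌋₊ with hQ
    have hQ1 : 1 ≤ Q := Nat.le_floor (by simpa using hx1)
    have hQx : (Q : ℝ) ≤ x := Nat.floor_le hx0.le
    have hQ2 : x / 2 ≤ (Q : ℝ) := weylB_floor hx1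
    have hQpos : (0 : ℝ) < Q := by exact_mod_cast hQ1
    have hxM : x ≤ M := by
      calc x = M ^ δ := rfl
        _ ≤ M ^ (1 : ℝ) := Real.rpow_le_rpow_of_exponent_le hM hδ1
        _ = M := Real.rpow_one M
    have hQM : (Q : ℝ) ≤ M := le_trans hQx hxM
    have hτpos : 0 < |τ| := by
      rw [hτ]
      exact Real.rpow_pos_of_pos hM0 _
    have hτ0 : τ ≠ 0 := abs_pos.1 hτpos
    have hxJ : x ^ J = M ^ (δ * J) := by
      rw [hx, ← Real.rpow_natCast, ← Real.rpow_mul hM0.le]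
    have hτx : |τ| * x ^ J = M ^ ((J : ℝ) + 1 / 4) := by
      rw [hτ, hxJ, ← Real.rpow_add hM0, hδJ]
      congr 1
      ring
    have hfM : (J.factorial : ℝ) ≤ M ^ (3 / 4 : ℝ) := by
      have h1 : (J.factorial : ℝ) = (((J.factorial : ℝ) ^ 2)) ^ (1 / 2 : ℝ) := by
        rw [← Real.sqrt_eq_rpow, Real.sqrt_sq (by linarith)]
      calc (J.factorial : ℝ) = (((J.factorial : ℝ) ^ 2)) ^ (1 / 2 : ℝ) := h1
        _ ≤ M ^ (1 / 2 : ℝ) := Real.rpow_le_rpow (by positivity) hMb (by norm_num)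
        _ ≤ M ^ (3 / 4 : ℝ) := Real.rpow_le_rpow_of_exponent_le hM (by norm_num)
    have hcond : |τ| * J.factorial * (Q : ℝ) ^ J ≤ M ^ (J + 1) := by
      calc |τ| * J.factorial * (Q : ℝ) ^ J ≤ |τ| * J.factorial * x ^ J := by gcongr
        _ = (J.factorial : ℝ) * (|τ| * x ^ J) := by ring
        _ ≤ M ^ (3 / 4 : ℝ) * (|τ| * x ^ J) := by
            gcongr
        _ = M ^ (3 / 4 : ℝ) * M ^ ((J : ℝ) + 1 / 4) := by rw [hτx]
        _ = M ^ (((J + 1 : ℕ) : ℝ)) := by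
            rw [← Real.rpow_add hM0]
            congr 1
            push_cast
            ring
        _ = M ^ (J + 1) := Real.rpow_natCast M (J + 1)
    have hmain := hW M Q τ hM hQ1 hQM hτ0 hcond a b ha hb
    set η : ℝ := 1 / (8 * (J : ℝ)) with hη
    have hη0 : 0 < η := by positivity
    have hη8 : η ≤ 1 / 8 := by
      rw [hη]
      apply one_div_le_one_div_of_le (by norm_num)
      linarith
    have hT1 : 1 / (Q : ℝ) ≤ 2 * M ^ (-η) := by
      have h1 : 1 / (Q : ℝ) ≤ 1 / (x / 2) := one_div_le_one_div_of_le (by positivity) hQ2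
      have h2 : 1 / (x / 2) = 2 * M ^ (-δ) := by
        rw [hx, Real.rpow_neg hM0.le]
        field_simp
      have h3 : M ^ (-δ) ≤ M ^ (-η) := by
        apply Real.rpow_le_rpow_of_exponent_le hM
        have h4 : η ≤ 1 / (4 * (J : ℝ)) := by
          rw [hη]
          apply one_div_le_one_div_of_le (by positivity)
          linarith
        linarith
      rw [h2] at h1
      linarith
    have hlog : 1 + Real.log Q ≤ (1 + 8 * (J : ℝ)) * M ^ η := by
      have h1 : Real.log Q ≤ Real.log M := Real.log_le_log hQpos hQM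
      have h2 : Real.log M ≤ M ^ η / η := Real.log_le_rpow_div hM0.le hη0
      have h3 : M ^ η / η = 8 * (J : ℝ) * M ^ η := by
        rw [hη]
        field_simp
      have h4 : 1 ≤ M ^ η := Real.one_le_rpow hM hη0.le
      rw [h3] at h2
      linarith
    have hlog0 : 0 ≤ 1 + Real.log Q := by
      have h1 : 0 ≤ Real.log Q := Real.log_nonneg (by exact_mod_cast hQ1)
      linarith
    have hlogJ : (1 + Real.log Q) ^ J ≤ (1 + 8 * (J : ℝ)) ^ J * M ^ (1 / 8 : ℝ) := by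
      calc (1 + Real.log Q) ^ J ≤ ((1 + 8 * (J : ℝ)) * M ^ η) ^ J :=
            pow_le_pow_left₀ hlog0 hlog J
        _ = (1 + 8 * (J : ℝ)) ^ J * (M ^ η) ^ J := mul_pow _ _ _
        _ = _ := by
            congr 1
            rw [← Real.rpow_natCast, ← Real.rpow_mul hM0.le]
            congr 1
            rw [hη]
            field_simp
    have hT2 : M ^ J * (1 + Real.log Q) ^ J / (|τ| * (Q : ℝ) ^ J) ≤
        2 ^ J * (1 + 8 * (J : ℝ)) ^ J * M ^ (-η) := by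
      have h1 : (x / 2) ^ J ≤ (Q : ℝ) ^ J := pow_le_pow_left₀ (by positivity) hQ2 J
      have h2 : M ^ ((J : ℝ) + 1 / 4) / 2 ^ J ≤ |τ| * (Q : ℝ) ^ J := by
        calc M ^ ((J : ℝ) + 1 / 4) / 2 ^ J = |τ| * (x / 2) ^ J := by
              rw [← hτx, div_pow]
              ring
          _ ≤ _ := by gcongr
      have h3 : 0 < M ^ ((J : ℝ) + 1 / 4) := Real.rpow_pos_of_pos hM0 _
      calc M ^ J * (1 + Real.log Q) ^ J / (|τ| * (Q : ℝ) ^ J)
          ≤ M ^ J * ((1 + 8 * (J : ℝ)) ^ J * M ^ (1 / 8 : ℝ)) /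
            (M ^ ((J : ℝ) + 1 / 4) / 2 ^ J) := by gcongr
        _ = 2 ^ J * (1 + 8 * (J : ℝ)) ^ J * (M ^ J * M ^ (1 / 8 : ℝ) /
            M ^ ((J : ℝ) + 1 / 4)) := by
            field_simp
        _ = 2 ^ J * (1 + 8 * (J : ℝ)) ^ J * M ^ (-(1 / 8) : ℝ) := by
            congr 1
            rw [← Real.rpow_natCast M J, ← Real.rpow_add hM0, ← Real.rpow_sub hM0]
            congr 1
            ring
        _ ≤ 2 ^ J * (1 + 8 * (J : ℝ)) ^ J * M ^ (-η) := by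
            have h4 : M ^ (-(1 / 8) : ℝ) ≤ M ^ (-η) :=
              Real.rpow_le_rpow_of_exponent_le hM (by linarith)
            gcongr
    have hMη : 0 < M ^ (-η) := Real.rpow_pos_of_pos hM0 _
    have hall : (‖∑ n ∈ Ico a b, ph τ n‖ / (2 * M)) ^ (2 ^ J) ≤ C3 * M ^ (-η) := by
      calc (‖∑ n ∈ Ico a b, ph τ n‖ / (2 * M)) ^ (2 ^ J)
          ≤ C1 * (1 / (Q : ℝ) + M ^ J * (1 + Real.log Q) ^ J / (|τ| * (Q : ℝ) ^ J)) := hmain
        _ ≤ C1 * (2 * M ^ (-η) + 2 ^ J * (1 + 8 * (J : ℝ)) ^ J * M ^ (-η)) := by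
            gcongr
        _ = C2 * M ^ (-η) := by
            rw [hC2]
            ring
        _ ≤ C3 * M ^ (-η) := by
            have := le_max_left C2 1
            gcongr
    have hroot : ‖∑ n ∈ Ico a b, ph τ n‖ / (2 * M) ≤ C3 * M ^ (-c) := by
      have h1 : C3 * M ^ (-η) ≤ (C3 * M ^ (-c)) ^ (2 ^ J) := by
        rw [mul_pow]
        have h2 : (M ^ (-c)) ^ (2 ^ J) = M ^ (-η) := by
          rw [← Real.rpow_natCast, ← Real.rpow_mul hM0.le]
          congr 1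
          rw [hc, hη]
          push_cast
          field_simp
        rw [h2]
        have h3 : C3 ≤ C3 ^ (2 ^ J) := by
          have h4 : 2 ^ J ≠ 0 := by positivity
          exact le_self_pow₀ hC31 h4
        gcongr
      have h5 : (0 : ℝ) ≤ C3 * M ^ (-c) := by positivity
      exact le_of_pow_le_pow_left₀ (by positivity : 2 ^ J ≠ 0) h5 (le_trans hall h1)
    have hfin : ‖∑ n ∈ Ico a b, ph τ n‖ ≤ C3 * M ^ (-c) * (2 * M) := by
      rwa [div_le_iff₀ (by positivity)] at hroot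
    have hpow : M ^ (-c) * M = M ^ (1 - c) := by
      rw [← Real.rpow_add_one hM0.ne']
      congr 1
      ring
    calc ‖∑ n ∈ Ico a b, ph τ n‖ ≤ C3 * M ^ (-c) * (2 * M) := hfin
      _ = 2 * C3 * (M ^ (-c) * M) := by ring
      _ = 2 * C3 * M ^ (1 - c) := by rw [hpow]
      _ ≤ (2 * C3 + 2 * (J.factorial : ℝ) ^ 2) * M ^ (1 - c) := by
          have : 0 ≤ 2 * (J.factorial : ℝ) ^ 2 := by positivity
          gcongr
          linarith

theorem weyl (K : ℝ) (hK : 1 ≤ K) : ∃ c : ℝ, 0 < c ∧ ∃ C : ℝ, 0 < C ∧ ∀ M : ℝ, 1 ≤ M →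
    ∀ τ : ℝ, M ^ (1 / 3 : ℝ) ≤ |τ| → |τ| ≤ M ^ K → ∀ a b : ℕ, M ≤ a → (b : ℝ) ≤ 2 * M →
      ‖∑ n ∈ Ico a b, ph τ n‖ ≤ C * M ^ (1 - c) := by
  have hex : ∀ J : ℕ, ∃ C : ℝ, 1 ≤ C ∧ (1 ≤ J → ∀ M ε τ : ℝ, 1 ≤ M →
      1 / 3 ≤ ε → (J : ℝ) - 1 ≤ ε → ε ≤ J → |τ| = M ^ ε → ∀ a b : ℕ, M ≤ a →
      (b : ℝ) ≤ 2 * M →
        ‖∑ n ∈ Ico a b, ph τ n‖ ≤ C * M ^ (1 - 1 / (8 * (J : ℝ) * 2 ^ J))) := by
    intro J
    rcases Nat.lt_or_ge J 1 with h | h
    · exact ⟨1, le_rfl, fun h' => absurd h' (by omega)⟩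
    · obtain ⟨C, hC, hC'⟩ := weylB_piece J h
      exact ⟨C, hC, fun _ => hC'⟩
  choose Cf hCf1 hCf using hex
  set L : ℕ := ⌊K⌋₊ + 1 with hL
  have hL1 : (1 : ℝ) ≤ (L : ℝ) := by
    rw [hL]
    push_cast
    have : (0 : ℝ) ≤ (⌊K⌋₊ : ℝ) := by positivity
    linarith
  set C : ℝ := 2 + ∑ J ∈ range (L + 1), Cf J with hC
  have hsum0 : 0 ≤ ∑ J ∈ range (L + 1), Cf J :=
    Finset.sum_nonneg fun J _ => le_trans zero_le_one (hCf1 J)
  refine ⟨1 / (8 * (L : ℝ) * 2 ^ L), by positivity, C, by linarith, ?_⟩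
  intro M hM τ hτ1 hτ2 a b ha hb
  have hM0 : 0 < M := by linarith
  rcases eq_or_lt_of_le hM with h1 | h1
  · have h2 := weylB_triv τ a b hb
    rw [← h1] at h2 ⊢
    rw [Real.one_rpow]
    linarith
  · have hτpos : 0 < |τ| := lt_of_lt_of_le (Real.rpow_pos_of_pos hM0 _) hτ1
    set ε : ℝ := Real.logb M |τ| with hε
    have hετ : |τ| = M ^ ε := (Real.rpow_logb hM0 h1.ne' hτpos).symm
    have hε1 : 1 / 3 ≤ ε := (Real.le_logb_iff_rpow_le h1 hτpos).2 hτ1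
    have hε2 : ε ≤ K := (Real.logb_le_iff_le_rpow h1 hτpos).2 hτ2
    set J : ℕ := ⌊ε⌋₊ + 1 with hJ
    have hJ1 : 1 ≤ J := by omega
    have hJL : J ≤ L := by
      have := Nat.floor_mono hε2
      omega
    have hfl : (⌊ε⌋₊ : ℝ) ≤ ε := Nat.floor_le (by linarith)
    have hfl2 : ε < (⌊ε⌋₊ : ℝ) + 1 := Nat.lt_floor_add_one ε
    have hJc : (J : ℝ) = (⌊ε⌋₊ : ℝ) + 1 := by
      rw [hJ]
      push_cast
      rfl
    have h3 := hCf J hJ1 M ε τ hM hε1 (by linarith) (by linarith) hετ a b ha hb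
    have h4 : Cf J ≤ C := by
      have h5 := Finset.single_le_sum (f := Cf) (fun i _ => le_trans zero_le_one (hCf1 i))
        (Finset.mem_range.2 (by omega : J < L + 1))
      linarith
    have hJpos : (0 : ℝ) < J := by exact_mod_cast hJ1
    have h6 : M ^ (1 - 1 / (8 * (J : ℝ) * 2 ^ J)) ≤ M ^ (1 - 1 / (8 * (L : ℝ) * 2 ^ L)) := by
      apply Real.rpow_le_rpow_of_exponent_le hM
      have h7 : 1 / (8 * (L : ℝ) * 2 ^ L) ≤ 1 / (8 * (J : ℝ) * 2 ^ J) := by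
        apply one_div_le_one_div_of_le (by positivity)
        have h8 : (J : ℝ) ≤ L := by exact_mod_cast hJL
        have h9 : (2 : ℝ) ^ J ≤ 2 ^ L := pow_le_pow_right₀ (by norm_num) hJL
        gcongr
      linarith
    have h10 : 0 < M ^ (1 - 1 / (8 * (J : ℝ) * 2 ^ J)) := Real.rpow_pos_of_pos hM0 _
    calc ‖∑ n ∈ Ico a b, ph τ n‖ ≤ Cf J * M ^ (1 - 1 / (8 * (J : ℝ) * 2 ^ J)) := h3
      _ ≤ C * M ^ (1 - 1 / (8 * (L : ℝ) * 2 ^ L)) := by
          have h11 : 0 ≤ Cf J := le_trans zero_le_one (hCf1 J)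
          gcongr

theorem weyl' (K : ℝ) (hK : 1 ≤ K) : ∃ c : ℝ, 0 < c ∧ c ≤ 1 ∧ ∃ C : ℝ, 0 < C ∧ ∀ M : ℝ,
    1 ≤ M → ∀ τ : ℝ, M ^ (1 / 2 : ℝ) ≤ |τ| → |τ| ≤ M ^ K → ∀ a b : ℕ, M ≤ a →
      (b : ℝ) ≤ 32 * M → ‖∑ n ∈ Ico a b, ph τ n‖ ≤ C * M ^ (1 - c) := by
  obtain ⟨c0, hc0, C0, hC0, hw⟩ := weyl K hK
  set c : ℝ := min c0 1 with hc
  have hcpos : 0 < c := lt_min hc0 one_pos
  have hc1 : c ≤ 1 := min_le_right _ _
  refine ⟨c, hcpos, hc1, 5 * (C0 + 1) * 16 + 32 * 256, by positivity, ?_⟩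
  intro M hM τ hτ1 hτ2 a b ha hb
  have hM0 : 0 < M := by linarith
  have hMc : 0 < M ^ (1 - c) := Real.rpow_pos_of_pos hM0 _
  rcases lt_or_ge M 256 with hMs | hMb
  · have h1 := weylB_triv τ a b hb
    have h2 : M = M ^ c * M ^ (1 - c) := by
      rw [← Real.rpow_add hM0]
      simp
    have h3 : M ^ c ≤ 256 := by
      calc M ^ c ≤ M ^ (1 : ℝ) := Real.rpow_le_rpow_of_exponent_le hM hc1
        _ = M := Real.rpow_one M
        _ ≤ _ := hMs.le
    have h4 : M ≤ 256 * M ^ (1 - c) := by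
      calc M = M ^ c * M ^ (1 - c) := h2
        _ ≤ _ := by gcongr
    have h5 : 0 ≤ 5 * (C0 + 1) * 16 * M ^ (1 - c) := by positivity
    nlinarith
  · set B : ℝ := (C0 + 1) * (16 * M) ^ (1 - c) with hB
    have hB0 : 0 ≤ B := by positivity
    have h16 : 1 ≤ (16 * M) ^ (1 - c) := Real.one_le_rpow (by linarith) (by linarith)
    -- one block
    have hblock : ∀ i : ℕ, i < 5 → ∀ a b : ℕ, 2 ^ i * M ≤ a → (b : ℝ) ≤ 2 ^ (i + 1) * M →
        ‖∑ n ∈ Ico a b, ph τ n‖ ≤ C0 * (16 * M) ^ (1 - c) := by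
      intro i hi a b ha' hb'
      have hi1 : (1 : ℝ) ≤ 2 ^ i := one_le_pow₀ (by norm_num)
      have hi2 : (2 : ℝ) ^ i ≤ 16 := by
        calc (2 : ℝ) ^ i ≤ 2 ^ 4 := pow_le_pow_right₀ (by norm_num) (by omega)
          _ = 16 := by norm_num
      have h1 : 1 ≤ 2 ^ i * M := by nlinarith
      have h2 : (2 ^ i * M) ^ (1 / 3 : ℝ) ≤ |τ| := by
        refine le_trans ?_ hτ1
        have h3 : (2 ^ i * M) ^ (1 / 3 : ℝ) ≤ (M ^ (3 / 2 : ℝ)) ^ (1 / 3 : ℝ) := by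
          apply Real.rpow_le_rpow (by positivity) _ (by norm_num)
          have h4 : (16 : ℝ) ≤ M ^ (1 / 2 : ℝ) := by
            rw [← Real.sqrt_eq_rpow]
            apply Real.le_sqrt_of_sq_le
            linarith
          calc 2 ^ i * M ≤ 16 * M := by gcongr
            _ ≤ M ^ (1 / 2 : ℝ) * M := by gcongr
            _ = M ^ (3 / 2 : ℝ) := by
                rw [← Real.rpow_add_one hM0.ne']
                norm_num
        refine le_trans h3 ?_
        rw [← Real.rpow_mul hM0.le]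
        norm_num
      have h3 : |τ| ≤ (2 ^ i * M) ^ K := by
        refine le_trans hτ2 ?_
        apply Real.rpow_le_rpow hM0.le _ (by linarith)
        nlinarith
      have h4 : (b : ℝ) ≤ 2 * (2 ^ i * M) := by
        rw [pow_succ] at hb'
        linarith
      have h5 := hw (2 ^ i * M) h1 τ h2 h3 a b ha' h4
      refine le_trans h5 ?_
      have h6 : (2 ^ i * M) ^ (1 - c0) ≤ (2 ^ i * M) ^ (1 - c) :=
        Real.rpow_le_rpow_of_exponent_le h1 (by
          have := min_le_left c0 1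
          linarith)
      have h7 : (2 ^ i * M) ^ (1 - c) ≤ (16 * M) ^ (1 - c) := by
        apply Real.rpow_le_rpow (by positivity) _ (by linarith)
        gcongr
      have h8 := le_trans h6 h7
      gcongr
    have hind : ∀ i : ℕ, i ≤ 5 → ∀ a b : ℕ, M ≤ a → (b : ℝ) ≤ 2 ^ i * M →
        ‖∑ n ∈ Ico a b, ph τ n‖ ≤ i * B := by
      intro i
      induction i with
      | zero =>
        intro _ a b ha' hb'
        have h1 : (b : ℝ) ≤ a := by
          rw [pow_zero, one_mul] at hb'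
          linarith
        have h2 : b ≤ a := by exact_mod_cast h1
        rw [Finset.Ico_eq_empty (by omega)]
        simp
      | succ i ih =>
        intro hi a b ha' hb'
        have hBlk : C0 * (16 * M) ^ (1 - c) + 1 ≤ B := by
          rw [hB]
          linarith
        have hcast : (((i + 1 : ℕ) : ℝ)) * B = i * B + B := by
          push_cast
          ring
        have hiB : 0 ≤ (i : ℝ) * B := by positivity
        rw [hcast]
        rcases le_or_gt ((b : ℝ)) (2 ^ i * M) with h1 | h1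
        · have h2 := ih (by omega) a b ha' h1
          linarith
        · rcases le_or_gt (2 ^ i * M) (a : ℝ) with h2 | h2
          · have h3 := hblock i (by omega) a b h2 hb'
            linarith
          · set m : ℕ := ⌊2 ^ i * M⌋₊ with hm
            have hm1 : (m : ℝ) ≤ 2 ^ i * M := Nat.floor_le (by positivity)
            have hm2 : 2 ^ i * M < (m : ℝ) + 1 := Nat.lt_floor_add_one _
            have ham : a ≤ m := Nat.le_floor h2.le
            have hmb : m < b := by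
              have : (m : ℝ) < b := lt_of_le_of_lt hm1 h1
              exact_mod_cast this
            have hsplit : ∑ n ∈ Ico a b, ph τ n = ∑ n ∈ Ico a m, ph τ n +
                (ph τ m + ∑ n ∈ Ico (m + 1) b, ph τ n) := by
              rw [← Finset.sum_eq_sum_Ico_succ_bot hmb, Finset.sum_Ico_consecutive _ ham hmb.le]
            have h3 := ih (by omega) a m ha' hm1
            have h4 := hblock i (by omega) (m + 1) b (by push_cast; linarith) hb'
            rw [hsplit]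
            calc ‖∑ n ∈ Ico a m, ph τ n + (ph τ m + ∑ n ∈ Ico (m + 1) b, ph τ n)‖
                ≤ ‖∑ n ∈ Ico a m, ph τ n‖ + ‖ph τ m + ∑ n ∈ Ico (m + 1) b, ph τ n‖ :=
                  norm_add_le _ _
              _ ≤ ‖∑ n ∈ Ico a m, ph τ n‖ +
                  (‖ph τ m‖ + ‖∑ n ∈ Ico (m + 1) b, ph τ n‖) := by
                  gcongr
                  exact norm_add_le _ _
              _ ≤ i * B + (1 + C0 * (16 * M) ^ (1 - c)) := by
                  rw [norm_ph]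
                  gcongr
              _ ≤ i * B + B := by linarith
    have h1 := hind 5 le_rfl a b ha (by norm_num; linarith)
    have h2 : (16 * M) ^ (1 - c) ≤ 16 * M ^ (1 - c) := by
      rw [Real.mul_rpow (by norm_num) hM0.le]
      have h3 : (16 : ℝ) ^ (1 - c) ≤ 16 := by
        calc (16 : ℝ) ^ (1 - c) ≤ 16 ^ (1 : ℝ) :=
              Real.rpow_le_rpow_of_exponent_le (by norm_num) (by linarith)
          _ = 16 := Real.rpow_one 16
      gcongr
    calc ‖∑ n ∈ Ico a b, ph τ n‖ ≤ ((5 : ℕ) : ℝ) * B := h1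
      _ = 5 * (C0 + 1) * (16 * M) ^ (1 - c) := by
          rw [hB]
          push_cast
          ring
      _ ≤ 5 * (C0 + 1) * (16 * M ^ (1 - c)) := by gcongr
      _ = 5 * (C0 + 1) * 16 * M ^ (1 - c) := by ring
      _ ≤ (5 * (C0 + 1) * 16 + 32 * 256) * M ^ (1 - c) := by
          gcongr
          linarith

end Pool.Agent.MOM
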