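import Pool.Agent.MOM.NT.KernDefs
import Pool.Agent.MOM.NT.Weyl

/-!
MOM (MP_2b7f8f_an), tools for N6, N7: the kernel for large `τ`.

PROOF of `abel_le`. By induction on `b` (`Nat.le_induction`), with `S k = ∑ n ∈ Ico a k, z n`,
`∑ n ∈ Ico a b, g n z n = g b S b - ∑ n ∈ Ico a b, (g (n+1) - g n) S (n+1)`.

PROOF of `kern_weyl`. `c, C1` from `weyl'`. Let `M = N e^{-1/(2H)}/e`, so `M ≥ N/(2e) ≥ 2H ≥ 2` and
`M^{1/2} ≤ N^{1/2} ≤ |τ| ≤ (N/(2e))^K ≤ M^K`. With `n = e m`, `kern H N e τ = ph τ e ∑_{m ∈ I} g m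
ph τ m`,
`I = win M (M e^{2/H}) = Ico a b`, `a = ⌊M⌋₊ + 1 ≥ M`, `b = ⌊M e^{2/H}⌋₊ + 1 ≤ 8 M + 1 ≤ 32 M`,
`g m = bw (H (log (e m) - log N))/(e m)`. For `m ∈ [M, M e^{2/H} + 1]` the number
`v = H (log (e m) - log N)` lies in `[-1/2, 3/2 + H/M] ⊆ [-1/2, 2]`, there `0 ≤ bw ≤ 3` and
`|bw'| ≤ 14` (`bw' = -(64/9) x (1-x²)`, `x = v - 1/2 ∈ [-1, 3/2]`), and `H log((m+1)/m) ≤ H/m`, so
`|g (m+1) - g m| ≤ 14 H/(e m²) + 3/(e m²) ≤ 17 H/(e M²)`; fewer than `8M + 1 ≤ 9M` values `m`. With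
`weyl'` for the intervals `Ico a k` (`k ≤ b`) and `abel_le`,
`‖kern‖ ≤ C1 M^{1-c} (3/(e M) + 153 H/(e M)) ≤ 156 C1 H M^{-c} ≤ 312 C1 H (N/e)^{-c}`
(`M^{-c} ≤ (N/(2e))^{-c} ≤ 2 (N/e)^{-c}`).
-/

set_option autoImplicit false

namespace Pool.Agent.MOM

open Finset MeasureTheory

private theorem kwl_abel_id (g : ℕ → ℝ) (z : ℕ → ℂ) {a b : ℕ} (hab : a ≤ b) :
    ∑ n ∈ Ico a b, (g n : ℂ) * z n = (g b : ℂ) * (∑ n ∈ Ico a b, z n)
      - ∑ n ∈ Ico a b, ((g (n + 1) - g n : ℝ) : ℂ) * ∑ k ∈ Ico a (n + 1), z k := by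
  induction b, hab using Nat.le_induction with
  | base => simp
  | succ b hb ih =>
    rw [Finset.sum_Ico_succ_top hb (fun n => (g n : ℂ) * z n),
      Finset.sum_Ico_succ_top hb
        (fun n => ((g (n + 1) - g n : ℝ) : ℂ) * ∑ k ∈ Ico a (n + 1), z k), ih,
      Finset.sum_Ico_succ_top hb z]
    push_cast
    ring

theorem abel_le (g : ℕ → ℝ) (z : ℕ → ℂ) {a b : ℕ} (hab : a ≤ b) {B : ℝ}
    (hB : ∀ k, a ≤ k → k ≤ b → ‖∑ n ∈ Ico a k, z n‖ ≤ B) :
    ‖∑ n ∈ Ico a b, (g n : ℂ) * z n‖ ≤ B * (|g b| + ∑ n ∈ Ico a b, |g (n + 1) - g n|) := by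
  rw [kwl_abel_id g z hab]
  refine (norm_sub_le _ _).trans ?_
  have h1 : ‖(g b : ℂ) * ∑ n ∈ Ico a b, z n‖ ≤ B * |g b| := by
    rw [norm_mul, Complex.norm_real, Real.norm_eq_abs, mul_comm]
    exact mul_le_mul_of_nonneg_right (hB b hab le_rfl) (abs_nonneg _)
  have h2 : ‖∑ n ∈ Ico a b, ((g (n + 1) - g n : ℝ) : ℂ) * ∑ k ∈ Ico a (n + 1), z k‖
      ≤ B * ∑ n ∈ Ico a b, |g (n + 1) - g n| := by
    rw [Finset.mul_sum]
    refine (norm_sum_le _ _).trans (Finset.sum_le_sum fun n hn => ?_)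
    rw [norm_mul, Complex.norm_real, Real.norm_eq_abs, mul_comm]
    have h3 := Finset.mem_Ico.1 hn
    exact mul_le_mul_of_nonneg_right (hB (n + 1) (by omega) (by omega)) (abs_nonneg _)
  rw [mul_add]
  linarith

private theorem kwl_reindex {H e : ℕ} {N : ℝ} (τ : ℝ) (he : 1 ≤ e) (hN : 0 < N) :
    kern H N e τ = ph τ e * ∑ m ∈ win (N * Real.exp (-(1 / (2 * (H : ℝ)))) / e)
      (N * Real.exp (3 / (2 * (H : ℝ))) / e),
        ((kw H N (e * m) / ((e : ℝ) * m) : ℝ) : ℂ) * ph τ m := by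
  rw [Finset.mul_sum]
  unfold kern kwin
  have he0 : (0 : ℝ) < e := by exact_mod_cast he
  have hA0 : 0 < N * Real.exp (-(1 / (2 * (H : ℝ)))) := by positivity
  have hA : 0 ≤ N * Real.exp (-(1 / (2 * (H : ℝ)))) := hA0.le
  have hA' : 0 ≤ N * Real.exp (-(1 / (2 * (H : ℝ)))) / e := by positivity
  refine Finset.sum_nbij' (fun n => n / e) (fun m => e * m) ?_ ?_ ?_ ?_ ?_
  · intro n hn
    rw [Finset.mem_filter, mem_win hA] at hn
    obtain ⟨⟨h1, h2⟩, ⟨m, rfl⟩⟩ := hn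
    rw [Nat.mul_div_cancel_left m (by omega), mem_win hA']
    push_cast at h1 h2
    rw [div_lt_iff₀ he0, le_div_iff₀ he0]
    constructor
    · linarith [mul_comm (e : ℝ) m]
    · linarith [mul_comm (e : ℝ) m]
  · intro m hm
    rw [mem_win hA', div_lt_iff₀ he0, le_div_iff₀ he0] at hm
    rw [Finset.mem_filter, mem_win hA]
    push_cast
    refine ⟨⟨?_, ?_⟩, Dvd.intro m rfl⟩
    · linarith [mul_comm (e : ℝ) m, hm.1]
    · linarith [mul_comm (e : ℝ) m, hm.2]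
  · intro n hn
    exact Nat.mul_div_cancel' (Finset.mem_filter.1 hn).2
  · intro m hm
    exact Nat.mul_div_cancel_left m (by omega)
  · intro n hn
    rw [Finset.mem_filter, mem_win hA] at hn
    obtain ⟨⟨h1, h2⟩, ⟨m, rfl⟩⟩ := hn
    rw [Nat.mul_div_cancel_left m (by omega)]
    have hm0 : m ≠ 0 := by
      rintro rfl
      simp only [mul_zero, Nat.cast_zero] at h1
      linarith
    rw [ph_mul (by omega) hm0]
    push_cast
    ring

private theorem kwl_v {H e m : ℕ} {N : ℝ} (hH : 1 ≤ H) (he : 1 ≤ e)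
    (hN : 4 * (H : ℝ) * e ≤ N) (h1 : N * Real.exp (-(1 / (2 * (H : ℝ)))) / e ≤ m)
    (h2 : (m : ℝ) ≤ N * Real.exp (3 / (2 * (H : ℝ))) / e + 1) :
    -(1 / 2) ≤ (H : ℝ) * (Real.log ((e * m : ℕ) : ℝ) - Real.log N) ∧
      (H : ℝ) * (Real.log ((e * m : ℕ) : ℝ) - Real.log N) ≤ 2 := by
  have hH0 : (1 : ℝ) ≤ H := by exact_mod_cast hH
  have heR : (1 : ℝ) ≤ e := by exact_mod_cast he
  have he0 : (0 : ℝ) < e := by linarith
  have hHpos : (0 : ℝ) < H := by linarith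
  have hN0 : 0 < N := lt_of_lt_of_le (by positivity) hN
  push_cast
  have h3 : N * Real.exp (-(1 / (2 * (H : ℝ)))) ≤ (e : ℝ) * m := by
    rw [div_le_iff₀ he0] at h1
    linarith [mul_comm (e : ℝ) m]
  have hpos : 0 < N * Real.exp (-(1 / (2 * (H : ℝ)))) := by positivity
  have hem : 0 < (e : ℝ) * m := lt_of_lt_of_le hpos h3
  have hE3 : 1 ≤ Real.exp (3 / (2 * (H : ℝ))) := Real.one_le_exp (by positivity)
  constructor
  · have h4 := Real.log_le_log hpos h3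
    rw [Real.log_mul hN0.ne' (Real.exp_pos _).ne', Real.log_exp] at h4
    have h5 : -(1 / (2 * (H : ℝ))) ≤ Real.log ((e : ℝ) * m) - Real.log N := by linarith
    have h6 : (H : ℝ) * (-(1 / (2 * (H : ℝ)))) = -(1 / 2) := by
      field_simp
    calc -(1 / 2) = (H : ℝ) * (-(1 / (2 * (H : ℝ)))) := h6.symm
      _ ≤ _ := mul_le_mul_of_nonneg_left h5 hHpos.le
  · have hpos3 : 0 < N * Real.exp (3 / (2 * (H : ℝ))) := by positivity
    have h4 := Real.log_le_sub_one_of_pos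
      (show 0 < (e : ℝ) * m / (N * Real.exp (3 / (2 * (H : ℝ)))) by positivity)
    rw [Real.log_div hem.ne' hpos3.ne', Real.log_mul hN0.ne' (Real.exp_pos _).ne',
      Real.log_exp] at h4
    have h5 : (e : ℝ) * m ≤ N * Real.exp (3 / (2 * (H : ℝ))) + e := by
      have h6 : (e : ℝ) * m ≤ e * (N * Real.exp (3 / (2 * (H : ℝ))) / e + 1) :=
        mul_le_mul_of_nonneg_left h2 he0.le
      have h7 : (e : ℝ) * (N * Real.exp (3 / (2 * (H : ℝ))) / e + 1)
          = N * Real.exp (3 / (2 * (H : ℝ))) + e := by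
        field_simp
      linarith
    have h8 : (e : ℝ) * m / (N * Real.exp (3 / (2 * (H : ℝ)))) - 1 ≤ 1 / (4 * (H : ℝ)) := by
      have h9 : (e : ℝ) * m / (N * Real.exp (3 / (2 * (H : ℝ))))
          ≤ 1 + e / (N * Real.exp (3 / (2 * (H : ℝ)))) := by
        rw [div_le_iff₀ hpos3, add_mul, one_mul, div_mul_cancel₀ _ hpos3.ne']
        exact h5
      have h10 : (e : ℝ) / (N * Real.exp (3 / (2 * (H : ℝ)))) ≤ 1 / (4 * (H : ℝ)) := by
        rw [div_le_div_iff₀ hpos3 (by positivity)]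
        have h11 : N * 1 ≤ N * Real.exp (3 / (2 * (H : ℝ))) :=
          mul_le_mul_of_nonneg_left hE3 hN0.le
        nlinarith
      linarith
    have h12 : Real.log ((e : ℝ) * m) - Real.log N ≤ 3 / (2 * (H : ℝ)) + 1 / (4 * (H : ℝ)) := by
      linarith
    calc (H : ℝ) * (Real.log ((e : ℝ) * m) - Real.log N)
        ≤ (H : ℝ) * (3 / (2 * (H : ℝ)) + 1 / (4 * (H : ℝ))) :=
          mul_le_mul_of_nonneg_left h12 hHpos.le
      _ = 7 / 4 := by field_simp; norm_num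
      _ ≤ 2 := by norm_num

private theorem kwl_bw_le {v : ℝ} (h0 : -(1 / 2) ≤ v) (h1 : v ≤ 2) : bw v ≤ 3 := by
  unfold bw
  have h2 : (v - 1 / 2) ^ 2 ≤ 9 / 4 := by nlinarith
  have h3 : 0 ≤ (v - 1 / 2) ^ 2 := sq_nonneg _
  nlinarith

private theorem kwl_bw_lip {v w : ℝ} (h0 : -(1 / 2) ≤ v) (h1 : v ≤ 2) (h2 : -(1 / 2) ≤ w)
    (h3 : w ≤ 2) : |bw w - bw v| ≤ 14 * |w - v| := by
  have h4 : bw w - bw v = (16 / 9 * (((v - 1 / 2) + (w - 1 / 2))
      * (2 - (v - 1 / 2) ^ 2 - (w - 1 / 2) ^ 2)) * -1) * (w - v) := by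
    unfold bw
    ring
  rw [h4, abs_mul]
  refine mul_le_mul_of_nonneg_right ?_ (abs_nonneg _)
  have h5 : |(v - 1 / 2) + (w - 1 / 2)| ≤ 3 := by
    rw [abs_le]
    constructor <;> linarith
  have h6 : |2 - (v - 1 / 2) ^ 2 - (w - 1 / 2) ^ 2| ≤ 5 / 2 := by
    have h7 : (v - 1 / 2) ^ 2 ≤ 9 / 4 := by nlinarith
    have h8 : (w - 1 / 2) ^ 2 ≤ 9 / 4 := by nlinarith
    have h9 : 0 ≤ (v - 1 / 2) ^ 2 := sq_nonneg _
    have h10 : 0 ≤ (w - 1 / 2) ^ 2 := sq_nonneg _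
    rw [abs_le]
    constructor <;> linarith
  rw [abs_mul, abs_mul, abs_mul]
  have h11 : |(v - 1 / 2) + (w - 1 / 2)| * |2 - (v - 1 / 2) ^ 2 - (w - 1 / 2) ^ 2|
      ≤ 3 * (5 / 2) := mul_le_mul h5 h6 (abs_nonneg _) (by norm_num)
  have h12 : |(16 / 9 : ℝ)| = 16 / 9 := abs_of_pos (by norm_num)
  have h13 : |(-1 : ℝ)| = 1 := by norm_num
  rw [h12, h13]
  linarith

private theorem kwl_diff {H e m : ℕ} {N : ℝ} (hH : 1 ≤ H) (he : 1 ≤ e)
    (hN : 4 * (H : ℝ) * e ≤ N) (h1 : N * Real.exp (-(1 / (2 * (H : ℝ)))) / e ≤ m)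
    (h2 : (m : ℝ) ≤ N * Real.exp (3 / (2 * (H : ℝ))) / e) :
    |kw H N (e * (m + 1)) / ((e : ℝ) * ((m + 1 : ℕ) : ℝ)) - kw H N (e * m) / ((e : ℝ) * m)|
      ≤ 17 * H / (e * (N * Real.exp (-(1 / (2 * (H : ℝ)))) / e) ^ 2) := by
  have hH0 : (1 : ℝ) ≤ H := by exact_mod_cast hH
  have heR : (1 : ℝ) ≤ e := by exact_mod_cast he
  have he0 : (0 : ℝ) < e := by linarith
  have hHpos : (0 : ℝ) < H := by linarith
  have hN0 : 0 < N := lt_of_lt_of_le (by positivity) hN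
  set M : ℝ := N * Real.exp (-(1 / (2 * (H : ℝ)))) / e with hM
  have hM0 : 0 < M := by positivity
  have hm0 : (0 : ℝ) < m := lt_of_lt_of_le hM0 h1
  have hv := kwl_v hH he hN h1 (by linarith)
  have hv' := kwl_v (m := m + 1) hH he hN (by push_cast; linarith) (by push_cast; linarith)
  unfold kw
  set v : ℝ := (H : ℝ) * (Real.log ((e * m : ℕ) : ℝ) - Real.log N) with hvd
  set w : ℝ := (H : ℝ) * (Real.log ((e * (m + 1) : ℕ) : ℝ) - Real.log N) with hwd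
  have hwv : w - v = H * (Real.log ((m : ℝ) + 1) - Real.log m) := by
    rw [hvd, hwd]
    push_cast
    rw [Real.log_mul he0.ne' hm0.ne', Real.log_mul he0.ne' (by positivity)]
    ring
  have hlog1 : 0 ≤ Real.log ((m : ℝ) + 1) - Real.log m := by
    have := Real.log_le_log hm0 (by linarith : (m : ℝ) ≤ m + 1)
    linarith
  have hlog2 : Real.log ((m : ℝ) + 1) - Real.log m ≤ 1 / m := by
    have h3 := Real.log_le_sub_one_of_pos (show 0 < ((m : ℝ) + 1) / m by positivity)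
    rw [Real.log_div (by positivity) hm0.ne'] at h3
    have h4 : ((m : ℝ) + 1) / m - 1 = 1 / m := by field_simp; ring
    linarith
  have habs : |w - v| ≤ H / m := by
    rw [hwv, abs_of_nonneg (by positivity)]
    calc (H : ℝ) * (Real.log ((m : ℝ) + 1) - Real.log m) ≤ H * (1 / m) :=
          mul_le_mul_of_nonneg_left hlog2 hHpos.le
      _ = H / m := by ring
  have hlip := kwl_bw_lip hv.1 hv.2 hv'.1 hv'.2
  have hb3 := kwl_bw_le hv.1 hv.2
  have hb0 := bw_nonneg v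
  have hid : bw w / ((e : ℝ) * ((m + 1 : ℕ) : ℝ)) - bw v / ((e : ℝ) * m)
      = (bw w - bw v) / (e * (m + 1)) - bw v / (e * (m * (m + 1))) := by
    push_cast
    field_simp
    ring
  rw [hid]
  have h5 : |(bw w - bw v) / (e * ((m : ℝ) + 1))| ≤ 14 * H / (e * (m * (m + 1))) := by
    rw [abs_div, abs_of_pos (show 0 < (e : ℝ) * ((m : ℝ) + 1) by positivity),
      div_le_div_iff₀ (by positivity) (by positivity)]
    have h6 : |bw w - bw v| ≤ 14 * (H / m) := le_trans hlip (by linarith)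
    calc |bw w - bw v| * (e * ((m : ℝ) * (m + 1)))
        ≤ 14 * (H / m) * (e * ((m : ℝ) * (m + 1))) :=
          mul_le_mul_of_nonneg_right h6 (by positivity)
      _ = 14 * H * (e * ((m : ℝ) + 1)) := by field_simp
  have h7 : |bw v / (e * ((m : ℝ) * (m + 1)))| ≤ 3 * H / (e * (m * (m + 1))) := by
    rw [abs_of_nonneg (by positivity)]
    refine div_le_div_of_nonneg_right ?_ (by positivity)
    linarith
  have h8 : 17 * (H : ℝ) / (e * ((m : ℝ) * (m + 1))) ≤ 17 * H / (e * M ^ 2) := by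
    refine div_le_div_of_nonneg_left (by positivity) (by positivity) ?_
    refine mul_le_mul_of_nonneg_left ?_ he0.le
    nlinarith
  calc |(bw w - bw v) / (e * ((m : ℝ) + 1)) - bw v / (e * ((m : ℝ) * (m + 1)))|
      ≤ |(bw w - bw v) / (e * ((m : ℝ) + 1))| + |bw v / (e * ((m : ℝ) * (m + 1)))| :=
        abs_sub _ _
    _ ≤ 14 * H / (e * (m * (m + 1))) + 3 * H / (e * (m * (m + 1))) := add_le_add h5 h7
    _ = 17 * (H : ℝ) / (e * ((m : ℝ) * (m + 1))) := by ring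
    _ ≤ _ := h8

theorem kern_weyl (K : ℝ) (hK : 1 ≤ K) : ∃ c : ℝ, 0 < c ∧ c ≤ 1 ∧ ∃ C : ℝ, 0 < C ∧
    ∀ (H e : ℕ) (N τ : ℝ), 1 ≤ H → 1 ≤ e → 4 * (H : ℝ) * e ≤ N → N ^ (1 / 2 : ℝ) ≤ |τ| →
      |τ| ≤ (N / (2 * e)) ^ K → ‖kern H N e τ‖ ≤ C * H * (N / e) ^ (-c) := by
  obtain ⟨c, hc0, hc1, C1, hC1, hw⟩ := weyl' K hK
  refine ⟨c, hc0, hc1, 278 * C1, by positivity, ?_⟩
  intro H e N τ hH he hN hτ1 hτ2
  have hH0 : (1 : ℝ) ≤ H := by exact_mod_cast hH
  have heR : (1 : ℝ) ≤ e := by exact_mod_cast he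
  have he0 : (0 : ℝ) < e := by linarith
  have hHpos : (0 : ℝ) < H := by linarith
  have hN0 : 0 < N := lt_of_lt_of_le (by positivity) hN
  have hE1pos : 0 < Real.exp (-(1 / (2 * (H : ℝ)))) := Real.exp_pos _
  have hinv : 1 / (2 * (H : ℝ)) ≤ 1 / 2 := by
    rw [div_le_div_iff₀ (by positivity) (by norm_num)]
    linarith
  have hE1le : Real.exp (-(1 / (2 * (H : ℝ)))) ≤ 1 := by
    rw [Real.exp_le_one_iff]
    have : 0 < 1 / (2 * (H : ℝ)) := by positivity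
    linarith
  have hE1ge : 1 / 2 ≤ Real.exp (-(1 / (2 * (H : ℝ)))) := by
    have h2 := Real.add_one_le_exp (-(1 / (2 * (H : ℝ))))
    linarith
  have hE31 : Real.exp (3 / (2 * (H : ℝ)))
      = Real.exp (-(1 / (2 * (H : ℝ)))) * Real.exp (2 / (H : ℝ)) := by
    rw [← Real.exp_add]
    congr 1
    field_simp
    norm_num
  have hE2 : Real.exp (2 / (H : ℝ)) ≤ 8 := by
    have h1 : (2 : ℝ) / H ≤ 2 := by
      rw [div_le_iff₀ hHpos]
      linarith
    have h2 : Real.exp 2 ≤ 8 := by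
      have h3 : Real.exp 2 = Real.exp 1 * Real.exp 1 := by
        rw [← Real.exp_add]
        norm_num
      have h4 := Real.exp_one_lt_d9
      have h5 := Real.exp_pos 1
      rw [h3]
      nlinarith
    exact le_trans (Real.exp_le_exp.2 h1) h2
  have hE2' : 1 ≤ Real.exp (2 / (H : ℝ)) := Real.one_le_exp (by positivity)
  set M : ℝ := N * Real.exp (-(1 / (2 * (H : ℝ)))) / e with hM
  have hM' : N * Real.exp (3 / (2 * (H : ℝ))) / e = M * Real.exp (2 / (H : ℝ)) := by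
    rw [hE31, hM]
    ring
  have hM0 : 0 < M := by positivity
  have hMN : N / (2 * e) ≤ M := by
    have h1 : N / (2 * e) = N * (1 / 2) / e := by field_simp
    rw [h1, hM]
    refine div_le_div_of_nonneg_right ?_ he0.le
    exact mul_le_mul_of_nonneg_left hE1ge hN0.le
  have h2H : 2 * (H : ℝ) ≤ N / (2 * e) := by
    rw [le_div_iff₀ (by positivity)]
    nlinarith
  have hM2 : 2 ≤ M := by linarith
  have hMleN : M ≤ N := by
    rw [hM, div_le_iff₀ he0]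
    nlinarith
  have hM'8 : M * Real.exp (2 / (H : ℝ)) ≤ 8 * M := by nlinarith
  have hMM' : M ≤ M * Real.exp (2 / (H : ℝ)) := by nlinarith
  have hkey := kwl_reindex (H := H) (e := e) τ he hN0
  rw [hM', ← hM] at hkey
  rw [hkey, norm_mul, norm_ph, one_mul]
  have hwin : win M (M * Real.exp (2 / (H : ℝ)))
      = Finset.Ico (⌊M⌋₊ + 1) (⌊M * Real.exp (2 / (H : ℝ))⌋₊ + 1) := by
    unfold win
    ext n
    rw [Finset.mem_Ioc, Finset.mem_Ico]
    omega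
  rw [hwin]
  set a : ℕ := ⌊M⌋₊ + 1 with ha
  set b : ℕ := ⌊M * Real.exp (2 / (H : ℝ))⌋₊ + 1 with hb
  have hab : a ≤ b := by
    rw [ha, hb]
    exact Nat.succ_le_succ (Nat.floor_le_floor hMM')
  have haM : M ≤ a := by
    rw [ha]
    push_cast
    exact (Nat.lt_floor_add_one M).le
  have hbM : (b : ℝ) ≤ M * Real.exp (2 / (H : ℝ)) + 1 := by
    rw [hb]
    push_cast
    have := Nat.floor_le (show 0 ≤ M * Real.exp (2 / (H : ℝ)) by positivity)
    linarith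
  have hb32 : (b : ℝ) ≤ 32 * M := by linarith
  have hτ1' : M ^ (1 / 2 : ℝ) ≤ |τ| :=
    le_trans (Real.rpow_le_rpow hM0.le hMleN (by norm_num)) hτ1
  have hτ2' : |τ| ≤ M ^ K :=
    le_trans hτ2 (Real.rpow_le_rpow (by positivity) hMN (by linarith))
  have hW : ∀ k, a ≤ k → k ≤ b → ‖∑ n ∈ Ico a k, ph τ n‖ ≤ C1 * M ^ (1 - c) := by
    intro k _ hkb
    refine hw M (by linarith) τ hτ1' hτ2' a k haM ?_
    have : (k : ℝ) ≤ b := by exact_mod_cast hkb
    linarith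
  have hab1 := abel_le (fun m => kw H N (e * m) / ((e : ℝ) * m)) (fun m => ph τ m) hab hW
  refine le_trans hab1 ?_
  have hMc0 : 0 < M ^ (1 - c) := Real.rpow_pos_of_pos hM0 _
  have hg1 : |kw H N (e * b) / ((e : ℝ) * b)| ≤ 3 / (e * M) := by
    have hbM1 : M ≤ (b : ℝ) := by
      have : (a : ℝ) ≤ b := by exact_mod_cast hab
      linarith
    have hv := kwl_v (m := b) hH he hN (by rw [← hM]; exact hbM1) (by rw [hM']; exact hbM)
    have h3 : kw H N (e * b) ≤ 3 := kwl_bw_le hv.1 hv.2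
    have h4 := kw_nonneg H N (e * b)
    have hb0 : (0 : ℝ) < b := by linarith
    rw [abs_of_nonneg (by positivity), div_le_div_iff₀ (by positivity) (by positivity)]
    have h5 : (e : ℝ) * M ≤ e * b := mul_le_mul_of_nonneg_left hbM1 he0.le
    have h6 : kw H N (e * b) * ((e : ℝ) * M) ≤ 3 * ((e : ℝ) * M) :=
      mul_le_mul_of_nonneg_right h3 (by positivity)
    linarith
  have hg2 : ∑ n ∈ Ico a b, |kw H N (e * (n + 1)) / ((e : ℝ) * ((n + 1 : ℕ) : ℝ))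
      - kw H N (e * n) / ((e : ℝ) * n)| ≤ 136 * H / (e * M) := by
    have h1 : ∀ n ∈ Ico a b, |kw H N (e * (n + 1)) / ((e : ℝ) * ((n + 1 : ℕ) : ℝ))
        - kw H N (e * n) / ((e : ℝ) * n)| ≤ 17 * H / (e * M ^ 2) := by
      intro n hn
      obtain ⟨hn1, hn2⟩ := Finset.mem_Ico.1 hn
      refine kwl_diff hH he hN ?_ ?_
      · rw [← hM]
        have : (a : ℝ) ≤ n := by exact_mod_cast hn1
        linarith
      · rw [hM']
        have : (n : ℝ) + 1 ≤ b := by exact_mod_cast hn2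
        linarith
    refine le_trans (Finset.sum_le_card_nsmul _ _ _ h1) ?_
    rw [nsmul_eq_mul, Nat.card_Ico]
    have h2 : ((b - a : ℕ) : ℝ) ≤ 8 * M := by
      rw [Nat.cast_sub hab]
      linarith
    calc ((b - a : ℕ) : ℝ) * (17 * H / (e * M ^ 2)) ≤ 8 * M * (17 * H / (e * M ^ 2)) :=
          mul_le_mul_of_nonneg_right h2 (by positivity)
      _ = 136 * H / (e * M) := by
          field_simp
          norm_num
  have hsum : |kw H N (e * b) / ((e : ℝ) * b)| + ∑ n ∈ Ico a b,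
      |kw H N (e * (n + 1)) / ((e : ℝ) * ((n + 1 : ℕ) : ℝ)) - kw H N (e * n) / ((e : ℝ) * n)|
      ≤ 139 * H / M := by
    have h1 : 3 / (e * M) + 136 * H / (e * M) ≤ 139 * H / M := by
      rw [← add_div, div_le_div_iff₀ (by positivity) hM0]
      have h2 : (3 + 136 * (H : ℝ)) * M ≤ 139 * H * M := by nlinarith
      have h3 : 139 * (H : ℝ) * M * 1 ≤ 139 * H * M * e :=
        mul_le_mul_of_nonneg_left heR (by positivity)
      linarith
    linarith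
  calc C1 * M ^ (1 - c) * (|kw H N (e * b) / ((e : ℝ) * b)| + ∑ n ∈ Ico a b,
      |kw H N (e * (n + 1)) / ((e : ℝ) * ((n + 1 : ℕ) : ℝ)) - kw H N (e * n) / ((e : ℝ) * n)|)
      ≤ C1 * M ^ (1 - c) * (139 * H / M) := mul_le_mul_of_nonneg_left hsum (by positivity)
    _ = 139 * C1 * H * M ^ (-c) := by
        have h1 : M ^ (1 - c) = M * M ^ (-c) := by
          rw [sub_eq_add_neg, Real.rpow_add hM0, Real.rpow_one]
        rw [h1]
        field_simp
    _ ≤ 139 * C1 * H * (2 * (N / e) ^ (-c)) := by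
        refine mul_le_mul_of_nonneg_left ?_ (by positivity)
        have h1 : M ^ (-c) ≤ (N / (2 * e)) ^ (-c) :=
          Real.rpow_le_rpow_of_nonpos (by positivity) hMN (by linarith)
        have h2 : (N / (2 * e)) ^ (-c) = 2 ^ c * (N / e) ^ (-c) := by
          have h3 : N / (2 * e) = (N / e) * (2 : ℝ)⁻¹ := by field_simp
          rw [h3, Real.mul_rpow (by positivity) (by norm_num), Real.inv_rpow (by norm_num),
            Real.rpow_neg (by norm_num : (0 : ℝ) ≤ 2), inv_inv, mul_comm]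
        have h4 : (2 : ℝ) ^ c ≤ 2 := by
          calc (2 : ℝ) ^ c ≤ 2 ^ (1 : ℝ) := Real.rpow_le_rpow_of_exponent_le (by norm_num) hc1
            _ = 2 := Real.rpow_one 2
        rw [h2] at h1
        refine le_trans h1 ?_
        exact mul_le_mul_of_nonneg_right h4 (by positivity)
    _ = 278 * C1 * H * (N / e) ^ (-c) := by ring

end Pool.Agent.MOM
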