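import Pool.Agent.MOM.Defs

/-!
MOM (MP_2b7f8f_an), tools for N6, N7: comparison of a sum with an integral, real end points.

PROOF of `sum_win_sub_integral`. Mathlib `sum_mul_eq_sub_integral_mul` with `c = 1` (note
`win a b = Ioc ⌊a⌋₊ ⌊b⌋₊`, `∑ k ∈ Icc 0 ⌊t⌋₊, 1 = ⌊t⌋₊ + 1`):
`∑ f = f b (⌊b⌋₊+1) - f a (⌊a⌋₊+1) - ∫_a^b f'(t) (⌊t⌋₊+1) dt`, and by partial integration
(`intervalIntegral.integral_mul_deriv_eq_deriv_mul` or the derivative of `t ↦ t f t`)
`∫_a^b f = b f b - a f a - ∫_a^b f'(t) t dt`. The difference is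
`f b (⌊b⌋₊+1-b) - f a (⌊a⌋₊+1-a) - ∫_a^b f'(t) (⌊t⌋₊+1-t) dt`, and `0 ≤ ⌊t⌋₊+1-t ≤ 1` for `t ≥ 0`.
-/

set_option autoImplicit false

namespace Pool.Agent.MOM

open Finset MeasureTheory

theorem sum_win_sub_integral {f : ℝ → ℂ} {a b : ℝ} (ha : 0 ≤ a) (hab : a ≤ b)
    (hf : ∀ x ∈ Set.Icc a b, DifferentiableAt ℝ f x)
    (hc : ContinuousOn (deriv f) (Set.Icc a b)) :
    ‖∑ n ∈ win a b, f n - ∫ x in a..b, f x‖ ≤ ‖f a‖ + ‖f b‖ + ∫ x in a..b, ‖deriv f x‖ := by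
  have hint : IntegrableOn (deriv f) (Set.Icc a b) := hc.integrableOn_Icc
  have hsum : ∀ t : ℝ, ∑ _k ∈ Icc 0 ⌊t⌋₊, (1 : ℂ) = (⌊t⌋₊ : ℂ) + 1 := by
    intro t
    simp [Nat.card_Icc]
  have h1 := sum_mul_eq_sub_sub_integral_mul (fun _ => (1 : ℂ)) ha hab hf hint
  simp only [mul_one, hsum] at h1
  rw [← intervalIntegral.integral_of_le hab] at h1
  have h2 : ∫ x in a..b, f x = f b * b - f a * a - ∫ x in a..b, deriv f x * (x : ℂ) := by
    have h := intervalIntegral.integral_mul_deriv_eq_deriv_mul (u := f)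
      (v := fun x : ℝ => (x : ℂ)) (u' := deriv f) (v' := fun _ => (1 : ℂ)) (a := a) (b := b)
      (fun x hx => by
        rw [Set.uIcc_of_le hab] at hx
        exact (hf x hx).hasDerivAt)
      (fun x _ => by
        have h0 := (hasDerivAt_id x).ofReal_comp
        simpa using h0)
      ((intervalIntegrable_iff_integrableOn_Icc_of_le hab).2 hint)
      (continuous_const.intervalIntegrable _ _)
    simpa only [mul_one] using h
  have i1 : IntervalIntegrable (fun t => deriv f t * ((⌊t⌋₊ : ℂ) + 1)) volume a b := by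
    rw [intervalIntegrable_iff_integrableOn_Icc_of_le hab]
    have h := integrableOn_mul_sum_Icc (m := 0) (fun _ => (1 : ℂ)) ha hint
    simpa only [hsum] using h
  have i2 : IntervalIntegrable (fun t : ℝ => deriv f t * (t : ℂ)) volume a b :=
    (hc.mul Complex.continuous_ofReal.continuousOn).intervalIntegrable_of_Icc hab
  have hfun : (fun t : ℝ => deriv f t * ((⌊t⌋₊ : ℂ) + 1 - t)) =
      fun t : ℝ => deriv f t * ((⌊t⌋₊ : ℂ) + 1) - deriv f t * (t : ℂ) := by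
    funext t
    ring
  have h3 : ∑ n ∈ win a b, f n - ∫ x in a..b, f x =
      f b * ((⌊b⌋₊ : ℂ) + 1 - b) - f a * ((⌊a⌋₊ : ℂ) + 1 - a) -
        ∫ t in a..b, deriv f t * ((⌊t⌋₊ : ℂ) + 1 - t) := by
    rw [hfun, intervalIntegral.integral_sub i1 i2, win, h1, h2]
    ring
  have hfl : ∀ t : ℝ, 0 ≤ t → ‖((⌊t⌋₊ : ℂ) + 1 - t)‖ ≤ 1 := by
    intro t ht
    have h : ((⌊t⌋₊ : ℂ) + 1 - t) = (((⌊t⌋₊ : ℝ) + 1 - t : ℝ) : ℂ) := by
      push_cast
      ring
    rw [h, Complex.norm_real, Real.norm_eq_abs, abs_le]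
    constructor
    · linarith [Nat.lt_floor_add_one t]
    · linarith [Nat.floor_le ht]
  have h4 : ‖∫ t in a..b, deriv f t * ((⌊t⌋₊ : ℂ) + 1 - t)‖ ≤ ∫ t in a..b, ‖deriv f t‖ := by
    refine (intervalIntegral.norm_integral_le_integral_norm hab).trans ?_
    refine intervalIntegral.integral_mono_on hab ?_ ?_ ?_
    · have h := (i1.sub i2).norm
      have hfun' : (fun t : ℝ => ‖deriv f t * ((⌊t⌋₊ : ℂ) + 1 - t)‖) =
          fun t : ℝ => ‖((fun t : ℝ => deriv f t * ((⌊t⌋₊ : ℂ) + 1)) -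
            fun t : ℝ => deriv f t * (t : ℂ)) t‖ := by
        funext t
        simp only [Pi.sub_apply]
        congr 1
        ring
      rw [hfun']
      exact h
    · exact hc.norm.intervalIntegrable_of_Icc hab
    · intro x hx
      rw [norm_mul]
      exact mul_le_of_le_one_right (norm_nonneg _) (hfl x (ha.trans hx.1))
  have h5 : ‖f b * ((⌊b⌋₊ : ℂ) + 1 - b)‖ ≤ ‖f b‖ := by
    rw [norm_mul]
    exact mul_le_of_le_one_right (norm_nonneg _) (hfl b (ha.trans hab))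
  have h6 : ‖f a * ((⌊a⌋₊ : ℂ) + 1 - a)‖ ≤ ‖f a‖ := by
    rw [norm_mul]
    exact mul_le_of_le_one_right (norm_nonneg _) (hfl a ha)
  rw [h3]
  refine (norm_sub_le _ _).trans ?_
  have h7 := norm_sub_le (f b * ((⌊b⌋₊ : ℂ) + 1 - b)) (f a * ((⌊a⌋₊ : ℂ) + 1 - a))
  linarith

end Pool.Agent.MOM
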