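import Pool.Agent.MOM.Defs

/-!
MOM (MP_2b7f8f_an), tools for N6, N7: the duality argument.

PROOF. Let `V = ∑_{t ∈ T} ‖dp P a t‖²`, `c t = conj (dp P a t)`, and
`F n = ∑_{t ∈ T} c t * ph t n`. Then `V = ∑_t c t * dp P a t = ∑_{n ∈ P} (a n/n) F n`, so by
Cauchy-Schwarz `V² ≤ (∑_{n ∈ P} 1/n) (∑_{n ∈ P} (1/n) ‖F n‖²) ≤ (∑_{n ∈ P} 1/n) ∑_{n ∈ S} W n ‖F
n‖²`
(`hPS`, `hW`, `hWP`). Expanding, `‖F n‖² = ∑_{t,t'} c t * conj (c t') * ph (t - t') n`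
(`conj (ph t n) = ph (-t) n`, `ph_add`), so
`∑_{n ∈ S} W n ‖F n‖² ≤ ∑_{t,t'} ‖c t‖ ‖c t'‖ ‖K (t - t')‖`, `K τ = ∑_{n ∈ S} W n ph τ n`, and with
`‖c t‖ ‖c t'‖ ≤ (‖c t‖² + ‖c t'‖²)/2` and `‖K (-τ)‖ = ‖K τ‖` (complex conjugate) it is
`≤ ∑_t ‖c t‖² ∑_{t'} ‖K (t - t')‖ ≤ B V`. So `V² ≤ (∑_{n ∈ P} 1/n) B V`; if `V = 0` the claim is
trivial
unless `B < 0`, but `hB` gives `B ≥ 0` when `T` is nonempty; for `T = ∅` the left side is `0`, and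
then
`hB0 : 0 ≤ B` is used.
-/

set_option autoImplicit false

namespace Pool.Agent.MOM

open Finset

private theorem conj_ph (t : ℝ) (n : ℕ) : (starRingEnd ℂ) (ph t n) = ph (-t) n := by
  unfold ph
  rw [← Complex.exp_conj]
  congr 1
  rw [map_mul, Complex.conj_ofReal, Complex.conj_I]
  push_cast
  ring

theorem duality (P S : Finset ℕ) (a : ℕ → ℂ) (W : ℕ → ℝ) (T : Finset ℝ) (B : ℝ) (hB0 : 0 ≤ B)
    (hP : ∀ n ∈ P, 0 < n) (ha : ∀ n ∈ P, ‖a n‖ ≤ 1) (hPS : P ⊆ S) (hW : ∀ n ∈ S, 0 ≤ W n)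
    (hWP : ∀ n ∈ P, 1 / (n : ℝ) ≤ W n)
    (hB : ∀ t ∈ T, ∑ t' ∈ T, ‖∑ n ∈ S, (W n : ℂ) * ph (t - t') n‖ ≤ B) :
    ∑ t ∈ T, ‖dp P a t‖ ^ 2 ≤ (∑ n ∈ P, 1 / (n : ℝ)) * B := by
  set V : ℝ := ∑ t ∈ T, ‖dp P a t‖ ^ 2 with hV
  set c : ℝ → ℂ := fun t => (starRingEnd ℂ) (dp P a t) with hc
  set F : ℕ → ℂ := fun n => ∑ t ∈ T, c t * ph t n with hF
  set K : ℝ → ℂ := fun τ => ∑ n ∈ S, (W n : ℂ) * ph τ n with hK
  set Q : ℝ := ∑ n ∈ P, 1 / (n : ℝ) with hQ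
  have hV0 : 0 ≤ V := Finset.sum_nonneg fun _ _ => by positivity
  have hQ0 : 0 ≤ Q := Finset.sum_nonneg fun _ _ => by positivity
  have hcn : ∀ t, ‖c t‖ = ‖dp P a t‖ := fun t => RCLike.norm_conj _
  -- the value of `V`
  have h1 : ((V : ℝ) : ℂ) = ∑ n ∈ P, a n / (n : ℂ) * F n := by
    have h2 : ((V : ℝ) : ℂ) = ∑ t ∈ T, c t * dp P a t := by
      rw [hV]
      push_cast
      refine Finset.sum_congr rfl fun t _ => ?_
      exact (Complex.conj_mul' _).symm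
    rw [h2]
    simp only [hF, Finset.mul_sum]
    rw [Finset.sum_comm]
    refine Finset.sum_congr rfl fun t _ => ?_
    conv_lhs => rw [dp, Finset.mul_sum]
    refine Finset.sum_congr rfl fun n _ => ?_
    ring
  have h3 : V ≤ ∑ n ∈ P, 1 / (n : ℝ) * ‖F n‖ := by
    have h4 : V = ‖((V : ℝ) : ℂ)‖ := by
      rw [Complex.norm_real, Real.norm_eq_abs, abs_of_nonneg hV0]
    rw [h4, h1]
    refine (norm_sum_le _ _).trans (Finset.sum_le_sum fun n hn => ?_)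
    rw [norm_mul, norm_div, Complex.norm_natCast]
    have h5 := ha n hn
    gcongr
  have h6 : V ^ 2 ≤ Q * ∑ n ∈ P, 1 / (n : ℝ) * ‖F n‖ ^ 2 := by
    refine (pow_le_pow_left₀ hV0 h3 2).trans ?_
    refine Finset.sum_sq_le_sum_mul_sum_of_sq_le_mul P (fun n _ => by positivity)
      (fun n _ => by positivity) (fun n _ => le_of_eq (by ring))
  have h7 : ∑ n ∈ P, 1 / (n : ℝ) * ‖F n‖ ^ 2 ≤ ∑ n ∈ S, W n * ‖F n‖ ^ 2 := by
    refine (Finset.sum_le_sum fun n hn => ?_).trans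
      (Finset.sum_le_sum_of_subset_of_nonneg hPS fun n hn _ => ?_)
    · exact mul_le_mul_of_nonneg_right (hWP n hn) (by positivity)
    · exact mul_nonneg (hW n hn) (by positivity)
  -- expansion
  have h8 : ((∑ n ∈ S, W n * ‖F n‖ ^ 2 : ℝ) : ℂ) =
      ∑ t ∈ T, ∑ t' ∈ T, c t * (starRingEnd ℂ) (c t') * K (t - t') := by
    push_cast
    have h9 : ∀ n, ((‖F n‖ : ℂ)) ^ 2 =
        ∑ t ∈ T, ∑ t' ∈ T, c t * (starRingEnd ℂ) (c t') * ph (t - t') n := by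
      intro n
      rw [← Complex.mul_conj']
      simp only [hF, map_sum, map_mul, conj_ph]
      rw [Finset.sum_mul]
      refine Finset.sum_congr rfl fun t _ => ?_
      rw [Finset.mul_sum]
      refine Finset.sum_congr rfl fun t' _ => ?_
      rw [sub_eq_add_neg, ph_add]
      ring
    simp only [h9, hK, Finset.mul_sum]
    rw [Finset.sum_comm]
    refine Finset.sum_congr rfl fun t _ => ?_
    rw [Finset.sum_comm]
    refine Finset.sum_congr rfl fun t' _ => ?_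
    refine Finset.sum_congr rfl fun n _ => ?_
    ring
  have hKs : ∀ τ, ‖K (-τ)‖ = ‖K τ‖ := by
    intro τ
    have h10 : K (-τ) = (starRingEnd ℂ) (K τ) := by
      simp only [hK, map_sum, map_mul, conj_ph, Complex.conj_ofReal]
    rw [h10]
    exact RCLike.norm_conj _
  have h11 : ∑ n ∈ S, W n * ‖F n‖ ^ 2 ≤
      ∑ t ∈ T, ∑ t' ∈ T, (‖c t‖ ^ 2 + ‖c t'‖ ^ 2) / 2 * ‖K (t - t')‖ := by
    have h12 : 0 ≤ ∑ n ∈ S, W n * ‖F n‖ ^ 2 :=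
      Finset.sum_nonneg fun n hn => mul_nonneg (hW n hn) (by positivity)
    have h13 : ∑ n ∈ S, W n * ‖F n‖ ^ 2 = ‖((∑ n ∈ S, W n * ‖F n‖ ^ 2 : ℝ) : ℂ)‖ := by
      rw [Complex.norm_real, Real.norm_eq_abs, abs_of_nonneg h12]
    rw [h13, h8]
    refine (norm_sum_le _ _).trans (Finset.sum_le_sum fun t _ => ?_)
    refine (norm_sum_le _ _).trans (Finset.sum_le_sum fun t' _ => ?_)
    have h19 : ‖(starRingEnd ℂ) (c t')‖ = ‖c t'‖ := RCLike.norm_conj _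
    rw [norm_mul, norm_mul, h19]
    refine mul_le_mul_of_nonneg_right ?_ (norm_nonneg _)
    nlinarith [sq_nonneg (‖c t‖ - ‖c t'‖)]
  have h14 : ∑ t ∈ T, ∑ t' ∈ T, (‖c t‖ ^ 2 + ‖c t'‖ ^ 2) / 2 * ‖K (t - t')‖ =
      ∑ t ∈ T, ‖c t‖ ^ 2 * ∑ t' ∈ T, ‖K (t - t')‖ := by
    have h15 : ∑ t ∈ T, ∑ t' ∈ T, ‖c t'‖ ^ 2 / 2 * ‖K (t - t')‖ =
        ∑ t ∈ T, ∑ t' ∈ T, ‖c t‖ ^ 2 / 2 * ‖K (t - t')‖ := by
      rw [Finset.sum_comm]
      refine Finset.sum_congr rfl fun t _ => ?_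
      refine Finset.sum_congr rfl fun t' _ => ?_
      rw [← hKs (t' - t), neg_sub]
    calc ∑ t ∈ T, ∑ t' ∈ T, (‖c t‖ ^ 2 + ‖c t'‖ ^ 2) / 2 * ‖K (t - t')‖
        = ∑ t ∈ T, ∑ t' ∈ T, ‖c t‖ ^ 2 / 2 * ‖K (t - t')‖ +
          ∑ t ∈ T, ∑ t' ∈ T, ‖c t'‖ ^ 2 / 2 * ‖K (t - t')‖ := by
          rw [← Finset.sum_add_distrib]
          refine Finset.sum_congr rfl fun t _ => ?_
          rw [← Finset.sum_add_distrib]
          refine Finset.sum_congr rfl fun t' _ => ?_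
          ring
      _ = ∑ t ∈ T, ‖c t‖ ^ 2 * ∑ t' ∈ T, ‖K (t - t')‖ := by
          rw [h15, ← Finset.sum_add_distrib]
          refine Finset.sum_congr rfl fun t _ => ?_
          rw [← Finset.sum_add_distrib, Finset.mul_sum]
          refine Finset.sum_congr rfl fun t' _ => ?_
          ring
  have h16 : ∑ t ∈ T, ‖c t‖ ^ 2 * ∑ t' ∈ T, ‖K (t - t')‖ ≤ B * V := by
    rw [hV, Finset.mul_sum]
    refine Finset.sum_le_sum fun t ht => ?_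
    rw [hcn, mul_comm]
    exact mul_le_mul_of_nonneg_right (hB t ht) (by positivity)
  have h17 : V ^ 2 ≤ Q * B * V := by
    calc V ^ 2 ≤ Q * ∑ n ∈ P, 1 / (n : ℝ) * ‖F n‖ ^ 2 := h6
      _ ≤ Q * (B * V) := mul_le_mul_of_nonneg_left
          (h7.trans (h11.trans (h14.le.trans h16))) hQ0
      _ = Q * B * V := by ring
  rcases hV0.eq_or_lt with h18 | h18
  · rw [← h18]
    positivity
  · rw [sq] at h17
    exact le_of_mul_le_mul_right h17 h18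

end Pool.Agent.MOM
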