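import Pool.Agent.MOM.NT.KernDefs

/-!
MOM (MP_2b7f8f_an), tools for N6, N7: size of the Fourier transform of the bump.

PROOF. The interval of integration has length `2/H`, and `0 ≤ bw ≤ 16/9` on it: the first bound.
For `τ ≠ 0` integrate by parts twice (`intervalIntegral.integral_mul_deriv_eq_deriv_mul`):
`w(y) = bw (H (y - log N))` and `w'` vanish at both end points (`v = H(y - log N) = -1/2, 3/2`), so
`kft = (1/(iτ))² ∫ w''(y) e^{-iτy} dy`. `w'' = H² bw''(v)`, `bw(v) = (16/9)(1-x²)²`, `x = v - 1/2`,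
`bw'' = (16/9)(12x² - 4)`, `|bw''| ≤ 128/9` for `|x| ≤ 1`. So
`|kft| ≤ τ^{-2} (2/H) H² (128/9) ≤ 32 H/τ²`.
-/

set_option autoImplicit false

namespace Pool.Agent.MOM

open Finset MeasureTheory

/-- the first derivative of the bump at scale `H` -/
private noncomputable def kernFT_w1 (H : ℕ) (L y : ℝ) : ℝ :=
  -(64 / 9) * H * (H * (y - L) - 1 / 2) * (1 - (H * (y - L) - 1 / 2) ^ 2)

/-- the second derivative of the bump at scale `H` -/
private noncomputable def kernFT_w2 (H : ℕ) (L y : ℝ) : ℝ :=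
  64 / 9 * H ^ 2 * (3 * (H * (y - L) - 1 / 2) ^ 2 - 1)

private theorem kernFT_lin (H : ℕ) (L y : ℝ) :
    HasDerivAt (fun y : ℝ => (H : ℝ) * (y - L) - 1 / 2) H y := by
  have h := (((hasDerivAt_id y).sub_const L).const_mul (H : ℝ)).sub_const (1 / 2)
  rw [mul_one] at h
  exact h

private theorem kernFT_d1 (H : ℕ) (L y : ℝ) :
    HasDerivAt (fun y : ℝ => bw (H * (y - L))) (kernFT_w1 H L y) y := by
  have h := (((kernFT_lin H L y).pow 2).const_sub 1).pow 2
  have h2 := h.const_mul (16 / 9 : ℝ)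
  have e : (fun y : ℝ => bw (H * (y - L))) =
      fun y : ℝ => 16 / 9 * (1 - ((H : ℝ) * (y - L) - 1 / 2) ^ 2) ^ 2 := rfl
  rw [e]
  refine h2.congr_deriv ?_
  unfold kernFT_w1
  simp only [Pi.pow_apply]
  push_cast
  ring

private theorem kernFT_d2 (H : ℕ) (L y : ℝ) :
    HasDerivAt (fun y : ℝ => kernFT_w1 H L y) (kernFT_w2 H L y) y := by
  have h := ((kernFT_lin H L y).const_mul (-(64 / 9) * (H : ℝ))).mul
    (((kernFT_lin H L y).pow 2).const_sub 1)
  have e : (fun y : ℝ => kernFT_w1 H L y) = (fun y : ℝ => -(64 / 9) * (H : ℝ) *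
      ((H : ℝ) * (y - L) - 1 / 2)) * (fun y : ℝ => 1 - ((H : ℝ) * (y - L) - 1 / 2) ^ 2) := rfl
  rw [e]
  refine h.congr_deriv ?_
  unfold kernFT_w2
  simp only [Pi.pow_apply]
  push_cast
  ring

/-- the phase -/
private noncomputable def kernFT_E (τ y : ℝ) : ℂ :=
  Complex.exp (((-(τ * y) : ℝ) : ℂ) * Complex.I)

private theorem kernFT_norm (τ y : ℝ) : ‖kernFT_E τ y‖ = 1 :=
  Complex.norm_exp_ofReal_mul_I _

private theorem kernFT_dE (τ y : ℝ) :
    HasDerivAt (fun y : ℝ => kernFT_E τ y) (kernFT_E τ y * (((-τ : ℝ) : ℂ) * Complex.I)) y := by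
  have h1 : HasDerivAt (fun y : ℝ => -(τ * y)) (-τ) y := by
    have := ((hasDerivAt_id y).const_mul τ).neg
    rw [mul_one] at this
    exact this
  exact ((h1.ofReal_comp).mul_const Complex.I).cexp

private theorem kernFT_cE (τ : ℝ) : Continuous (fun y : ℝ => kernFT_E τ y) :=
  continuous_iff_continuousAt.2 fun y => (kernFT_dE τ y).continuousAt

/-- The two integrations by parts. -/
private theorem kernFT_parts (H : ℕ) (L τ : ℝ) (hH : 1 ≤ H) (hτ : τ ≠ 0) :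
    (∫ y in (L - 1 / (2 * (H : ℝ)))..(L + 3 / (2 * (H : ℝ))),
      ((bw (H * (y - L)) : ℝ) : ℂ) * kernFT_E τ y) =
    (∫ y in (L - 1 / (2 * (H : ℝ)))..(L + 3 / (2 * (H : ℝ))),
      ((kernFT_w2 H L y : ℝ) : ℂ) * kernFT_E τ y) / (((-τ : ℝ) : ℂ) * Complex.I) ^ 2 := by
  set c : ℂ := ((-τ : ℝ) : ℂ) * Complex.I with hc
  have hc0 : c ≠ 0 := by
    refine mul_ne_zero ?_ Complex.I_ne_zero
    exact_mod_cast neg_ne_zero.2 hτ
  have hH0 : (H : ℝ) ≠ 0 := by
    have : (1 : ℝ) ≤ H := by exact_mod_cast hH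
    linarith
  have hG : ∀ y : ℝ, HasDerivAt (fun y : ℝ => ((bw (H * (y - L)) : ℝ) : ℂ) * kernFT_E τ y / c -
      ((kernFT_w1 H L y : ℝ) : ℂ) * kernFT_E τ y / c ^ 2)
      (((bw (H * (y - L)) : ℝ) : ℂ) * kernFT_E τ y -
        ((kernFT_w2 H L y : ℝ) : ℂ) * kernFT_E τ y / c ^ 2) y := by
    intro y
    have h1 := (((kernFT_d1 H L y).ofReal_comp).mul (kernFT_dE τ y)).div_const c
    have h2 := (((kernFT_d2 H L y).ofReal_comp).mul (kernFT_dE τ y)).div_const (c ^ 2)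
    refine (h1.sub h2).congr_deriv ?_
    rw [← hc]
    field_simp
    ring
  have c0 : Continuous (fun y : ℝ => ((bw (H * (y - L)) : ℝ) : ℂ) * kernFT_E τ y) := by
    refine Continuous.mul (Complex.continuous_ofReal.comp ?_) (kernFT_cE τ)
    exact continuous_iff_continuousAt.2 fun y => (kernFT_d1 H L y).continuousAt
  have c2 : Continuous (fun y : ℝ => ((kernFT_w2 H L y : ℝ) : ℂ) * kernFT_E τ y / c ^ 2) := by
    refine Continuous.div_const (Continuous.mul (Complex.continuous_ofReal.comp ?_)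
      (kernFT_cE τ)) _
    unfold kernFT_w2
    fun_prop
  have hint := intervalIntegral.integral_eq_sub_of_hasDerivAt
    (a := L - 1 / (2 * (H : ℝ))) (b := L + 3 / (2 * (H : ℝ)))
    (fun y _ => hG y) ((c0.sub c2).intervalIntegrable _ _)
  rw [intervalIntegral.integral_sub (c0.intervalIntegrable _ _) (c2.intervalIntegrable _ _),
    intervalIntegral.integral_div] at hint
  have hb : (H : ℝ) * (L + 3 / (2 * (H : ℝ)) - L) = 3 / 2 := by
    field_simp
    ring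
  have ha : (H : ℝ) * (L - 1 / (2 * (H : ℝ)) - L) = -(1 / 2) := by
    field_simp
    ring
  have hb1 : kernFT_w1 H L (L + 3 / (2 * (H : ℝ))) = 0 := by
    unfold kernFT_w1
    rw [hb]
    norm_num
  have ha1 : kernFT_w1 H L (L - 1 / (2 * (H : ℝ))) = 0 := by
    unfold kernFT_w1
    rw [ha]
    norm_num
  have hb0 : bw (3 / 2) = 0 := by
    unfold bw
    norm_num
  have ha0 : bw (-(1 / 2)) = 0 := by
    unfold bw
    norm_num
  rw [hb, ha, hb1, ha1, hb0, ha0] at hint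
  simp only [Complex.ofReal_zero, zero_mul, zero_div, sub_zero] at hint
  exact sub_eq_zero.1 hint

/-- The range of the rescaled variable. -/
private theorem kernFT_range (H : ℕ) (L y : ℝ) (hH : 1 ≤ H)
    (hy : y ∈ Set.uIoc (L - 1 / (2 * (H : ℝ))) (L + 3 / (2 * (H : ℝ)))) :
    -(1 / 2) ≤ (H : ℝ) * (y - L) ∧ (H : ℝ) * (y - L) ≤ 3 / 2 := by
  have hH1 : (1 : ℝ) ≤ H := by exact_mod_cast hH
  have hH0 : (0 : ℝ) < H := by linarith
  have hle : L - 1 / (2 * (H : ℝ)) ≤ L + 3 / (2 * (H : ℝ)) := by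
    have h1 : 0 < 1 / (2 * (H : ℝ)) := by positivity
    have h2 : 0 < 3 / (2 * (H : ℝ)) := by positivity
    linarith
  rw [Set.uIoc_of_le hle] at hy
  obtain ⟨h1, h2⟩ := hy
  have e1 : (H : ℝ) * (1 / (2 * (H : ℝ))) = 1 / 2 := by field_simp
  have e2 : (H : ℝ) * (3 / (2 * (H : ℝ))) = 3 / 2 := by field_simp
  constructor
  · have := mul_le_mul_of_nonneg_left (show -(1 / (2 * (H : ℝ))) ≤ y - L by linarith) hH0.le
    rw [mul_neg, e1] at this
    exact this
  · have := mul_le_mul_of_nonneg_left (show y - L ≤ 3 / (2 * (H : ℝ)) by linarith) hH0.le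
    rw [e2] at this
    exact this

private theorem kernFT_len (H : ℕ) (L : ℝ) (hH : 1 ≤ H) :
    |L + 3 / (2 * (H : ℝ)) - (L - 1 / (2 * (H : ℝ)))| = 2 / H := by
  have hH1 : (1 : ℝ) ≤ H := by exact_mod_cast hH
  have hH0 : (0 : ℝ) < H := by linarith
  have e : L + 3 / (2 * (H : ℝ)) - (L - 1 / (2 * (H : ℝ))) = 2 / H := by
    field_simp
    ring
  rw [e, abs_of_pos (by positivity)]

theorem kft_le (H : ℕ) (N τ : ℝ) (hH : 1 ≤ H) : ‖kft H N τ‖ ≤ 4 / H := by
  have hH1 : (1 : ℝ) ≤ H := by exact_mod_cast hH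
  have hH0 : (0 : ℝ) < H := by linarith
  have h := intervalIntegral.norm_integral_le_of_norm_le_const (C := 16 / 9)
    (a := Real.log N - 1 / (2 * (H : ℝ))) (b := Real.log N + 3 / (2 * (H : ℝ)))
    (f := fun y => ((bw (H * (y - Real.log N)) : ℝ) : ℂ) * kernFT_E τ y) (fun y hy => by
      obtain ⟨h1, h2⟩ := kernFT_range H _ y hH hy
      rw [norm_mul, kernFT_norm, mul_one, Complex.norm_real, Real.norm_eq_abs,
        abs_of_nonneg (bw_nonneg _)]
      exact bw_le h1 h2)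
  rw [kernFT_len H _ hH] at h
  refine le_trans h ?_
  rw [← mul_div_assoc]
  gcongr
  norm_num

theorem kft_le_sq (H : ℕ) (N τ : ℝ) (hH : 1 ≤ H) (hτ : τ ≠ 0) :
    ‖kft H N τ‖ ≤ 32 * H / τ ^ 2 := by
  have hH1 : (1 : ℝ) ≤ H := by exact_mod_cast hH
  have hH0 : (0 : ℝ) < H := by linarith
  have h := intervalIntegral.norm_integral_le_of_norm_le_const (C := 128 / 9 * (H : ℝ) ^ 2)
    (a := Real.log N - 1 / (2 * (H : ℝ))) (b := Real.log N + 3 / (2 * (H : ℝ)))
    (f := fun y => ((kernFT_w2 H (Real.log N) y : ℝ) : ℂ) * kernFT_E τ y) (fun y hy => by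
      obtain ⟨h1, h2⟩ := kernFT_range H _ y hH hy
      rw [norm_mul, kernFT_norm, mul_one, Complex.norm_real, Real.norm_eq_abs]
      unfold kernFT_w2
      set x : ℝ := (H : ℝ) * (y - Real.log N) - 1 / 2 with hx
      have hx2 : x ^ 2 ≤ 1 := by nlinarith
      have hx0 : 0 ≤ x ^ 2 := sq_nonneg _
      have h3 : |3 * x ^ 2 - 1| ≤ 2 := abs_le.2 ⟨by linarith, by linarith⟩
      rw [abs_mul, abs_of_nonneg (by positivity : (0 : ℝ) ≤ 64 / 9 * (H : ℝ) ^ 2)]
      calc 64 / 9 * (H : ℝ) ^ 2 * |3 * x ^ 2 - 1| ≤ 64 / 9 * (H : ℝ) ^ 2 * 2 := by gcongr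
        _ = 128 / 9 * (H : ℝ) ^ 2 := by ring)
  rw [kernFT_len H _ hH] at h
  have e : kft H N τ = (∫ y in (Real.log N - 1 / (2 * (H : ℝ)))..(Real.log N + 3 / (2 * (H : ℝ))),
      ((kernFT_w2 H (Real.log N) y : ℝ) : ℂ) * kernFT_E τ y) /
      (((-τ : ℝ) : ℂ) * Complex.I) ^ 2 := kernFT_parts H (Real.log N) τ hH hτ
  have hn : ‖(((-τ : ℝ) : ℂ) * Complex.I) ^ 2‖ = τ ^ 2 := by
    rw [norm_pow, norm_mul, Complex.norm_I, mul_one, Complex.norm_real, Real.norm_eq_abs,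
      abs_neg, sq_abs]
  rw [e, norm_div, hn]
  refine div_le_div_of_nonneg_right (le_trans h ?_) (sq_nonneg τ)
  have e2 : 128 / 9 * (H : ℝ) ^ 2 * (2 / H) = 256 / 9 * H := by
    field_simp
    ring
  rw [e2]
  nlinarith

end Pool.Agent.MOM
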