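import Pool.Agent.MOM.Defs

/-!
MOM (MP_2b7f8f_an), tools for N6, N7: sums over spaced sets.

PROOF. Split `T.erase t` into the `t' > t` and the `t' < t`; both sums are `≤ 2/H²`. For `t' > t`
put
`j(t') = ⌊(t' - t)/H⌋₊ ≥ 1`; `j` is injective (equal floors give `|t' - t''| < H`), and
`1/(t - t')² ≤ 1/(H² j²)`, so the sum is `≤ (1/H²) ∑_{j ∈ image} 1/j² ≤ (1/H²) ∑_{j=1}^n 1/j² ≤
2/H²`
(`∑_{j=1}^n 1/j² ≤ 2 - 1/n` by induction; `n` = maximum of the image). The same for `t' < t`.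
-/

set_option autoImplicit false

namespace Pool.Agent.MOM

open Finset

private theorem spacing_sq (n : ℕ) : ∑ j ∈ Finset.range n, 1 / ((j : ℝ) + 1) ^ 2 ≤ 2 := by
  have h : ∀ m : ℕ, ∑ j ∈ Finset.range (m + 1), 1 / ((j : ℝ) + 1) ^ 2 ≤
      2 - 1 / ((m : ℝ) + 1) := by
    intro m
    induction m with
    | zero => norm_num
    | succ m ih =>
      rw [Finset.sum_range_succ]
      push_cast
      have h1 : (0 : ℝ) ≤ m := Nat.cast_nonneg m
      have h2 : 1 / ((m : ℝ) + 1 + 1) ^ 2 ≤ 1 / ((m : ℝ) + 1) - 1 / ((m : ℝ) + 1 + 1) := by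
        have e : 1 / ((m : ℝ) + 1) - 1 / ((m : ℝ) + 1 + 1) =
            1 / (((m : ℝ) + 1) * ((m : ℝ) + 1 + 1)) := by
          field_simp
          ring
        rw [e]
        apply one_div_le_one_div_of_le
        · positivity
        · nlinarith
      linarith
  rcases n with _ | m
  · norm_num
  · refine (h m).trans ?_
    have : (0 : ℝ) ≤ 1 / ((m : ℝ) + 1) := by positivity
    linarith

private theorem spacing_aux (S : Finset ℝ) (d : ℝ → ℝ) (H : ℝ) (hH : 0 < H)
    (h1 : ∀ s ∈ S, H ≤ d s) (h2 : ∀ s ∈ S, ∀ s' ∈ S, s ≠ s' → H ≤ |d s - d s'|) :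
    ∑ s ∈ S, 1 / (d s) ^ 2 ≤ 2 / H ^ 2 := by
  classical
  set j : ℝ → ℕ := fun s => ⌊d s / H⌋₊ - 1 with hj
  have hj1 : ∀ s ∈ S, ((j s : ℕ) : ℝ) + 1 ≤ d s / H ∧ d s / H < (j s : ℝ) + 2 := by
    intro s hs
    have h3 : 1 ≤ d s / H := by
      rw [le_div_iff₀ hH]
      linarith [h1 s hs]
    have h4 : 1 ≤ ⌊d s / H⌋₊ := by
      rw [Nat.one_le_floor_iff]
      exact h3
    have h5 : ((j s : ℕ) : ℝ) = (⌊d s / H⌋₊ : ℝ) - 1 := by
      simp only [hj]
      rw [Nat.cast_sub h4]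
      norm_num
    have h6 := Nat.floor_le (show 0 ≤ d s / H by linarith)
    have h7 := Nat.lt_floor_add_one (d s / H)
    constructor <;> linarith
  have hinj : Set.InjOn j S := by
    intro s hs s' hs' hss
    by_contra hne
    have h3 := h2 s hs s' hs' hne
    have h4 := hj1 s hs
    have h5 := hj1 s' hs'
    rw [← hss] at h5
    have h6 : |d s / H - d s' / H| < 1 := by
      rw [abs_lt]
      constructor <;> linarith [h4.1, h4.2, h5.1, h5.2]
    have h7 : |d s - d s'| < H := by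
      have e : d s / H - d s' / H = (d s - d s') / H := by ring
      rw [e, abs_div, abs_of_pos hH, div_lt_one hH] at h6
      exact h6
    linarith
  calc ∑ s ∈ S, 1 / (d s) ^ 2 ≤ ∑ s ∈ S, 1 / H ^ 2 * (1 / ((j s : ℝ) + 1) ^ 2) := by
        refine Finset.sum_le_sum fun s hs => ?_
        have h3 := (hj1 s hs).1
        rw [le_div_iff₀ hH] at h3
        have e : 1 / H ^ 2 * (1 / ((j s : ℝ) + 1) ^ 2) = 1 / (((j s : ℝ) + 1) * H) ^ 2 := by
          rw [mul_pow]
          field_simp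
        rw [e]
        apply one_div_le_one_div_of_le
        · positivity
        · exact pow_le_pow_left₀ (by positivity) h3 2
    _ = 1 / H ^ 2 * ∑ i ∈ S.image j, 1 / ((i : ℝ) + 1) ^ 2 := by
        rw [← Finset.mul_sum, Finset.sum_image hinj]
    _ ≤ 1 / H ^ 2 * ∑ i ∈ Finset.range ((S.image j).sup id + 1), 1 / ((i : ℝ) + 1) ^ 2 := by
        refine mul_le_mul_of_nonneg_left ?_ (by positivity)
        refine Finset.sum_le_sum_of_subset_of_nonneg ?_ fun i _ _ => by positivity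
        intro i hi
        rw [Finset.mem_range]
        exact Nat.lt_succ_of_le (Finset.le_sup (f := id) hi)
    _ ≤ 1 / H ^ 2 * 2 := mul_le_mul_of_nonneg_left (spacing_sq _) (by positivity)
    _ = 2 / H ^ 2 := by ring

theorem spacing (T : Finset ℝ) (H : ℝ) (hH : 0 < H)
    (hT : ∀ t ∈ T, ∀ t' ∈ T, t ≠ t' → H ≤ |t - t'|) (t : ℝ) (ht : t ∈ T) :
    ∑ t' ∈ T.erase t, 1 / (t - t') ^ 2 ≤ 4 / H ^ 2 := by
  classical
  have hsplit : T.erase t = (T.filter (fun s => t < s)) ∪ (T.filter (fun s => s < t)) := by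
    ext s
    simp only [Finset.mem_erase, Finset.mem_union, Finset.mem_filter]
    constructor
    · rintro ⟨h1, h2⟩
      rcases lt_or_gt_of_ne h1 with h | h
      · exact Or.inr ⟨h2, h⟩
      · exact Or.inl ⟨h2, h⟩
    · rintro (⟨h1, h2⟩ | ⟨h1, h2⟩)
      · exact ⟨h2.ne', h1⟩
      · exact ⟨h2.ne, h1⟩
  have hdisj : Disjoint (T.filter (fun s => t < s)) (T.filter (fun s => s < t)) := by
    rw [Finset.disjoint_filter]
    intro s _ h1 h2
    exact lt_asymm h1 h2
  rw [hsplit, Finset.sum_union hdisj]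
  have hA : ∑ s ∈ T.filter (fun s => t < s), 1 / (t - s) ^ 2 ≤ 2 / H ^ 2 := by
    have h := spacing_aux (T.filter (fun s => t < s)) (fun s => s - t) H hH ?_ ?_
    · refine le_trans (le_of_eq ?_) h
      refine Finset.sum_congr rfl fun s _ => ?_
      have e : (t - s) ^ 2 = (s - t) ^ 2 := by ring
      rw [e]
    · intro s hs
      rw [Finset.mem_filter] at hs
      have h1 := hT s hs.1 t ht hs.2.ne'
      rwa [abs_of_pos (sub_pos.2 hs.2)] at h1
    · intro s hs s' hs' hne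
      rw [Finset.mem_filter] at hs hs'
      have h1 := hT s hs.1 s' hs'.1 hne
      have e : s - t - (s' - t) = s - s' := by ring
      rwa [e]
  have hB : ∑ s ∈ T.filter (fun s => s < t), 1 / (t - s) ^ 2 ≤ 2 / H ^ 2 := by
    refine spacing_aux (T.filter (fun s => s < t)) (fun s => t - s) H hH ?_ ?_
    · intro s hs
      rw [Finset.mem_filter] at hs
      have h1 := hT t ht s hs.1 hs.2.ne'
      rwa [abs_of_pos (sub_pos.2 hs.2)] at h1
    · intro s hs s' hs' hne
      rw [Finset.mem_filter] at hs hs'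
      have h1 := hT s' hs'.1 s hs.1 hne.symm
      have e : t - s - (t - s') = s' - s := by ring
      rwa [e]
  have e : (4 : ℝ) / H ^ 2 = 2 / H ^ 2 + 2 / H ^ 2 := by ring
  rw [e]
  exact add_le_add hA hB

end Pool.Agent.MOM
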