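import Pool.Agent.MOM.NT.Kern
import Pool.Agent.MOM.NT.KernFT
import Pool.Agent.MOM.NT.KernWeyl
import Pool.Agent.MOM.NT.Dual
import Pool.Agent.MOM.NT.Spacing

/-!
MOM (MP_2b7f8f_an), N7 of /team-store/MOMO.md: Halász-Montgomery.

PROOF. Use `duality` with `P = win M (lam*M)`, `S = kwin 1 M`, `W n = kw 1 M n / n`, `a = b`. For
`n ∈ P`: `M < n ≤ 2M`, so `v = log n - log M ∈ [0, log 2] ⊆ [0,1]`, `kw ≥ 1` (`one_le_bw`), and
`P ⊆ S` (`mem_win`, `e^{-1/2} < 1`, `2 ≤ e^{3/2}`); `∑_{n ∈ P} 1/n ≤ #P/M ≤ 2`. The kernel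
`∑ n ∈ S, W n ph τ n` is `kern 1 M 1 τ` (`(1 ∣ ·)` is always true). With `c1, C1` from
`kern_weyl 4`, `c = min c1 (1/2)`, `M` large:
`τ = 0`: `≤ 4 + 20/M ≤ 24` (`kern_int`, `kft_le`). `1 ≤ |τ| ≤ M^{1/2}`: `kern_int`, `kft_le_sq`:
`≤ 32/τ² + 20(1 + |τ|)/M ≤ 32/τ² + 40 M^{-1/2}`. `M^{1/2} < |τ| ≤ M³ ≤ (M/2)^4`: `≤ C1 M^{-c1}`.
So for `t ∈ T`, with `spacing` (`H = 1`):
`∑_{t' ∈ T} ‖K(t-t')‖ ≤ 24 + 32·4 + #T (40 M^{-1/2} + C1 M^{-c1}) ≤ 152 + 40 + C1 =: B` because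
`#T ≤ M^c`. The claim holds with `C = 2B`.
-/

set_option autoImplicit false

namespace Pool.Agent.MOM

open Finset

private theorem hm_sub {lam M : ℝ} (hl : lam ≤ 2) (hM : 1 ≤ M) :
    win M (lam * M) ⊆ kwin 1 M := by
  intro n hn
  have hM0 : (0 : ℝ) ≤ M := by linarith
  rw [mem_win hM0] at hn
  unfold kwin
  rw [mem_win (mul_nonneg hM0 (Real.exp_pos _).le)]
  constructor
  · have h1 : Real.exp (-(1 / (2 * ((1 : ℕ) : ℝ)))) ≤ 1 := by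
      rw [Real.exp_le_one_iff]
      norm_num
    nlinarith [hn.1]
  · have h1 : (2 : ℝ) ≤ Real.exp (3 / (2 * ((1 : ℕ) : ℝ))) := by
      have h2 := Real.add_one_le_exp (3 / (2 * ((1 : ℕ) : ℝ)))
      norm_num at h2 ⊢
      linarith
    nlinarith [hn.2]

private theorem hm_weight {lam M : ℝ} (hl : lam ≤ 2) (hM : 1 ≤ M) {n : ℕ}
    (hn : n ∈ win M (lam * M)) : 1 / (n : ℝ) ≤ kw 1 M n / n := by
  have hM0 : (0 : ℝ) < M := by linarith
  rw [mem_win hM0.le] at hn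
  have hn0 : (0 : ℝ) < n := lt_trans hM0 hn.1
  refine div_le_div_of_nonneg_right ?_ hn0.le
  unfold kw
  have h1 : Real.log M ≤ Real.log n := Real.log_le_log hM0 hn.1.le
  have h2 : Real.log n ≤ Real.log 2 + Real.log M := by
    rw [← Real.log_mul (by norm_num) hM0.ne']
    refine Real.log_le_log hn0 ?_
    nlinarith [hn.2]
  have h3 : Real.log 2 ≤ 1 := by
    have := Real.log_two_lt_d9
    linarith
  refine one_le_bw ?_ ?_
  · push_cast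
    linarith
  · push_cast
    linarith

private theorem hm_recip {lam M : ℝ} (hl : lam ≤ 2) (hM : 1 ≤ M) :
    ∑ n ∈ win M (lam * M), 1 / (n : ℝ) ≤ 2 := by
  have hM0 : (0 : ℝ) < M := by linarith
  have h1 : ∀ n ∈ win M (lam * M), 1 / (n : ℝ) ≤ 1 / M := by
    intro n hn
    rw [mem_win hM0.le] at hn
    exact one_div_le_one_div_of_le hM0 hn.1.le
  have h2 := Finset.sum_le_card_nsmul _ _ _ h1
  have h3 : ((win M (lam * M)).card : ℝ) ≤ 2 * M := by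
    unfold win
    rw [Nat.card_Ioc]
    rcases le_or_gt 0 (lam * M) with h | h
    · have h4 := Nat.floor_le h
      have h5 : ((⌊lam * M⌋₊ - ⌊M⌋₊ : ℕ) : ℝ) ≤ (⌊lam * M⌋₊ : ℝ) := by
        exact_mod_cast Nat.sub_le _ _
      nlinarith
    · have h4 : ⌊lam * M⌋₊ = 0 := Nat.floor_of_nonpos h.le
      rw [h4, Nat.zero_sub]
      push_cast
      linarith
  rw [nsmul_eq_mul] at h2
  have h4 : ((win M (lam * M)).card : ℝ) * (1 / M) ≤ 2 * M * (1 / M) :=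
    mul_le_mul_of_nonneg_right h3 (by positivity)
  have h5 : 2 * M * (1 / M) = 2 := by field_simp
  linarith

private theorem hm_kern (M τ : ℝ) :
    ∑ n ∈ kwin 1 M, ((kw 1 M n / n : ℝ) : ℂ) * ph τ n = kern 1 M 1 τ := by
  unfold kern
  rw [Finset.filter_true_of_mem (fun n _ => one_dvd n)]

private theorem hm_zero {M : ℝ} (hM : 1 ≤ M) : ‖kern 1 M 1 0‖ ≤ 24 := by
  have hM0 : (0 : ℝ) < M := by linarith
  have h1 := kern_int 1 1 M 0 le_rfl le_rfl hM0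
  have h2 := kft_le 1 M 0 le_rfl
  have h3 : ‖kern 1 M 1 0‖ ≤ ‖kern 1 M 1 0 - kft 1 M 0 / ((1 : ℕ) : ℂ)‖ +
      ‖kft 1 M 0 / ((1 : ℕ) : ℂ)‖ := by
    have h4 := norm_add_le (kern 1 M 1 0 - kft 1 M 0 / ((1 : ℕ) : ℂ))
      (kft 1 M 0 / ((1 : ℕ) : ℂ))
    rwa [sub_add_cancel] at h4
  have h4 : ‖kft 1 M 0 / ((1 : ℕ) : ℂ)‖ = ‖kft 1 M 0‖ := by
    rw [Nat.cast_one, div_one]
  have h5 : 20 * (((1 : ℕ) : ℝ) + |(0 : ℝ)|) / M ≤ 20 := by
    rw [div_le_iff₀ hM0, abs_zero, Nat.cast_one]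
    linarith
  have h6 : (4 : ℝ) / ((1 : ℕ) : ℝ) = 4 := by norm_num
  linarith

private theorem hm_small {M τ : ℝ} (hM : 1 ≤ M) (h1 : 1 ≤ |τ|) (h2 : |τ| ≤ M ^ (1 / 2 : ℝ)) :
    ‖kern 1 M 1 τ‖ ≤ 32 * (1 / τ ^ 2) + 40 * M ^ (-(1 / 2) : ℝ) := by
  have hM0 : (0 : ℝ) < M := by linarith
  have hτ : τ ≠ 0 := by
    intro h
    rw [h, abs_zero] at h1
    linarith
  have k1 := kern_int 1 1 M τ le_rfl le_rfl hM0
  have k2 := kft_le_sq 1 M τ le_rfl hτ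
  have h3 : ‖kern 1 M 1 τ‖ ≤ ‖kern 1 M 1 τ - kft 1 M τ / ((1 : ℕ) : ℂ)‖ +
      ‖kft 1 M τ / ((1 : ℕ) : ℂ)‖ := by
    have h4 := norm_add_le (kern 1 M 1 τ - kft 1 M τ / ((1 : ℕ) : ℂ))
      (kft 1 M τ / ((1 : ℕ) : ℂ))
    rwa [sub_add_cancel] at h4
  have h4 : ‖kft 1 M τ / ((1 : ℕ) : ℂ)‖ = ‖kft 1 M τ‖ := by
    rw [Nat.cast_one, div_one]
  have h5 : M ^ (1 / 2 : ℝ) = M * M ^ (-(1 / 2) : ℝ) := by
    have h6 := Real.rpow_add hM0 1 (-(1 / 2))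
    rw [Real.rpow_one] at h6
    rw [← h6]
    norm_num
  have h6 : 20 * (((1 : ℕ) : ℝ) + |τ|) / M ≤ 40 * M ^ (-(1 / 2) : ℝ) := by
    rw [div_le_iff₀ hM0, Nat.cast_one]
    have h7 : 40 * M ^ (-(1 / 2) : ℝ) * M = 40 * M ^ (1 / 2 : ℝ) := by
      rw [h5]
      ring
    rw [h7]
    linarith
  have h7 : 32 * ((1 : ℕ) : ℝ) / τ ^ 2 = 32 * (1 / τ ^ 2) := by
    rw [Nat.cast_one]
    ring
  linarith

theorem halasz_montgomery : ∃ c : ℝ, 0 < c ∧ c ≤ 1 ∧ ∃ C M0 : ℝ, 0 < C ∧ ∀ lam : ℝ, 1 < lam →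
    lam ≤ 2 → ∀ M : ℝ, M0 ≤ M → ∀ T : Finset ℝ, (T.card : ℝ) ≤ M ^ c →
      (∀ t ∈ T, ∀ t' ∈ T, t ≠ t' → 1 ≤ |t - t'| ∧ |t - t'| ≤ M ^ (3 : ℕ)) →
        ∀ b : ℕ → ℂ, (∀ n, ‖b n‖ ≤ 1) →
          ∑ t ∈ T, ‖dp (win M (lam * M)) b t‖ ^ 2 ≤ C := by
  obtain ⟨c1, hc1, hc1', C1, hC1, hw⟩ := kern_weyl 4 (by norm_num)
  refine ⟨min c1 (1 / 2), lt_min hc1 (by norm_num), (min_le_left _ _).trans hc1',
    2 * (192 + C1), 16, by positivity, ?_⟩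
  intro lam hl1 hl2 M hM T hT hsp b hb
  have hM1 : (1 : ℝ) ≤ M := by linarith
  have hM0 : (0 : ℝ) < M := by linarith
  set c : ℝ := min c1 (1 / 2) with hc
  have hcc1 : M ^ (-c1) ≤ M ^ (-c) :=
    Real.rpow_le_rpow_of_exponent_le hM1 (neg_le_neg (min_le_left _ _))
  have hcc2 : M ^ (-(1 / 2) : ℝ) ≤ M ^ (-c) :=
    Real.rpow_le_rpow_of_exponent_le hM1 (neg_le_neg (min_le_right _ _))
  have hMc : 0 < M ^ (-c) := Real.rpow_pos_of_pos hM0 _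
  have hprod : M ^ c * M ^ (-c) = 1 := by
    rw [← Real.rpow_add hM0, add_neg_cancel, Real.rpow_zero]
  -- the kernel for different points
  have hker : ∀ t ∈ T, ∀ t' ∈ T.erase t, ‖kern 1 M 1 (t - t')‖ ≤
      32 * (1 / (t - t') ^ 2) + (40 + C1) * M ^ (-c) := by
    intro t ht t' ht'
    rw [Finset.mem_erase] at ht'
    obtain ⟨h1, h2⟩ := hsp t ht t' ht'.2 (fun h => ht'.1 h.symm)
    have hnn : 0 ≤ 32 * (1 / (t - t') ^ 2) := by positivity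
    rcases le_or_gt |t - t'| (M ^ (1 / 2 : ℝ)) with h3 | h3
    · have h4 := hm_small hM1 h1 h3
      have h5 : 0 ≤ C1 * M ^ (-c) := by positivity
      nlinarith
    · have h4 : |t - t'| ≤ (M / (2 * ((1 : ℕ) : ℝ))) ^ (4 : ℝ) := by
        refine h2.trans ?_
        have h5 : (M / (2 * ((1 : ℕ) : ℝ))) ^ (4 : ℝ) = (M / 2) ^ (4 : ℕ) := by
          rw [Nat.cast_one, mul_one]
          exact_mod_cast Real.rpow_natCast (M / 2) 4
        rw [h5]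
        have h6 : (M / 2) ^ (4 : ℕ) = M ^ 3 * (M / 16) := by ring
        rw [h6]
        have h7 : (1 : ℝ) ≤ M / 16 := by linarith
        have h8 : (0 : ℝ) ≤ M ^ 3 := by positivity
        nlinarith
      have h5 := hw 1 1 M (t - t') le_rfl le_rfl (by push_cast; linarith) h3.le h4
      rw [Nat.cast_one, mul_one, div_one] at h5
      have h6 : C1 * M ^ (-c1) ≤ C1 * M ^ (-c) := mul_le_mul_of_nonneg_left hcc1 hC1.le
      nlinarith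
  have hB : ∀ t ∈ T, ∑ t' ∈ T, ‖∑ n ∈ kwin 1 M, ((kw 1 M n / n : ℝ) : ℂ) * ph (t - t') n‖ ≤
      192 + C1 := by
    intro t ht
    have e1 : ∀ t' ∈ T, ‖∑ n ∈ kwin 1 M, ((kw 1 M n / n : ℝ) : ℂ) * ph (t - t') n‖ =
        ‖kern 1 M 1 (t - t')‖ := fun t' _ => by rw [hm_kern]
    rw [Finset.sum_congr rfl e1, ← Finset.add_sum_erase T _ ht, sub_self]
    have h1 := hm_zero hM1
    have h2 := Finset.sum_le_sum (hker t ht)
    rw [Finset.sum_add_distrib, Finset.sum_const, ← Finset.mul_sum, nsmul_eq_mul] at h2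
    have h3 := spacing T 1 one_pos (fun t ht t' ht' h => (hsp t ht t' ht' h).1) t ht
    have h4 : ((T.erase t).card : ℝ) ≤ M ^ c := by
      refine le_trans ?_ hT
      exact_mod_cast Finset.card_le_card (Finset.erase_subset t T)
    have h5 : ((T.erase t).card : ℝ) * ((40 + C1) * M ^ (-c)) ≤ 40 + C1 := by
      calc ((T.erase t).card : ℝ) * ((40 + C1) * M ^ (-c))
          ≤ M ^ c * ((40 + C1) * M ^ (-c)) :=
            mul_le_mul_of_nonneg_right h4 (by positivity)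
        _ = (40 + C1) * (M ^ c * M ^ (-c)) := by ring
        _ = 40 + C1 := by rw [hprod, mul_one]
    linarith
  have hd := duality (win M (lam * M)) (kwin 1 M) b (fun n => kw 1 M n / n) T (192 + C1)
    (by positivity)
    (fun n hn => by
      rw [mem_win hM0.le] at hn
      have h1 : (0 : ℝ) < n := lt_trans hM0 hn.1
      exact_mod_cast h1)
    (fun n _ => hb n) (hm_sub hl2 hM1)
    (fun n _ => div_nonneg (kw_nonneg 1 M n) (Nat.cast_nonneg n))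
    (fun n hn => hm_weight hl2 hM1 hn) hB
  refine hd.trans ?_
  exact mul_le_mul_of_nonneg_right (hm_recip hl2 hM1) (by positivity)

end Pool.Agent.MOM
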