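import Pool.Agent.MOM.Defs
import Pool.Agent.ExpSum.Weyl
import Pool.Agent.MargE.KL

/-!
MOM (MP_2b7f8f_an), tool N5, part 1: the Kusmin-Landau inequality.
`e t = exp(2πit)` is `Pool.Agent.ExpSum.e`.

PROOF. The library has `MargE.kusmin_landau` (file Pool/Agent/MargE/KL.lean) for `MargE.ee`
(`ee x = exp(2πix)`, the same function as `e`) and INCREASING differences `dd x i = x (i+1) - x i`
with values in `[m + θ, m + 1 - θ]`, `m` an integer, bound `2/θ`. In our case `δ ≤ 1/2` unless the
range has no `n` with `a ≤ n < b` (then the sum is zero).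
`kusmin_landau`, increasing differences (second alternative of `hm`): `x i = f (a + i)`,
`L = b - a`, `m = 0`, `θ = δ` (`1/2 ≤ 1 - δ`). Decreasing differences: use
`x i = -f (a + i)`, `m = -1`: its differences are increasing with values in `[-1/2, -δ]`,
`-1 + δ ≤ -1/2`, `-δ ≤ -1 + 1 - δ`; and `ee (-x)` is the complex conjugate of `ee x`
(`MargE.ee_neg`),
so the norms of the sums agree. (Note `h1` of `MargE.kusmin_landau` only asks for `i + 1 < L`.)
`kusmin_landau_neg`: apply `kusmin_landau` to `-f` and take complex conjugates (`e_neg`).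
-/

set_option autoImplicit false

namespace Pool.Agent.MOM

open Finset Pool.Agent.ExpSum

private theorem e_eq_ee (t : ℝ) : e t = MargE.ee t := by
  rw [e, MargE.ee, mul_comm]

private theorem sum_shift (f : ℕ → ℝ) (a b : ℕ) :
    ∑ n ∈ Ico a b, e (f n) = ∑ i ∈ range (b - a), MargE.ee (f (a + i)) := by
  rw [Finset.sum_Ico_eq_sum_range]
  exact Finset.sum_congr rfl fun i _ => e_eq_ee _

theorem kusmin_landau (f : ℕ → ℝ) (a b : ℕ) {δ : ℝ} (hδ : 0 < δ)
    (hg : ∀ n, a ≤ n → n < b → δ ≤ f (n + 1) - f n ∧ f (n + 1) - f n ≤ 1 / 2)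
    (hm : (∀ n, a ≤ n → n + 1 < b → f (n + 2) - f (n + 1) ≤ f (n + 1) - f n) ∨
      (∀ n, a ≤ n → n + 1 < b → f (n + 1) - f n ≤ f (n + 2) - f (n + 1))) :
    ‖∑ n ∈ Ico a b, e (f n)‖ ≤ 2 / δ := by
  rcases Nat.lt_or_ge a b with hab | hab
  swap
  · rw [Finset.Ico_eq_empty_of_le hab, Finset.sum_empty, norm_zero]
    positivity
  have h0 := hg a le_rfl hab
  have hδ1 : δ ≤ 1 / 2 := h0.1.trans h0.2
  rw [sum_shift]
  rcases hm with hm | hm
  · rw [← MargE.norm_sum_ee_neg (range (b - a)) (fun i => f (a + i))]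
    refine MargE.kusmin_landau (x := fun i => -f (a + i)) (-1) hδ (by linarith) ?_ ?_
    · intro i hi
      have h1 := hg (a + i) (by omega) (by omega)
      simp only [MargE.dd]
      rw [← Nat.add_assoc]
      push_cast
      constructor
      · linarith [h1.1, h1.2]
      · linarith [h1.1, h1.2]
    · intro i hi
      have h1 := hm (a + i) (by omega) (by omega)
      simp only [MargE.dd]
      rw [show a + (i + 1 + 1) = a + i + 2 by ring, show a + (i + 1) = a + i + 1 by ring]
      linarith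
  · refine MargE.kusmin_landau (x := fun i => f (a + i)) 0 hδ (by linarith) ?_ ?_
    · intro i hi
      have h1 := hg (a + i) (by omega) (by omega)
      simp only [MargE.dd]
      rw [← Nat.add_assoc]
      push_cast
      constructor
      · linarith [h1.1, h1.2]
      · linarith [h1.1, h1.2]
    · intro i hi
      have h1 := hm (a + i) (by omega) (by omega)
      simp only [MargE.dd]
      rw [show a + (i + 1 + 1) = a + i + 2 by ring, show a + (i + 1) = a + i + 1 by ring]
      linarith

theorem kusmin_landau_neg (f : ℕ → ℝ) (a b : ℕ) {δ : ℝ} (hδ : 0 < δ)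
    (hg : ∀ n, a ≤ n → n < b → δ ≤ f n - f (n + 1) ∧ f n - f (n + 1) ≤ 1 / 2)
    (hm : (∀ n, a ≤ n → n + 1 < b → f (n + 2) - f (n + 1) ≤ f (n + 1) - f n) ∨
      (∀ n, a ≤ n → n + 1 < b → f (n + 1) - f n ≤ f (n + 2) - f (n + 1))) :
    ‖∑ n ∈ Ico a b, e (f n)‖ ≤ 2 / δ := by
  have h1 : ‖∑ n ∈ Ico a b, e (f n)‖ = ‖∑ n ∈ Ico a b, e (-f n)‖ := by
    simp_rw [e_neg]
    rw [← map_sum, RCLike.norm_conj]
  rw [h1]
  refine kusmin_landau (fun n => -f n) a b hδ ?_ ?_
  · intro n hn hn'
    have h2 := hg n hn hn'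
    constructor
    · linarith [h2.1]
    · linarith [h2.2]
  · rcases hm with hm | hm
    · right
      intro n hn hn'
      have h2 := hm n hn hn'
      linarith
    · left
      intro n hn hn'
      have h2 := hm n hn hn'
      linarith

end Pool.Agent.MOM
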