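import Pool.Agent.MOM.NT.KernDefs
import Pool.Agent.MOM.NT.SumInt

/-!
MOM (MP_2b7f8f_an), tools for N6, N7: the kernel is close to its integral.

PROOF of `kern_int`. Let `a = N e^{-1/(2H)}/e`, `b = N e^{3/(2H)}/e` and
`f x = bw (H (log (e x) - log N)) (e x)^{-1} exp(-iτ log (e x))`. The substitution `n = e m` gives
`kern H N e τ = ∑_{m ∈ win a b} f m` (`mem_win`; `ph τ (e m)` by its definition). `f` is `C^1` on
`(0,∞)` and vanishes at `a` and `b` (there `v - 1/2 = ∓1`). The substitution `x = exp y/e` gives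
`∫_a^b f = (1/e) kft H N τ` (`log (e x) = y`, `dx = (exp y/e) dy`, `1/(e x) = exp (-y)`; Mathlib
`intervalIntegral.integral_comp_mul_deriv'`). With `v = H (log (e x) - log N) ∈ [-1/2, 3/2]`:
`f'(x) = [H bw'(v) - bw(v)(1 + iτ)] exp(-iτ log(e x))/(e x²)`, `|bw'| ≤ 8`, `|bw| ≤ 2`, so
`‖f'(x)‖ ≤ (8H + 2 + 2|τ|)/(e x²)` and `∫_a^b dx/(e x²) ≤ 1/(e a) = e^{1/(2H)}/N ≤ 2/N`. So
`sum_win_sub_integral` gives the error `≤ 2(8H + 2 + 2|τ|)/N ≤ 20 (H + |τ|)/N`.
-/

set_option autoImplicit false

namespace Pool.Agent.MOM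

open Finset MeasureTheory

private theorem filter_dvd_Ioc' {a b d : ℕ} (hd : 0 < d) :
    (Ioc a b).filter (d ∣ ·) = (Ioc (a / d) (b / d)).image (d * ·) := by
  ext n
  simp only [mem_filter, mem_Ioc, mem_image]
  constructor
  · rintro ⟨⟨h1, h2⟩, k, rfl⟩
    refine ⟨k, ⟨?_, ?_⟩, rfl⟩
    · rwa [Nat.div_lt_iff_lt_mul hd, mul_comm]
    · rwa [Nat.le_div_iff_mul_le hd, mul_comm]
  · rintro ⟨k, ⟨h1, h2⟩, rfl⟩
    refine ⟨⟨?_, ?_⟩, dvd_mul_right d k⟩
    · rwa [Nat.div_lt_iff_lt_mul hd, mul_comm] at h1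
    · rwa [Nat.le_div_iff_mul_le hd, mul_comm] at h2

/-- the derivative of the bump -/
private noncomputable def bw' (v : ℝ) : ℝ := -(64 / 9) * ((v - 1 / 2) * (1 - (v - 1 / 2) ^ 2))

private theorem hasDerivAt_bw (v : ℝ) : HasDerivAt bw (bw' v) v := by
  have h2 : HasDerivAt (fun v : ℝ => v - 1 / 2) 1 v := (hasDerivAt_id v).sub_const _
  have h3 : HasDerivAt (fun v : ℝ => (v - 1 / 2) ^ 2) (2 * (v - 1 / 2)) v :=
    (h2.pow 2).congr_deriv (by norm_num)
  have h4 : HasDerivAt (fun v : ℝ => 1 - (v - 1 / 2) ^ 2) (-(2 * (v - 1 / 2))) v :=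
    h3.const_sub 1
  have h5 : HasDerivAt (fun v : ℝ => (1 - (v - 1 / 2) ^ 2) ^ 2)
      (2 * (1 - (v - 1 / 2) ^ 2) * -(2 * (v - 1 / 2))) v :=
    (h4.pow 2).congr_deriv (by norm_num)
  have h6 : HasDerivAt (fun v : ℝ => 16 / 9 * (1 - (v - 1 / 2) ^ 2) ^ 2)
      (16 / 9 * (2 * (1 - (v - 1 / 2) ^ 2) * -(2 * (v - 1 / 2)))) v := h5.const_mul _
  exact h6.congr_deriv (by unfold bw'; ring)

private theorem bw'_le {v : ℝ} (h0 : -(1 / 2) ≤ v) (h1 : v ≤ 3 / 2) : |bw' v| ≤ 8 := by
  unfold bw'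
  have h2 : |v - 1 / 2| ≤ 1 := abs_le.2 ⟨by linarith, by linarith⟩
  have h3 : (v - 1 / 2) ^ 2 ≤ 1 := by
    rw [← sq_abs]
    exact pow_le_one₀ (abs_nonneg _) h2
  have h4 : |1 - (v - 1 / 2) ^ 2| ≤ 1 := by
    rw [abs_le]
    constructor <;> nlinarith [sq_nonneg (v - 1 / 2)]
  rw [abs_mul, abs_mul, abs_neg, abs_of_pos (by norm_num : (0 : ℝ) < 64 / 9)]
  have h5 : |v - 1 / 2| * |1 - (v - 1 / 2) ^ 2| ≤ 1 * 1 :=
    mul_le_mul h2 h4 (abs_nonneg _) zero_le_one
  nlinarith

private theorem continuous_bw : Continuous bw := by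
  unfold bw
  fun_prop

private theorem continuous_bw' : Continuous bw' := by
  unfold bw'
  fun_prop

theorem kern_int (H e : ℕ) (N τ : ℝ) (hH : 1 ≤ H) (he : 1 ≤ e) (hN : 0 < N) :
    ‖kern H N e τ - kft H N τ / e‖ ≤ 20 * ((H : ℝ) + |τ|) / N := by
  have hHr : (1 : ℝ) ≤ H := by exact_mod_cast hH
  have her : (1 : ℝ) ≤ e := by exact_mod_cast he
  have hH0 : (0 : ℝ) < H := by linarith
  have he0 : (0 : ℝ) < e := by linarith
  set a : ℝ := N * Real.exp (-(1 / (2 * (H : ℝ)))) / e with ha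
  set b : ℝ := N * Real.exp (3 / (2 * (H : ℝ))) / e with hb
  have ha0 : 0 < a := by positivity
  have hab : a ≤ b := by
    rw [ha, hb]
    refine div_le_div_of_nonneg_right (mul_le_mul_of_nonneg_left (Real.exp_le_exp.2 ?_) hN.le)
      he0.le
    have : 0 < 1 / (2 * (H : ℝ)) := by positivity
    have : 0 < 3 / (2 * (H : ℝ)) := by positivity
    linarith
  -- logarithms
  have hloga : Real.log (e * a) = Real.log N - 1 / (2 * (H : ℝ)) := by
    rw [ha, mul_div_cancel₀ _ he0.ne', Real.log_mul hN.ne' (Real.exp_pos _).ne', Real.log_exp]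
    ring
  have hlogb : Real.log (e * b) = Real.log N + 3 / (2 * (H : ℝ)) := by
    rw [hb, mul_div_cancel₀ _ he0.ne', Real.log_mul hN.ne' (Real.exp_pos _).ne', Real.log_exp]
  set v : ℝ → ℝ := fun x => H * (Real.log (e * x) - Real.log N) with hv
  set θ : ℝ → ℂ := fun x => Complex.exp (((-(τ * Real.log (e * x)) : ℝ) : ℂ) * Complex.I) with hθ
  set f : ℝ → ℂ := fun x => ((bw (v x) / (e * x) : ℝ) : ℂ) * θ x with hf
  have hva : v a = -(1 / 2) := by
    simp only [hv, hloga]
    field_simp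
    ring
  have hvb : v b = 3 / 2 := by
    simp only [hv, hlogb]
    field_simp
    ring
  -- step 1
  have h1 : kern H N e τ = ∑ m ∈ win a b, f m := by
    unfold kern kwin win
    have hinj : Set.InjOn (e * ·) (Ioc (⌊N * Real.exp (-(1 / (2 * (H : ℝ))))⌋₊ / e)
        (⌊N * Real.exp (3 / (2 * (H : ℝ)))⌋₊ / e) : Set ℕ) :=
      fun x _ y _ hxy => Nat.eq_of_mul_eq_mul_left he hxy
    rw [filter_dvd_Ioc' he, Finset.sum_image hinj, ← Nat.floor_div_natCast,
      ← Nat.floor_div_natCast]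
    refine Finset.sum_congr rfl fun m _ => ?_
    simp only [hf, hθ, hv, kw, ph]
    push_cast
    rfl
  -- step 2
  have hpos : ∀ x ∈ Set.Icc a b, 0 < x := fun x hx => lt_of_lt_of_le ha0 hx.1
  set f' : ℝ → ℂ := fun x => (((H * bw' (v x) - bw (v x)) / (e * x ^ 2) : ℝ) : ℂ) * θ x +
    ((bw (v x) / (e * x) : ℝ) : ℂ) * (θ x * ((((-(τ / x) : ℝ)) : ℂ) * Complex.I)) with hf'
  have hlogd : ∀ x : ℝ, 0 < x → HasDerivAt (fun x : ℝ => Real.log (e * x)) (1 / x) x := by
    intro x hx
    have h2 : HasDerivAt (fun x : ℝ => (e : ℝ) * x) ((e : ℝ) * 1) x := (hasDerivAt_id x).const_mul _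
    have h3 := h2.log (by positivity)
    convert h3 using 1
    field_simp
  have hvd : ∀ x : ℝ, 0 < x → HasDerivAt v (H * (1 / x)) x := fun x hx =>
    ((hlogd x hx).sub_const _).const_mul _
  have hfd : ∀ x : ℝ, 0 < x → HasDerivAt f (f' x) x := by
    intro x hx
    have h2 : HasDerivAt (fun x => bw (v x)) (bw' (v x) * (H * (1 / x))) x :=
      (hasDerivAt_bw (v x)).comp x (hvd x hx)
    have h3 : HasDerivAt (fun x : ℝ => (e : ℝ) * x) ((e : ℝ) * 1) x := (hasDerivAt_id x).const_mul _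
    have h4 := h2.div h3 (by positivity)
    have h5 : HasDerivAt (fun x => bw (v x) / (e * x)) ((H * bw' (v x) - bw (v x)) / (e * x ^ 2))
        x := by
      refine h4.congr_deriv ?_
      field_simp
    have h6 : HasDerivAt (fun x => -(τ * Real.log (e * x))) (-(τ * (1 / x))) x :=
      ((hlogd x hx).const_mul τ).neg
    have h7 := ((h6.ofReal_comp).mul_const Complex.I).cexp
    have h8 : HasDerivAt θ (θ x * ((((-(τ / x) : ℝ)) : ℂ) * Complex.I)) x := by
      convert h7 using 4
      ring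
    exact h5.ofReal_comp.mul h8
  have hθn : ∀ x, ‖θ x‖ = 1 := fun x => Complex.norm_exp_ofReal_mul_I _
  have hderiv : ∀ x ∈ Set.Icc a b, deriv f x = f' x := fun x hx => (hfd x (hpos x hx)).deriv
  have hlogc : ContinuousOn (fun x : ℝ => Real.log (e * x)) (Set.Icc a b) := fun x hx =>
    (hlogd x (hpos x hx)).continuousAt.continuousWithinAt
  have hvc : ContinuousOn v (Set.Icc a b) := fun x hx =>
    (hvd x (hpos x hx)).continuousAt.continuousWithinAt
  have hθc : ContinuousOn θ (Set.Icc a b) := by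
    simp only [hθ]
    refine Complex.continuous_exp.comp_continuousOn ?_
    refine ContinuousOn.mul ?_ continuousOn_const
    exact Complex.continuous_ofReal.comp_continuousOn ((hlogc.const_mul τ).neg)
  have hf'c : ContinuousOn f' (Set.Icc a b) := by
    have hbwc : ContinuousOn (fun x => bw (v x)) (Set.Icc a b) :=
      continuous_bw.comp_continuousOn hvc
    have hbwc' : ContinuousOn (fun x => bw' (v x)) (Set.Icc a b) :=
      continuous_bw'.comp_continuousOn hvc
    have e1 : ContinuousOn (fun x => (H * bw' (v x) - bw (v x)) / (e * x ^ 2)) (Set.Icc a b) := by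
      refine ContinuousOn.div ((hbwc'.const_mul _).sub hbwc) (by fun_prop) fun x hx => ?_
      have := hpos x hx
      positivity
    have e2 : ContinuousOn (fun x => bw (v x) / (e * x)) (Set.Icc a b) := by
      refine ContinuousOn.div hbwc (by fun_prop) fun x hx => ?_
      have := hpos x hx
      positivity
    have e3 : ContinuousOn (fun x : ℝ => -(τ / x)) (Set.Icc a b) := by
      refine (ContinuousOn.div (by fun_prop) (by fun_prop) fun x hx => ?_).neg
      exact (hpos x hx).ne'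
    exact ((Complex.continuous_ofReal.comp_continuousOn e1).mul hθc).add
      ((Complex.continuous_ofReal.comp_continuousOn e2).mul
        (hθc.mul ((Complex.continuous_ofReal.comp_continuousOn e3).mul continuousOn_const)))
  have hdc : ContinuousOn (deriv f) (Set.Icc a b) := hf'c.congr hderiv
  -- step 3
  have hfa : f a = 0 := by
    simp only [hf, hva, bw]
    norm_num
  have hfb : f b = 0 := by
    simp only [hf, hvb, bw]
    norm_num
  -- step 4
  have h4 : ∫ x in a..b, f x = kft H N τ / e := by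
    have hu : Set.uIcc a b = Set.Icc a b := Set.uIcc_of_le hab
    set G : ℝ → ℂ := fun y => ((bw (H * (y - Real.log N)) : ℝ) : ℂ) *
      Complex.exp (((-(τ * y) : ℝ) : ℂ) * Complex.I) with hG
    have hGc : Continuous G := by
      simp only [hG]
      refine Continuous.mul (Complex.continuous_ofReal.comp
        (continuous_bw.comp (by fun_prop))) (by fun_prop)
    have h5 := intervalIntegral.integral_deriv_smul_comp (a := a) (b := b)
      (f := fun x : ℝ => Real.log (e * x)) (f' := fun x => 1 / x) (g := G)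
      (fun x hx => hlogd x (hpos x (hu ▸ hx)))
      (by
        rw [hu]
        refine ContinuousOn.div (by fun_prop) (by fun_prop) fun x hx => ?_
        exact (hpos x hx).ne') hGc
    have h6 : kft H N τ = ∫ y in (Real.log (e * a))..(Real.log (e * b)), G y := by
      rw [hloga, hlogb]
      rfl
    rw [h6, ← h5, div_eq_mul_inv, mul_comm, ← smul_eq_mul, ← intervalIntegral.integral_smul]
    refine intervalIntegral.integral_congr fun x hx => ?_
    have hx0 : 0 < x := hpos x (hu ▸ hx)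
    simp only [hf, hθ, hG, hv, Function.comp_apply, smul_eq_mul, Complex.real_smul]
    push_cast
    rw [div_eq_mul_inv, mul_inv]
    ring
  -- step 5
  have hvI : ∀ x ∈ Set.Icc a b, -(1 / 2) ≤ v x ∧ v x ≤ 3 / 2 := by
    intro x hx
    have hx0 := hpos x hx
    have e1 : Real.log (e * a) ≤ Real.log (e * x) :=
      Real.log_le_log (by positivity) (mul_le_mul_of_nonneg_left hx.1 he0.le)
    have e2 : Real.log (e * x) ≤ Real.log (e * b) :=
      Real.log_le_log (by positivity) (mul_le_mul_of_nonneg_left hx.2 he0.le)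
    rw [← hva, ← hvb]
    exact ⟨mul_le_mul_of_nonneg_left (by linarith) hH0.le,
      mul_le_mul_of_nonneg_left (by linarith) hH0.le⟩
  set C : ℝ := 8 * H + 2 + 2 * |τ| with hC
  have hC0 : 0 ≤ C := by positivity
  have hbd : ∀ x ∈ Set.Icc a b, ‖deriv f x‖ ≤ C / (e * x ^ 2) := by
    intro x hx
    have hx0 := hpos x hx
    obtain ⟨v1, v2⟩ := hvI x hx
    have e1 := bw_nonneg (v x)
    have e2 := bw_le v1 v2
    have e3 := abs_le.1 (bw'_le v1 v2)
    rw [hderiv x hx]
    refine (norm_add_le _ _).trans ?_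
    rw [norm_mul, norm_mul, norm_mul, norm_mul, hθn, Complex.norm_I, Complex.norm_real,
      Complex.norm_real, Complex.norm_real, Real.norm_eq_abs, Real.norm_eq_abs, Real.norm_eq_abs,
      abs_neg, abs_div, abs_div, abs_div, abs_of_pos (by positivity : 0 < (e : ℝ) * x ^ 2),
      abs_of_pos (by positivity : 0 < (e : ℝ) * x), abs_of_pos hx0, abs_of_nonneg e1]
    have e4 : |H * bw' (v x) - bw (v x)| ≤ 8 * H + 2 := by
      rw [abs_le]
      constructor <;> nlinarith
    have e5 : bw (v x) / (e * x) * (1 * (|τ| / x * 1)) = bw (v x) * |τ| / (e * x ^ 2) := by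
      field_simp
    rw [mul_one, e5, ← add_div]
    refine div_le_div_of_nonneg_right ?_ (by positivity)
    have e6 : bw (v x) * |τ| ≤ 2 * |τ| :=
      mul_le_mul_of_nonneg_right (by linarith) (abs_nonneg τ)
    rw [hC]
    linarith
  have h5 : ∫ x in a..b, ‖deriv f x‖ ≤ 20 * ((H : ℝ) + |τ|) / N := by
    have hu : Set.uIcc a b = Set.Icc a b := Set.uIcc_of_le hab
    have e1 : ContinuousOn (fun x : ℝ => C / (e * x ^ 2)) (Set.Icc a b) := by
      refine ContinuousOn.div (by fun_prop) (by fun_prop) fun x hx => ?_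
      have := hpos x hx
      positivity
    have e2 : ∫ x in a..b, ‖deriv f x‖ ≤ ∫ x in a..b, C / (e * x ^ 2) := by
      refine intervalIntegral.integral_mono_on hab ?_ ?_ hbd
      · exact ContinuousOn.intervalIntegrable (hu.symm ▸ hdc.norm)
      · exact ContinuousOn.intervalIntegrable (hu.symm ▸ e1)
    have e3 : ∫ x in a..b, C / (e * x ^ 2) = -(C / (e * b)) - -(C / (e * a)) := by
      refine intervalIntegral.integral_eq_sub_of_hasDerivAt (f := fun x => -(C / (e * x))) ?_
        (ContinuousOn.intervalIntegrable (hu.symm ▸ e1))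
      intro x hx
      have hx0 := hpos x (hu ▸ hx)
      have h3 : HasDerivAt (fun x : ℝ => (e : ℝ) * x) ((e : ℝ) * 1) x :=
        (hasDerivAt_id x).const_mul _
      have h4 := ((hasDerivAt_const x C).div h3 (by positivity)).neg
      refine h4.congr_deriv ?_
      field_simp
      ring
    have e4 : 0 ≤ C / (e * b) := by
      have : 0 < b := lt_of_lt_of_le ha0 hab
      positivity
    have e5 : C / (e * a) ≤ 2 * C / N := by
      have e6 : (e : ℝ) * a = N * Real.exp (-(1 / (2 * (H : ℝ)))) := by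
        rw [ha, mul_div_cancel₀ _ he0.ne']
      rw [e6, div_le_div_iff₀ (by positivity) hN]
      have e7 : 1 / 2 ≤ Real.exp (-(1 / (2 * (H : ℝ)))) := by
        have e8 := Real.add_one_le_exp (-(1 / (2 * (H : ℝ))))
        have e9 : 1 / (2 * (H : ℝ)) ≤ 1 / 2 := by
          rw [div_le_div_iff₀ (by positivity) (by norm_num)]
          linarith
        linarith
      have e8 : 0 ≤ C * N := by positivity
      nlinarith [mul_le_mul_of_nonneg_left e7 e8]
    have e6 : 2 * C / N ≤ 20 * ((H : ℝ) + |τ|) / N := by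
      refine div_le_div_of_nonneg_right ?_ hN.le
      rw [hC]
      have := abs_nonneg τ
      nlinarith
    rw [e3] at e2
    linarith
  have h6 := sum_win_sub_integral ha0.le hab (fun x hx => (hfd x (hpos x hx)).differentiableAt) hdc
  rw [hfa, hfb, norm_zero, zero_add, zero_add] at h6
  rw [h1, ← h4]
  exact h6.trans h5

end Pool.Agent.MOM
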