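import Pool.Agent.MOM.Defs

/-!
MOM (MP_2b7f8f_an), tools for N6, N7: the weighted kernel. `bw` is a polynomial bump: `bw ≥ 1` on
`[0,1]`, `bw` and its derivative vanish at `-1/2` and `3/2`, `0 ≤ bw ≤ 16/9` on `[-1/2, 3/2]`.
-/

set_option autoImplicit false

namespace Pool.Agent.MOM

open Finset MeasureTheory

/-- The bump `(16/9) (1 - (v - 1/2)²)²`. -/
noncomputable def bw (v : ℝ) : ℝ := 16 / 9 * (1 - (v - 1 / 2) ^ 2) ^ 2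

/-- The window `N e^{-1/(2H)} < n ≤ N e^{3/(2H)}`. -/
noncomputable def kwin (H : ℕ) (N : ℝ) : Finset ℕ :=
  win (N * Real.exp (-(1 / (2 * (H : ℝ))))) (N * Real.exp (3 / (2 * (H : ℝ))))

/-- The weight `bw (H (log n - log N))`. -/
noncomputable def kw (H : ℕ) (N : ℝ) (n : ℕ) : ℝ := bw (H * (Real.log n - Real.log N))

/-- The kernel `∑_{n ∈ window, e | n} kw(n) n^{-1-iτ}`. -/
noncomputable def kern (H : ℕ) (N : ℝ) (e : ℕ) (τ : ℝ) : ℂ :=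
  ∑ n ∈ (kwin H N).filter (e ∣ ·), ((kw H N n / n : ℝ) : ℂ) * ph τ n

/-- The Fourier transform `∫ bw (H (y - log N)) e^{-iτy} dy` over the window. -/
noncomputable def kft (H : ℕ) (N τ : ℝ) : ℂ :=
  ∫ y in (Real.log N - 1 / (2 * (H : ℝ)))..(Real.log N + 3 / (2 * (H : ℝ))),
    ((bw (H * (y - Real.log N)) : ℝ) : ℂ) * Complex.exp (((-(τ * y) : ℝ) : ℂ) * Complex.I)

theorem bw_nonneg (v : ℝ) : 0 ≤ bw v := by unfold bw; positivity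

theorem one_le_bw {v : ℝ} (h0 : 0 ≤ v) (h1 : v ≤ 1) : 1 ≤ bw v := by
  unfold bw
  have h2 : (v - 1 / 2) ^ 2 ≤ 1 / 4 := by nlinarith
  have h3 : 3 / 4 ≤ 1 - (v - 1 / 2) ^ 2 := by linarith
  nlinarith [mul_self_nonneg (1 - (v - 1 / 2) ^ 2 - 3 / 4)]

theorem bw_le {v : ℝ} (h0 : -(1 / 2) ≤ v) (h1 : v ≤ 3 / 2) : bw v ≤ 16 / 9 := by
  unfold bw
  have h2 : (v - 1 / 2) ^ 2 ≤ 1 := by nlinarith
  have h3 : 0 ≤ (v - 1 / 2) ^ 2 := sq_nonneg _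
  nlinarith

theorem kw_nonneg (H : ℕ) (N : ℝ) (n : ℕ) : 0 ≤ kw H N n := bw_nonneg _

end Pool.Agent.MOM
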