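import Pool.Agent.MOM.NT.SelBound
import Pool.Agent.MOM.NT.BT
import Pool.Agent.MOM.NT.Dual
import Pool.Agent.MOM.NT.Spacing

/-!
MOM (MP_2b7f8f_an), N6 of /team-store/MOMO.md: large values over primes, for sets `T` of bounded
size.

PROOF. Put `N = exp (u/H)`, so `log N = u/H`, `N^K = exp (K u/H)`; `c, C1` from `kernS_bound K`,
`D = ⌊N^c⌋₊`. Use `duality` with `P = cell H u`, `S = kwin H N`, `W n = kw H N n * nuS D n / n`,
`a = 1`. For `p ∈ P`: `N ≤ p < N e^{1/H}`, so `v = H (log p - log N) ∈ [0,1]`, `kw ≥ 1`, `p ∈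
kwin`,
and `p ≥ N > D` (`N > 1`, `c ≤ 1/8`), so `nuS D p = 1` (`nuS_prime`): `W p ≥ 1/p`. For `t ∈ T` by
`kernS_bound` (`1 ≤ H ≤ |t-t'| ≤ N^K`) and `spacing`:
`∑_{t'} ‖K(t-t')‖ ≤ C1/(H log N) + (C1 H/log N)(4/H²) + R N^{-c} = C1/u + 4 C1/u + R e^{-cu/H} ≤ 6
C1/u`
for `u ≥ u0(H,K,R)` (`u e^{-cu/H} → 0`). `∑_{p ∈ P} 1/p = qs (cell H u) ≤ C2/u` by
`brun_titchmarsh` for `u ≥ u0(H)`. So the claim holds with `C = 6 C1 C2`.
-/

set_option autoImplicit false

namespace Pool.Agent.MOM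

open Finset

theorem large_primes (H : ℕ) (hH : 1 ≤ H) (K : ℝ) (hK : 1 ≤ K) : ∃ C : ℝ, 0 < C ∧ ∀ R : ℕ,
    ∃ u0 : ℕ, ∀ u : ℕ, u0 ≤ u → ∀ T : Finset ℝ, T.card ≤ R →
      (∀ t ∈ T, ∀ t' ∈ T, t ≠ t' → (H : ℝ) ≤ |t - t'| ∧ |t - t'| ≤ Real.exp (K * u / H)) →
        ∑ t ∈ T, ‖dp (cell H u) (fun _ => 1) t‖ ^ 2 ≤ C / (u : ℝ) ^ 2 := by
  obtain ⟨c, hc0, hc8, C1, hC1, hker⟩ := kernS_bound K hK
  obtain ⟨C2, hC2, hbt⟩ := brun_titchmarsh
  obtain ⟨N0, hN0, hker'⟩ := hker H hH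
  obtain ⟨u1, hu1⟩ := hbt H hH
  have hH0 : (0 : ℝ) < H := by exact_mod_cast hH
  refine ⟨6 * C1 * C2, by positivity, fun R => ?_⟩
  have ev1 : ∀ᶠ u : ℕ in Filter.atTop, N0 ≤ Real.exp ((u : ℝ) / H) := by
    have h1 : Filter.Tendsto (fun u : ℕ => Real.exp ((u : ℝ) / H)) Filter.atTop Filter.atTop :=
      Real.tendsto_exp_atTop.comp ((tendsto_natCast_atTop_atTop (R := ℝ)).atTop_div_const hH0)
    exact h1.eventually_ge_atTop N0
  have ev2 : ∀ᶠ u : ℕ in Filter.atTop, (R : ℝ) * ((u : ℝ) * Real.exp (-(c / H * u))) ≤ C1 := by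
    have h1 : Filter.Tendsto (fun x : ℝ => x * Real.exp (-(c / H * x))) Filter.atTop (nhds 0) := by
      have h2 := Real.tendsto_pow_mul_exp_neg_atTop_nhds_zero 1
      have h3 : Filter.Tendsto (fun x : ℝ => c / H * x) Filter.atTop Filter.atTop :=
        Filter.tendsto_id.const_mul_atTop (by positivity)
      have h4 := (h2.comp h3).const_mul (H / c)
      rw [mul_zero] at h4
      refine h4.congr fun x => ?_
      simp only [Function.comp, pow_one]
      field_simp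
    have h5 := (h1.comp (tendsto_natCast_atTop_atTop (R := ℝ))).const_mul (R : ℝ)
    rw [mul_zero] at h5
    exact (h5.eventually (gt_mem_nhds hC1)).mono fun u hu => le_of_lt hu
  obtain ⟨u0, hu0⟩ := Filter.eventually_atTop.1
    ((ev1.and ev2).and ((Filter.eventually_ge_atTop u1).and (Filter.eventually_ge_atTop 1)))
  refine ⟨u0, fun u hu T hTR hT => ?_⟩
  obtain ⟨⟨hN, hR⟩, huu1, hu1'⟩ := hu0 u hu
  have hupos : (0 : ℝ) < u := by exact_mod_cast hu1'
  set N : ℝ := Real.exp ((u : ℝ) / H) with hNdef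
  have hNpos : 0 < N := Real.exp_pos _
  have hlogN : Real.log N = u / H := Real.log_exp _
  have hN1 : 1 < N := by
    rw [hNdef, Real.one_lt_exp_iff]
    positivity
  have hNK : N ^ K = Real.exp (K * u / H) := by
    rw [hNdef, ← Real.exp_mul]
    congr 1
    ring
  have hNc : N ^ (-c) = Real.exp (-(c / H * u)) := by
    rw [hNdef, ← Real.exp_mul]
    congr 1
    ring
  obtain ⟨hk0, hkτ⟩ := hker' N hN
  set D : ℕ := ⌊N ^ c⌋₊ with hD
  have hNc1 : 1 ≤ N ^ c := Real.one_le_rpow hN1.le hc0.le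
  have hD1 : 1 ≤ D := by
    rw [hD]
    exact Nat.le_floor (by exact_mod_cast hNc1)
  have hcell : ∀ p ∈ cell H u, N ≤ p ∧ (p : ℝ) < N * Real.exp (1 / H) ∧ p.Prime := by
    intro p hp
    rw [mem_cell] at hp
    refine ⟨hp.1.1, ?_, hp.2⟩
    have h1 := hp.1.2
    rwa [add_div, Real.exp_add] at h1
  have key := duality (cell H u) (kwin H N) (fun _ => 1)
    (fun n => kw H N n * nuS D n / n) T (6 * C1 / u) (by positivity)
    (fun n hn => (hcell n hn).2.2.pos) (fun n _ => by simp) ?_ ?_ ?_ ?_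
  · have h1 : ∑ n ∈ cell H u, 1 / (n : ℝ) ≤ C2 / u := hu1 u huu1
    calc ∑ t ∈ T, ‖dp (cell H u) (fun _ => 1) t‖ ^ 2
        ≤ (∑ n ∈ cell H u, 1 / (n : ℝ)) * (6 * C1 / u) := key
      _ ≤ (C2 / u) * (6 * C1 / u) := mul_le_mul_of_nonneg_right h1 (by positivity)
      _ = 6 * C1 * C2 / (u : ℝ) ^ 2 := by
          field_simp
  · intro p hp
    obtain ⟨h1, h2, h3⟩ := hcell p hp
    unfold kwin
    rw [mem_win (by positivity)]
    constructor
    · refine lt_of_lt_of_le ?_ h1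
      have h4 : Real.exp (-(1 / (2 * (H : ℝ)))) < 1 := by
        rw [Real.exp_lt_one_iff]
        have : 0 < 1 / (2 * (H : ℝ)) := by positivity
        linarith
      calc N * Real.exp (-(1 / (2 * (H : ℝ)))) < N * 1 := mul_lt_mul_of_pos_left h4 hNpos
        _ = N := mul_one N
    · refine h2.le.trans (mul_le_mul_of_nonneg_left ?_ hNpos.le)
      rw [Real.exp_le_exp, div_le_div_iff₀ hH0 (by positivity)]
      linarith
  · intro n _
    exact div_nonneg (mul_nonneg (kw_nonneg _ _ _) (nuS_nonneg _ _)) (Nat.cast_nonneg _)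
  · intro p hp
    obtain ⟨h1, h2, h3⟩ := hcell p hp
    have hp0 : (0 : ℝ) < p := by exact_mod_cast h3.pos
    have h4 : D < p := by
      have h5 : (D : ℝ) ≤ N ^ c := Nat.floor_le (by positivity)
      have h6 : N ^ c < N ^ (1 : ℝ) := Real.rpow_lt_rpow_of_exponent_lt hN1 (by linarith)
      rw [Real.rpow_one] at h6
      exact_mod_cast lt_of_le_of_lt h5 (lt_of_lt_of_le h6 h1)
    have h7 : nuS D p = 1 := nuS_prime hD1 h3 h4
    have h8 : 1 ≤ kw H N p := by
      unfold kw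
      apply one_le_bw
      · have h9 : Real.log N ≤ Real.log p := Real.log_le_log hNpos h1
        exact mul_nonneg hH0.le (by linarith)
      · have h9 : Real.log p ≤ Real.log N + 1 / H := by
          have h10 := Real.log_le_log hp0 h2.le
          rwa [Real.log_mul hNpos.ne' (Real.exp_pos _).ne', Real.log_exp (1 / (H : ℝ))] at h10
        calc (H : ℝ) * (Real.log p - Real.log N) ≤ H * (1 / H) :=
              mul_le_mul_of_nonneg_left (by linarith) hH0.le
          _ = 1 := by field_simp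
    show 1 / (p : ℝ) ≤ kw H N p * nuS D p / p
    rw [h7, mul_one]
    exact div_le_div_of_nonneg_right h8 hp0.le
  · intro t ht
    show ∑ t' ∈ T, ‖∑ n ∈ kwin H N, ((kw H N n * nuS D n / n : ℝ) : ℂ) * ph (t - t') n‖ ≤ _
    rw [← Finset.add_sum_erase T _ ht, sub_self]
    have hb0 : ‖∑ n ∈ kwin H N, ((kw H N n * nuS D n / n : ℝ) : ℂ) * ph 0 n‖ ≤
        C1 / u + N ^ (-c) := by
      refine hk0.trans (le_of_eq ?_)
      rw [hlogN]
      congr 1
      field_simp
    have hb1 : ∀ t' ∈ T.erase t,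
        ‖∑ n ∈ kwin H N, ((kw H N n * nuS D n / n : ℝ) : ℂ) * ph (t - t') n‖ ≤
        C1 * H ^ 2 / u * (1 / (t - t') ^ 2) + N ^ (-c) := by
      intro t' ht'
      have h1 := hT t ht t' (Finset.mem_of_mem_erase ht') (Finset.ne_of_mem_erase ht').symm
      have hH1 : (1 : ℝ) ≤ H := by exact_mod_cast hH
      have h2 := hkτ (t - t') (hH1.trans h1.1) (by rw [hNK]; exact h1.2)
      refine h2.trans (le_of_eq ?_)
      have h3 : 0 < |t - t'| := lt_of_lt_of_le hH0 h1.1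
      have h4 : t - t' ≠ 0 := abs_pos.1 h3
      rw [hlogN]
      congr 1
      field_simp
    have hsp := spacing T H hH0 (fun t ht t' ht' hne => (hT t ht t' ht' hne).1) t ht
    have hcard : (T.erase t).card + 1 = T.card := Finset.card_erase_add_one ht
    have hcard' : ((T.erase t).card : ℝ) + 1 ≤ R := by
      have : (T.erase t).card + 1 ≤ R := by omega
      exact_mod_cast this
    have hNcpos : 0 < N ^ (-c) := Real.rpow_pos_of_pos hNpos _
    have hRu : (R : ℝ) * N ^ (-c) ≤ C1 / u := by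
      rw [hNc, le_div_iff₀ hupos]
      calc (R : ℝ) * Real.exp (-(c / H * u)) * u = R * (u * Real.exp (-(c / H * u))) := by ring
        _ ≤ C1 := hR
    calc ‖∑ n ∈ kwin H N, ((kw H N n * nuS D n / n : ℝ) : ℂ) * ph 0 n‖ +
          ∑ t' ∈ T.erase t,
            ‖∑ n ∈ kwin H N, ((kw H N n * nuS D n / n : ℝ) : ℂ) * ph (t - t') n‖
        ≤ (C1 / u + N ^ (-c)) +
          ∑ t' ∈ T.erase t, (C1 * H ^ 2 / u * (1 / (t - t') ^ 2) + N ^ (-c)) :=
          add_le_add hb0 (Finset.sum_le_sum hb1)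
      _ = C1 / u + C1 * H ^ 2 / u * (∑ t' ∈ T.erase t, 1 / (t - t') ^ 2) +
          (((T.erase t).card : ℝ) + 1) * N ^ (-c) := by
          rw [Finset.sum_add_distrib, ← Finset.mul_sum, Finset.sum_const, nsmul_eq_mul]
          ring
      _ ≤ C1 / u + C1 * H ^ 2 / u * (4 / (H : ℝ) ^ 2) + R * N ^ (-c) := by
          gcongr
      _ = 5 * (C1 / u) + R * N ^ (-c) := by
          field_simp
          ring
      _ ≤ 5 * (C1 / u) + C1 / u := by linarith
      _ = 6 * C1 / u := by ring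

end Pool.Agent.MOM
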