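import Pool.Agent.MOM.Defs
import Pool.Agent.ExpSum.Mertens
import Pool.Agent.Henon88.Mertens

/-!
MOM (MP_2b7f8f_an), tool N1, part 1: Mertens' first theorem with error term.

PROOF of `mertens_A`. `Pool.Agent.Henon88.mertens` is this statement for
`SP n = ∑ p ∈ Nat.primesLE n, log p / p`, and `SP n = mA n` (`Nat.mem_primesLE`; both are the sum
over the primes `p ≤ n`).

PROOF of `mertens_unit`. Let `a = ⌈x⌉₊`, `b = ⌈exp 1 * x⌉₊`. The sum over the primes of `Ico a b`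
is
`mA (b - 1) - mA (a - 1)` (for `a = 1` use `mA 0 = 0`; `a ≥ 1` because `x ≥ 1`). Here
`b - 1 < exp 1 * x` so `mA (b - 1) ≤ log (exp 1 * x) + C = 1 + log x + C`, and
`a - 1 ≥ x - 1`: for `x ≥ 2`, `mA (a - 1) ≥ log (x - 1) - C ≥ log x - log 2 - C` (if `a - 1 ≥ 1`);
for `x < 2` the sum is at most `mA (b - 1) ≤ log (2 exp 1) + C`.
-/

set_option autoImplicit false

namespace Pool.Agent.MOM

open Finset

theorem mertens_A : ∃ C : ℝ, ∀ n : ℕ, 1 ≤ n → |Pool.Agent.ExpSum.mA n - Real.log n| ≤ C := by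
  obtain ⟨C, _, hC⟩ := Pool.Agent.Henon88.mertens
  refine ⟨C, fun n hn => ?_⟩
  have h1 : Pool.Agent.ExpSum.mA n = Pool.Agent.Henon88.SP n := by
    unfold Pool.Agent.ExpSum.mA Pool.Agent.Henon88.SP
    apply Finset.sum_congr _ fun _ _ => rfl
    ext p
    rw [Nat.primesLE_eq_filter_range, Finset.mem_filter, Finset.mem_filter, Finset.mem_Ioc,
      Finset.mem_range]
    constructor
    · rintro ⟨⟨_, h2⟩, h3⟩
      exact ⟨by omega, h3⟩
    · rintro ⟨h2, h3⟩
      exact ⟨⟨h3.pos, by omega⟩, h3⟩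
  obtain ⟨h2, h3⟩ := hC n hn
  rw [h1, abs_le]
  constructor <;> linarith

theorem mertens_unit : ∃ C : ℝ, ∀ x : ℝ, 1 ≤ x →
    ∑ p ∈ prs x (Real.exp 1 * x), Real.log p / p ≤ C := by
  obtain ⟨C, hC⟩ := mertens_A
  have hC0 : 0 ≤ C := le_trans (abs_nonneg _) (hC 1 le_rfl)
  refine ⟨1 + Real.log 2 + 2 * C, fun x hx => ?_⟩
  have hx0 : 0 < x := by linarith
  have he : (2 : ℝ) < Real.exp 1 := by
    have := Real.exp_one_gt_d9
    linarith
  have hex : x ≤ Real.exp 1 * x := by nlinarith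
  have hl2 : 0 ≤ Real.log 2 := Real.log_nonneg (by norm_num)
  have hlx : 0 ≤ Real.log x := Real.log_nonneg hx
  set a : ℕ := ⌈x⌉₊ with ha
  set b : ℕ := ⌈Real.exp 1 * x⌉₊ with hb
  have ha1 : 1 ≤ a := Nat.one_le_iff_ne_zero.2 (Nat.ceil_pos.2 hx0).ne'
  have hab : a ≤ b := Nat.ceil_mono hex
  have hb3 : 2 < b := Nat.lt_ceil.2 (by push_cast; nlinarith)
  have hbx : (b : ℝ) < Real.exp 1 * x + 1 := Nat.ceil_lt_add_one (by positivity)
  have hax : x ≤ a := Nat.le_ceil x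
  have hsum : Pool.Agent.ExpSum.mA (b - 1) = Pool.Agent.ExpSum.mA (a - 1) +
      ∑ p ∈ prs x (Real.exp 1 * x), Real.log p / p := by
    unfold Pool.Agent.ExpSum.mA prs
    rw [← ha, ← hb, ← Finset.sum_union]
    · apply Finset.sum_congr _ fun _ _ => rfl
      ext p
      simp only [Finset.mem_union, Finset.mem_filter, Finset.mem_Ioc, Finset.mem_Ico]
      constructor
      · rintro ⟨⟨h1, h2⟩, h3⟩
        by_cases h4 : p ≤ a - 1
        · exact Or.inl ⟨⟨h1, h4⟩, h3⟩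
        · exact Or.inr ⟨⟨by omega, by omega⟩, h3⟩
      · rintro (⟨⟨h1, h2⟩, h3⟩ | ⟨⟨h1, h2⟩, h3⟩)
        · exact ⟨⟨h1, by omega⟩, h3⟩
        · exact ⟨⟨by omega, by omega⟩, h3⟩
    · rw [Finset.disjoint_left]
      intro p hp hq
      rw [Finset.mem_filter, Finset.mem_Ioc] at hp
      rw [Finset.mem_filter, Finset.mem_Ico] at hq
      omega
  have hup : Pool.Agent.ExpSum.mA (b - 1) ≤ 1 + Real.log x + C := by
    have h1 := (abs_le.1 (hC (b - 1) (by omega))).2
    have h2 : ((b - 1 : ℕ) : ℝ) = (b : ℝ) - 1 := by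
      rw [Nat.cast_sub (by omega), Nat.cast_one]
    have h3 : (0 : ℝ) < ((b - 1 : ℕ) : ℝ) := by
      have : 0 < b - 1 := by omega
      exact_mod_cast this
    have h4 : Real.log ((b - 1 : ℕ) : ℝ) ≤ Real.log (Real.exp 1 * x) :=
      Real.log_le_log h3 (by rw [h2]; linarith)
    rw [Real.log_mul (Real.exp_pos 1).ne' hx0.ne', Real.log_exp] at h4
    linarith
  have hlow : Real.log x - Real.log 2 - C ≤ Pool.Agent.ExpSum.mA (a - 1) := by
    by_cases h : a = 1
    · have h1 : x ≤ 1 := by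
        rw [h] at hax
        exact_mod_cast hax
      have h2 : Real.log x ≤ 0 := Real.log_nonpos hx0.le h1
      have h3 : Pool.Agent.ExpSum.mA (a - 1) = 0 := by
        rw [h]
        unfold Pool.Agent.ExpSum.mA
        simp
      rw [h3]
      linarith
    · have h1 := (abs_le.1 (hC (a - 1) (by omega))).1
      have h2 : ((a - 1 : ℕ) : ℝ) = (a : ℝ) - 1 := by
        rw [Nat.cast_sub (by omega), Nat.cast_one]
      have h3 : (1 : ℝ) ≤ ((a - 1 : ℕ) : ℝ) := by
        have : 1 ≤ a - 1 := by omega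
        exact_mod_cast this
      have h4 : x / 2 ≤ ((a - 1 : ℕ) : ℝ) := by
        rw [h2] at h3 ⊢
        linarith
      have h5 : Real.log (x / 2) ≤ Real.log ((a - 1 : ℕ) : ℝ) :=
        Real.log_le_log (by positivity) h4
      rw [Real.log_div hx0.ne' (by norm_num)] at h5
      linarith
  linarith

end Pool.Agent.MOM
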