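import Pool.Agent.MOM.NT.VdC

/-!
MOM (MP_2b7f8f_an), tool N5, part 3: iterated differences of the logarithm.

For a real `x > 0` put `L(x) = itR J h log x`, the iterated difference with real argument. Then
`(-1)^J (L(x+1) - L(x))` is positive, decreasing in `x` and lies between
`J! ∏h /(x + ∑h + 1)^{J+1}` and `J! ∏h / x^{J+1}`.

PROOF. Let `log^{(k)}` be the `k`-th derivative, `k ≥ 1`: `(-1)^{k-1} (k-1)! x^{-k}`. CLAIM: for
`J`
differences `h` (all `h i ≥ 1`), `k ≥ 1`, or `k = 0` and `J ≥ 1`, and `x > 0`: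
`(J+k-1)! ∏h/(x+∑h)^{J+k} ≤ (-1)^{J+k-1} itR J h log^{(k)} x ≤ (J+k-1)! ∏h / x^{J+k}`.
Induction on `J`: `itR (J+1) h φ x = ψ(x + h 0) - ψ(x)` with `ψ = itR J (tail h) φ` (the
differences
commute; prove first `itR J h (fun x => φ (x + c) - φ x) x = itR J h φ (x + c) - itR J h φ x`), and
`ψ' = itR J (tail h) φ'`, so by the mean value theorem it is `h 0 · itR J (tail h) φ' ξ` with
`x < ξ < x + h 0`; use the claim for `J`, `k+1`.
The three statements follow by using `J+1` differences `(h, 1)` (or directly with the mean value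
theorem in the last step: `L(x+1) - L(x) = L'(ξ) = itR J h log' ξ`), and for the monotonicity
`(d/dx)(L(x+1)-L(x)) = itR J h log' (x+1) - itR J h log' x`, whose sign times `(-1)^J` is negative
by
the claim for `J+1` differences.
-/

set_option autoImplicit false

namespace Pool.Agent.MOM

open Finset

/-- Iterated differences with natural steps of a function of a real variable. -/
def itR : (J : ℕ) → (Fin J → ℕ) → (ℝ → ℝ) → ℝ → ℝ
  | 0, _, f => f
  | J + 1, h, f => itR J (Fin.tail h) (fun x => f (x + h 0) - f x)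

theorem itD_eq_itR (J : ℕ) (h : Fin J → ℕ) (f : ℝ → ℝ) (a n : ℕ) :
    itD J h (fun m => f ((a : ℝ) + m)) n = itR J h f ((a : ℝ) + n) := by
  induction J generalizing f with
  | zero => rfl
  | succ J ih =>
    have h1 := ih (Fin.tail h) (fun x => f (x + h 0) - f x)
    have h2 : itD (J + 1) h (fun m => f ((a : ℝ) + m)) n =
        itD J (Fin.tail h) (fun m => f ((a : ℝ) + m + h 0) - f ((a : ℝ) + m)) n := by
      show itD J (Fin.tail h) (fun m => f ((a : ℝ) + ((m + h 0 : ℕ) : ℝ)) - f ((a : ℝ) + m)) n = _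
      congr 1
      funext m
      rw [Nat.cast_add, add_assoc]
    rw [h2]
    exact h1

/-- The differences commute with translations. -/
private theorem itR_shift (J : ℕ) (h : Fin J → ℕ) (φ : ℝ → ℝ) (c x : ℝ) :
    itR J h (fun x => φ (x + c) - φ x) x = itR J h φ (x + c) - itR J h φ x := by
  induction J generalizing φ with
  | zero => rfl
  | succ J ih =>
    have h1 := ih (Fin.tail h) (fun x => φ (x + h 0) - φ x)
    have h2 : itR (J + 1) h (fun x => φ (x + c) - φ x) x =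
        itR J (Fin.tail h) (fun x => (fun x => φ (x + h 0) - φ x) (x + c) -
          (fun x => φ (x + h 0) - φ x) x) x := by
      show itR J (Fin.tail h) (fun x => (φ (x + h 0 + c) - φ (x + h 0)) - (φ (x + c) - φ x)) x = _
      congr 1
      funext y
      have : y + (h 0 : ℝ) + c = y + c + h 0 := by ring
      simp only [this]
      ring
    rw [h2]
    exact h1

private theorem itR_succ' (J : ℕ) (h : Fin (J + 1) → ℕ) (φ : ℝ → ℝ) (x : ℝ) :
    itR (J + 1) h φ x = itR J (Fin.tail h) φ (x + h 0) - itR J (Fin.tail h) φ x :=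
  itR_shift J (Fin.tail h) φ (h 0) x

private theorem itR_deriv (J : ℕ) (h : Fin J → ℕ) (φ φ' : ℝ → ℝ)
    (hφ : ∀ x : ℝ, 0 < x → HasDerivAt φ (φ' x) x) (x : ℝ) (hx : 0 < x) :
    HasDerivAt (itR J h φ) (itR J h φ' x) x := by
  induction J generalizing φ φ' with
  | zero => exact hφ x hx
  | succ J ih =>
    refine ih (Fin.tail h) (fun x => φ (x + h 0) - φ x) (fun x => φ' (x + h 0) - φ' x) ?_
    intro y hy
    have h1 : HasDerivAt (fun y : ℝ => φ (y + h 0)) (φ' (y + h 0)) y :=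
      HasDerivAt.comp_add_const y (h 0 : ℝ) (hφ _ (by positivity))
    exact h1.sub (hφ y hy)

/-- The derivatives of the logarithm. -/
private noncomputable def lg : ℕ → ℝ → ℝ
  | 0, x => Real.log x
  | k + 1, x => (-1) ^ k * (k.factorial : ℝ) / x ^ (k + 1)

private theorem lg_deriv (k : ℕ) (x : ℝ) (hx : 0 < x) : HasDerivAt (lg k) (lg (k + 1) x) x := by
  cases k with
  | zero =>
    have h1 := Real.hasDerivAt_log hx.ne'
    have h2 : lg (0 + 1) x = x⁻¹ := by simp [lg]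
    rw [h2]
    exact h1
  | succ k =>
    have h1 : HasDerivAt (fun y : ℝ => (-1 : ℝ) ^ k * (k.factorial : ℝ) * (y ^ (k + 1))⁻¹)
        ((-1 : ℝ) ^ k * (k.factorial : ℝ) *
          (-(((k + 1 : ℕ) : ℝ) * x ^ (k + 1 - 1)) / (x ^ (k + 1)) ^ 2)) x :=
      ((hasDerivAt_pow (k + 1) x).fun_inv (by positivity)).const_mul _
    have h2 : lg (k + 1 + 1) x = (-1 : ℝ) ^ k * (k.factorial : ℝ) *
          (-(((k + 1 : ℕ) : ℝ) * x ^ (k + 1 - 1)) / (x ^ (k + 1)) ^ 2) := by
      show (-1) ^ (k + 1) * ((k + 1).factorial : ℝ) / x ^ (k + 1 + 1) = _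
      rw [Nat.factorial_succ, Nat.add_sub_cancel]
      push_cast
      have hx0 : x ≠ 0 := hx.ne'
      field_simp
      ring
    rw [h2]
    refine h1.congr_of_eventuallyEq ?_
    filter_upwards with y
    show (-1) ^ k * (k.factorial : ℝ) / y ^ (k + 1) = _
    rw [div_eq_mul_inv]

private theorem claim (J : ℕ) : ∀ (h : Fin J → ℕ), (∀ i, 1 ≤ h i) → ∀ (k m : ℕ), J + k = m + 1 →
    ∀ x : ℝ, 0 < x →
    (m.factorial : ℝ) * (∏ i, (h i : ℝ)) / (x + ∑ i, (h i : ℝ)) ^ (m + 1) ≤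
      (-1) ^ m * itR J h (lg k) x ∧
    (-1) ^ m * itR J h (lg k) x ≤ (m.factorial : ℝ) * (∏ i, (h i : ℝ)) / x ^ (m + 1) := by
  induction J with
  | zero =>
    intro h hh k m hk x hx
    have hk' : k = m + 1 := by omega
    subst hk'
    have h1 : (-1 : ℝ) ^ m * itR 0 h (lg (m + 1)) x = (m.factorial : ℝ) / x ^ (m + 1) := by
      show (-1 : ℝ) ^ m * ((-1) ^ m * (m.factorial : ℝ) / x ^ (m + 1)) = _
      have h2 : ((-1 : ℝ) ^ m) * (-1) ^ m = 1 := by
        rw [← mul_pow]; simp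
      calc (-1 : ℝ) ^ m * ((-1) ^ m * (m.factorial : ℝ) / x ^ (m + 1))
          = ((-1 : ℝ) ^ m * (-1) ^ m) * ((m.factorial : ℝ) / x ^ (m + 1)) := by ring
        _ = _ := by rw [h2, one_mul]
    rw [h1]
    simp
  | succ J ih =>
    intro h hh k m hk x hx
    have hh0 : (1 : ℝ) ≤ (h 0 : ℝ) := by exact_mod_cast hh 0
    have hlt : x < x + h 0 := by linarith
    obtain ⟨ξ, hξ, hξe⟩ := exists_hasDerivAt_eq_slope (itR J (Fin.tail h) (lg k))
      (itR J (Fin.tail h) (lg (k + 1))) hlt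
      (fun y hy => (itR_deriv J (Fin.tail h) (lg k) (lg (k + 1)) (lg_deriv k) y
        (lt_of_lt_of_le hx hy.1)).continuousAt.continuousWithinAt)
      (fun y hy => itR_deriv J (Fin.tail h) (lg k) (lg (k + 1)) (lg_deriv k) y
        (hx.trans hy.1))
    have hξ0 : 0 < ξ := hx.trans hξ.1
    obtain ⟨hl, hu⟩ := ih (Fin.tail h) (fun i => hh _) (k + 1) m (by omega) ξ hξ0
    have heq : itR (J + 1) h (lg k) x = h 0 * itR J (Fin.tail h) (lg (k + 1)) ξ := by
      rw [itR_succ', hξe, add_sub_cancel_left]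
      field_simp
    have hsum : ∑ i, (h i : ℝ) = h 0 + ∑ i, ((Fin.tail h i : ℕ) : ℝ) := by
      rw [Fin.sum_univ_succ]; rfl
    have hprod : ∏ i, (h i : ℝ) = h 0 * ∏ i, ((Fin.tail h i : ℕ) : ℝ) := by
      rw [Fin.prod_univ_succ]; rfl
    have hP : 0 ≤ ∏ i, ((Fin.tail h i : ℕ) : ℝ) := Finset.prod_nonneg (fun i _ => by positivity)
    have hS : 0 ≤ ∑ i, ((Fin.tail h i : ℕ) : ℝ) := Finset.sum_nonneg (fun i _ => by positivity)
    have hr : (-1 : ℝ) ^ m * itR (J + 1) h (lg k) x =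
        h 0 * ((-1 : ℝ) ^ m * itR J (Fin.tail h) (lg (k + 1)) ξ) := by
      rw [heq]; ring
    rw [hr, hsum, hprod]
    generalize itR J (Fin.tail h) (lg (k + 1)) ξ = V at *
    generalize (∏ i, ((Fin.tail h i : ℕ) : ℝ)) = P at *
    generalize (∑ i, ((Fin.tail h i : ℕ) : ℝ)) = S at *
    constructor
    · calc (m.factorial : ℝ) * (h 0 * P) / (x + (h 0 + S)) ^ (m + 1)
          = h 0 * ((m.factorial : ℝ) * P / (x + (h 0 + S)) ^ (m + 1)) := by ring
        _ ≤ h 0 * ((m.factorial : ℝ) * P / (ξ + S) ^ (m + 1)) := by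
          apply mul_le_mul_of_nonneg_left _ (by linarith)
          apply div_le_div_of_nonneg_left (by positivity) (by positivity)
          apply pow_le_pow_left₀ (by positivity)
          linarith [hξ.2]
        _ ≤ _ := mul_le_mul_of_nonneg_left hl (by linarith)
    · calc h 0 * ((-1 : ℝ) ^ m * V) ≤ h 0 * ((m.factorial : ℝ) * P / ξ ^ (m + 1)) :=
          mul_le_mul_of_nonneg_left hu (by linarith)
        _ ≤ h 0 * ((m.factorial : ℝ) * P / x ^ (m + 1)) := by
          apply mul_le_mul_of_nonneg_left _ (by linarith)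
          apply div_le_div_of_nonneg_left (by positivity) (by positivity)
          apply pow_le_pow_left₀ hx.le
          exact hξ.1.le
        _ = (m.factorial : ℝ) * (h 0 * P) / x ^ (m + 1) := by ring

/-- One more difference, with step `1`. -/
private def hc (J : ℕ) (h : Fin J → ℕ) : Fin (J + 1) → ℕ := Fin.cons 1 h

private theorem hc_pos (J : ℕ) (h : Fin J → ℕ) (hh : ∀ i, 1 ≤ h i) : ∀ i, 1 ≤ hc J h i := by
  intro i
  refine Fin.cases ?_ (fun j => ?_) i
  · exact le_rfl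
  · exact hh j

private theorem hc_eq (J : ℕ) (h : Fin J → ℕ) (φ : ℝ → ℝ) (x : ℝ) :
    itR (J + 1) (hc J h) φ x = itR J h φ (x + 1) - itR J h φ x := by
  rw [itR_succ']
  have h1 : Fin.tail (hc J h) = h := Fin.tail_cons _ _
  have h2 : ((hc J h 0 : ℕ) : ℝ) = 1 := by
    have : hc J h 0 = 1 := rfl
    rw [this]; norm_num
  rw [h1, h2]

private theorem hc_sum (J : ℕ) (h : Fin J → ℕ) :
    ∑ i, ((hc J h i : ℕ) : ℝ) = 1 + ∑ i, (h i : ℝ) := by
  rw [Fin.sum_univ_succ]
  have : hc J h 0 = 1 := rfl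
  rw [this, Nat.cast_one]
  rfl

private theorem hc_prod (J : ℕ) (h : Fin J → ℕ) :
    ∏ i, ((hc J h i : ℕ) : ℝ) = ∏ i, (h i : ℝ) := by
  rw [Fin.prod_univ_succ]
  have : hc J h 0 = 1 := rfl
  rw [this, Nat.cast_one, one_mul]
  rfl

private theorem lg_zero : lg 0 = Real.log := rfl

theorem phase_lower (J : ℕ) (h : Fin J → ℕ) (hh : ∀ i, 1 ≤ h i) {x : ℝ} (hx : 0 < x) :
    (J.factorial : ℝ) * (∏ i, (h i : ℝ)) / (x + (∑ i, (h i : ℝ)) + 1) ^ (J + 1) ≤
      (-1) ^ J * (itR J h Real.log (x + 1) - itR J h Real.log x) := by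
  have h1 := (claim (J + 1) (hc J h) (hc_pos J h hh) 0 J rfl x hx).1
  rw [hc_eq, hc_sum, hc_prod, lg_zero] at h1
  have h2 : x + (∑ i, (h i : ℝ)) + 1 = x + (1 + ∑ i, (h i : ℝ)) := by ring
  rw [h2]
  exact h1

theorem phase_upper (J : ℕ) (h : Fin J → ℕ) (hh : ∀ i, 1 ≤ h i) {x : ℝ} (hx : 0 < x) :
    (-1) ^ J * (itR J h Real.log (x + 1) - itR J h Real.log x) ≤
      (J.factorial : ℝ) * (∏ i, (h i : ℝ)) / x ^ (J + 1) := by
  have h1 := (claim (J + 1) (hc J h) (hc_pos J h hh) 0 J rfl x hx).2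
  rw [hc_eq, hc_prod, lg_zero] at h1
  exact h1

theorem phase_anti (J : ℕ) (h : Fin J → ℕ) (hh : ∀ i, 1 ≤ h i) {x y : ℝ} (hx : 0 < x)
    (hxy : x ≤ y) :
    (-1) ^ J * (itR J h Real.log (y + 1) - itR J h Real.log y) ≤
      (-1) ^ J * (itR J h Real.log (x + 1) - itR J h Real.log x) := by
  have hd : ∀ z : ℝ, 0 < z → HasDerivAt (fun z => (-1 : ℝ) ^ J * itR (J + 1) (hc J h) (lg 0) z)
      ((-1 : ℝ) ^ J * itR (J + 1) (hc J h) (lg 1) z) z := fun z hz =>
    (itR_deriv (J + 1) (hc J h) (lg 0) (lg 1) (lg_deriv 0) z hz).const_mul _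
  have hanti : AntitoneOn (fun z => (-1 : ℝ) ^ J * itR (J + 1) (hc J h) (lg 0) z)
      (Set.Ioi (0 : ℝ)) := by
    apply antitoneOn_of_deriv_nonpos (convex_Ioi 0)
    · intro z hz
      exact (hd z hz).continuousAt.continuousWithinAt
    · rw [interior_Ioi]
      intro z hz
      exact (hd z hz).differentiableAt.differentiableWithinAt
    · rw [interior_Ioi]
      intro z hz
      rw [(hd z hz).deriv]
      have hz0 : (0 : ℝ) < z := hz
      have h1 := (claim (J + 1) (hc J h) (hc_pos J h hh) 1 (J + 1) rfl z hz0).1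
      have h2 : 0 ≤ ((J + 1).factorial : ℝ) * (∏ i, ((hc J h i : ℕ) : ℝ)) /
          (z + ∑ i, ((hc J h i : ℕ) : ℝ)) ^ (J + 1 + 1) := by
        positivity
      have h3 : (-1 : ℝ) ^ (J + 1) * itR (J + 1) (hc J h) (lg 1) z =
          -((-1 : ℝ) ^ J * itR (J + 1) (hc J h) (lg 1) z) := by ring
      linarith
  have h1 := hanti (Set.mem_Ioi.2 hx) (Set.mem_Ioi.2 (lt_of_lt_of_le hx hxy)) hxy
  simp only [hc_eq, lg_zero] at h1
  exact h1

end Pool.Agent.MOM
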