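import Pool.Agent.MOM.NT.SelKern
import Pool.Agent.MOM.NT.Kern
import Pool.Agent.MOM.NT.KernFT
import Pool.Agent.MOM.NT.KernWeyl

/-!
MOM (MP_2b7f8f_an), N6: bounds for the kernel of the Selberg majorant.

Notation `KS τ = ∑ n ∈ kwin H N, kw n nuS(D,n)/n · ph τ n`.

PROOF of `kernS_small`. By `sum_nuS` and `kern_int` (`lcm d e ≥ 1`), `|lam| ≤ 1`
(`Pool.Agent.ExpSum.abs_lam_le`), `#sqf D ≤ D`: `KS τ` equals
`kft H N τ · ∑∑ lam lam/[d,e] = kft H N τ/selS D` (`sum_lam_lcm`) up to `D² · 20 (H + |τ|)/N`; and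
`selS D ≥ log (D+1) > 0` (`log_le_selS`).

PROOF of `kernS_bound`. Let `c1, C1` be from `kern_weyl (2K)`, `c = c1/8` (`≤ 1/8`), `C = 256/c1`,
`D = ⌊N^c⌋₊ ≥ 1`, so `log (D+1) ≥ c log N`, `D² ≤ N^{c1/4} ≤ N^{1/4}`. `N ≥ N0(H)` large.
(a) `τ = 0`: `kernS_small`, `kft_le`: `‖KS 0‖ ≤ (4/H)/(c log N) + 20 D² H/N`, and
`20 N^{1/4} H/N ≤ N^{-c}` for `N` large.
(b) `1 ≤ |τ| ≤ N^{1/2}`: `kernS_small`, `kft_le_sq`: `≤ (32H/τ²)/(c log N) + 20 N^{1/4}(H +
N^{1/2})/N`,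
and the last term is `≤ 40 H N^{-1/4} ≤ N^{-c}` for `N` large.
(c) `N^{1/2} ≤ |τ| ≤ N^K`: in `sum_nuS` use `kern_weyl (2K)` with `e' = lcm d e ≤ D² ≤ N^{1/4}`:
`4 H e' ≤ 4H N^{1/4} ≤ N` and `N/(2e') ≥ N^{3/4}/2 ≥ N^{1/2}`, so `|τ| ≤ N^K ≤ (N/(2e'))^{2K}`.
Every term
is `≤ C1 H (N/e')^{-c1} ≤ C1 H N^{-3c1/4}`, at most `D² ≤ N^{c1/4}` terms: `≤ C1 H N^{-c1/2} ≤
N^{-c}`.
-/

set_option autoImplicit false

namespace Pool.Agent.MOM

open Finset

private theorem card_sqf_le (D : ℕ) : ((Pool.Agent.ExpSum.sqf D).card : ℝ) ≤ D := by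
  have h : (Pool.Agent.ExpSum.sqf D).card ≤ D := by
    refine (Finset.card_filter_le _ _).trans ?_
    simp
  exact_mod_cast h

private theorem norm_lam2 {D d e : ℕ} (hd : d ∈ Pool.Agent.ExpSum.sqf D)
    (he : e ∈ Pool.Agent.ExpSum.sqf D) :
    ‖((Pool.Agent.ExpSum.lam D d * Pool.Agent.ExpSum.lam D e : ℝ) : ℂ)‖ ≤ 1 := by
  rw [Complex.norm_real, Real.norm_eq_abs, abs_mul]
  exact mul_le_one₀ (Pool.Agent.ExpSum.abs_lam_le hd) (abs_nonneg _)
    (Pool.Agent.ExpSum.abs_lam_le he)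

private theorem dsum_le {D : ℕ} (F : ℕ → ℂ) {B : ℝ} (hB : 0 ≤ B)
    (hF : ∀ d ∈ Pool.Agent.ExpSum.sqf D, ∀ e ∈ Pool.Agent.ExpSum.sqf D,
      ‖F (Nat.lcm d e)‖ ≤ B) :
    ‖∑ d ∈ Pool.Agent.ExpSum.sqf D, ∑ e ∈ Pool.Agent.ExpSum.sqf D,
      ((Pool.Agent.ExpSum.lam D d * Pool.Agent.ExpSum.lam D e : ℝ) : ℂ) * F (Nat.lcm d e)‖ ≤
      (D : ℝ) ^ 2 * B := by
  calc _ ≤ ∑ d ∈ Pool.Agent.ExpSum.sqf D, ∑ e ∈ Pool.Agent.ExpSum.sqf D, B := by
        refine (norm_sum_le _ _).trans (Finset.sum_le_sum fun d hd => ?_)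
        refine (norm_sum_le _ _).trans (Finset.sum_le_sum fun e he => ?_)
        rw [norm_mul]
        calc _ ≤ 1 * B := mul_le_mul (norm_lam2 hd he) (hF d hd e he) (norm_nonneg _) zero_le_one
          _ = B := one_mul _
    _ = ((Pool.Agent.ExpSum.sqf D).card : ℝ) ^ 2 * B := by
        rw [Finset.sum_const, Finset.sum_const, nsmul_eq_mul, nsmul_eq_mul]
        ring
    _ ≤ _ := by
        have := card_sqf_le D
        gcongr

private theorem lcm_pos' {D d e : ℕ} (hd : d ∈ Pool.Agent.ExpSum.sqf D)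
    (he : e ∈ Pool.Agent.ExpSum.sqf D) : 1 ≤ Nat.lcm d e :=
  Nat.lcm_pos (Pool.Agent.ExpSum.mem_sqf.1 hd).1.1 (Pool.Agent.ExpSum.mem_sqf.1 he).1.1

private theorem lcm_le' {D d e : ℕ} (hd : d ∈ Pool.Agent.ExpSum.sqf D)
    (he : e ∈ Pool.Agent.ExpSum.sqf D) : Nat.lcm d e ≤ D * D := by
  have h1 := (Pool.Agent.ExpSum.mem_sqf.1 hd).1
  have h2 := (Pool.Agent.ExpSum.mem_sqf.1 he).1
  refine (Nat.le_of_dvd ?_ (Nat.lcm_dvd_mul d e)).trans (Nat.mul_le_mul h1.2 h2.2)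
  exact Nat.mul_pos h1.1 h2.1

theorem kernS_small (H D : ℕ) (N τ : ℝ) (hH : 1 ≤ H) (hD : 1 ≤ D) (hN : 0 < N) :
    ‖∑ n ∈ kwin H N, ((kw H N n * nuS D n / n : ℝ) : ℂ) * ph τ n‖ ≤
      ‖kft H N τ‖ / Real.log (D + 1) + (D : ℝ) ^ 2 * (20 * ((H : ℝ) + |τ|) / N) := by
  rw [sum_nuS]
  have hlog : 0 < Real.log (D + 1) := by
    refine Real.log_pos ?_
    have : (1 : ℝ) ≤ D := by exact_mod_cast hD
    linarith
  have hsplit : ∑ d ∈ Pool.Agent.ExpSum.sqf D, ∑ e ∈ Pool.Agent.ExpSum.sqf D,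
        ((Pool.Agent.ExpSum.lam D d * Pool.Agent.ExpSum.lam D e : ℝ) : ℂ) *
          kern H N (Nat.lcm d e) τ =
      kft H N τ * ((1 / Pool.Agent.ExpSum.selS D : ℝ) : ℂ) +
      ∑ d ∈ Pool.Agent.ExpSum.sqf D, ∑ e ∈ Pool.Agent.ExpSum.sqf D,
        ((Pool.Agent.ExpSum.lam D d * Pool.Agent.ExpSum.lam D e : ℝ) : ℂ) *
          (kern H N (Nat.lcm d e) τ - kft H N τ / (Nat.lcm d e : ℕ)) := by
    rw [← Pool.Agent.ExpSum.sum_lam_lcm hD, Complex.ofReal_sum, Finset.mul_sum,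
      ← Finset.sum_add_distrib]
    refine Finset.sum_congr rfl fun d hd => ?_
    rw [Complex.ofReal_sum, Finset.mul_sum, ← Finset.sum_add_distrib]
    refine Finset.sum_congr rfl fun e he => ?_
    push_cast
    ring
  rw [hsplit]
  refine (norm_add_le _ _).trans (add_le_add ?_ ?_)
  · rw [norm_mul, Complex.norm_real, Real.norm_eq_abs,
      abs_of_nonneg (by have := Pool.Agent.ExpSum.selS_pos hD; positivity), mul_one_div]
    exact div_le_div_of_nonneg_left (norm_nonneg _) hlog (Pool.Agent.ExpSum.log_le_selS D)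
  · refine dsum_le (fun m => kern H N m τ - kft H N τ / (m : ℕ)) (by positivity) ?_
    intro d hd e he
    exact kern_int H (Nat.lcm d e) N τ hH (lcm_pos' hd he) hN

/-- eventually `A ≤ N^b`. -/
private theorem ev_le (A b : ℝ) (hb : 0 < b) : ∃ N0 : ℝ, 1 ≤ N0 ∧ ∀ N : ℝ, N0 ≤ N → A ≤ N ^ b := by
  have h := (tendsto_rpow_atTop hb).eventually_ge_atTop A
  obtain ⟨N1, hN1⟩ := Filter.eventually_atTop.1 h
  exact ⟨max 1 N1, le_max_left _ _, fun N hN => hN1 N ((le_max_right _ _).trans hN)⟩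

theorem kernS_bound (K : ℝ) (hK : 1 ≤ K) : ∃ c : ℝ, 0 < c ∧ c ≤ 1 / 8 ∧ ∃ C : ℝ, 0 < C ∧
    ∀ H : ℕ, 1 ≤ H → ∃ N0 : ℝ, 1 ≤ N0 ∧ ∀ N : ℝ, N0 ≤ N →
      ‖∑ n ∈ kwin H N, ((kw H N n * nuS ⌊N ^ c⌋₊ n / n : ℝ) : ℂ) * ph 0 n‖ ≤
        C / (H * Real.log N) + N ^ (-c) ∧
      ∀ τ : ℝ, 1 ≤ |τ| → |τ| ≤ N ^ K →
        ‖∑ n ∈ kwin H N, ((kw H N n * nuS ⌊N ^ c⌋₊ n / n : ℝ) : ℂ) * ph τ n‖ ≤
          C * H / (τ ^ 2 * Real.log N) + N ^ (-c) := by
  obtain ⟨c1, hc1, hc1', C1, hC1, hweyl⟩ := kern_weyl (2 * K) (by linarith)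
  refine ⟨c1 / 8, by positivity, by linarith, 256 / c1, by positivity, ?_⟩
  intro H hH
  have hHR : (1 : ℝ) ≤ H := by exact_mod_cast hH
  obtain ⟨Na, hNa1, hNa⟩ := ev_le (40 * H) (1 / 8) (by norm_num)
  obtain ⟨Nb, hNb1, hNb⟩ := ev_le (C1 * H) (3 * c1 / 8) (by positivity)
  refine ⟨max (max Na Nb) 16, le_trans (by norm_num) (le_max_right _ _), ?_⟩
  intro N hN
  have hN16 : (16 : ℝ) ≤ N := (le_max_right _ _).trans hN
  have hNpos : 0 < N := by linarith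
  have hN1 : 1 ≤ N := by linarith
  have hA := hNa N (((le_max_left _ _).trans (le_max_left _ _)).trans hN)
  have hB := hNb N (((le_max_right _ _).trans (le_max_left _ _)).trans hN)
  set D : ℕ := ⌊N ^ (c1 / 8)⌋₊ with hD
  have hpow1 : 1 ≤ N ^ (c1 / 8) := Real.one_le_rpow hN1 (by positivity)
  have hD1 : 1 ≤ D := (Nat.one_le_floor_iff _).2 hpow1
  have hDle : (D : ℝ) ≤ N ^ (c1 / 8) := Nat.floor_le (by positivity)
  have hD2 : (D : ℝ) ^ 2 ≤ N ^ (c1 / 4) := by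
    calc (D : ℝ) ^ 2 ≤ (N ^ (c1 / 8)) ^ 2 := by gcongr
      _ = N ^ (c1 / 4) := by
          rw [← Real.rpow_natCast, ← Real.rpow_mul hNpos.le]
          congr 1
          push_cast
          ring
  have hD2' : (D : ℝ) ^ 2 ≤ N ^ (1 / 4 : ℝ) :=
    hD2.trans (Real.rpow_le_rpow_of_exponent_le hN1 (by linarith))
  have hlogN : 0 < Real.log N := Real.log_pos (by linarith)
  have hlogD : c1 / 8 * Real.log N ≤ Real.log (D + 1) := by
    rw [← Real.log_rpow hNpos]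
    refine Real.log_le_log (by positivity) ?_
    exact (Nat.lt_floor_add_one _).le
  -- the small error terms
  have herr : ∀ τ : ℝ, |τ| ≤ N ^ (1 / 2 : ℝ) →
      (D : ℝ) ^ 2 * (20 * ((H : ℝ) + |τ|) / N) ≤ N ^ (-(c1 / 8)) := by
    intro τ hτ
    have e1 : (1 : ℝ) ≤ N ^ (1 / 2 : ℝ) := Real.one_le_rpow hN1 (by norm_num)
    have e2 : (H : ℝ) + |τ| ≤ 2 * H * N ^ (1 / 2 : ℝ) := by nlinarith
    calc (D : ℝ) ^ 2 * (20 * ((H : ℝ) + |τ|) / N)
        ≤ N ^ (1 / 4 : ℝ) * (20 * (2 * H * N ^ (1 / 2 : ℝ)) / N) := by gcongr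
      _ = (40 * H) * (N ^ (1 / 4 : ℝ) * N ^ (1 / 2 : ℝ) * N⁻¹) := by
          rw [div_eq_mul_inv]; ring
      _ ≤ N ^ (1 / 8 : ℝ) * (N ^ (1 / 4 : ℝ) * N ^ (1 / 2 : ℝ) * N⁻¹) := by gcongr
      _ = N ^ (-(1 / 8) : ℝ) := by
          rw [← Real.rpow_neg_one N, ← Real.rpow_add hNpos, ← Real.rpow_add hNpos,
            ← Real.rpow_add hNpos]
          norm_num
      _ ≤ N ^ (-(c1 / 8)) := Real.rpow_le_rpow_of_exponent_le hN1 (by linarith)
  constructor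
  · refine (kernS_small H D N 0 hH hD1 hNpos).trans (add_le_add ?_ ?_)
    · calc ‖kft H N 0‖ / Real.log (D + 1) ≤ (4 / H) / (c1 / 8 * Real.log N) := by
            have := kft_le H N 0 hH
            gcongr
        _ = 32 / c1 / (H * Real.log N) := by
            field_simp
            ring
        _ ≤ 256 / c1 / (H * Real.log N) := by
            gcongr
            norm_num
    · exact herr 0 (by rw [abs_zero]; positivity)
  · intro τ hτ1 hτK
    have hτ0 : τ ≠ 0 := by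
      rintro rfl
      rw [abs_zero] at hτ1
      linarith
    have hτ2 : 0 < τ ^ 2 := by positivity
    rcases le_total |τ| (N ^ (1 / 2 : ℝ)) with hs | hl
    · refine (kernS_small H D N τ hH hD1 hNpos).trans (add_le_add ?_ (herr τ hs))
      calc ‖kft H N τ‖ / Real.log (D + 1) ≤ (32 * H / τ ^ 2) / (c1 / 8 * Real.log N) := by
            have := kft_le_sq H N τ hH hτ0
            gcongr
        _ = 256 / c1 * H / (τ ^ 2 * Real.log N) := by
            field_simp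
            ring
    · rw [sum_nuS]
      have hterm : ∀ d ∈ Pool.Agent.ExpSum.sqf D, ∀ e ∈ Pool.Agent.ExpSum.sqf D,
          ‖kern H N (Nat.lcm d e) τ‖ ≤ C1 * H * N ^ (-(3 * c1 / 4)) := by
        intro d hd e he
        have h1 : 1 ≤ Nat.lcm d e := lcm_pos' hd he
        have h1R : (1 : ℝ) ≤ (Nat.lcm d e : ℕ) := by exact_mod_cast h1
        have h2 : ((Nat.lcm d e : ℕ) : ℝ) ≤ N ^ (1 / 4 : ℝ) := by
          refine le_trans ?_ hD2'
          have := lcm_le' hd he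
          calc ((Nat.lcm d e : ℕ) : ℝ) ≤ ((D * D : ℕ) : ℝ) := by exact_mod_cast this
            _ = (D : ℝ) ^ 2 := by push_cast; ring
        set m : ℕ := Nat.lcm d e with hm
        have hm0 : (0 : ℝ) < m := by linarith
        have h34 : N ^ (3 / 4 : ℝ) * N ^ (1 / 4 : ℝ) = N := by
          rw [← Real.rpow_add hNpos]
          norm_num
        have h3 : N ^ (3 / 4 : ℝ) ≤ N / m := by
          rw [le_div_iff₀ hm0]
          calc N ^ (3 / 4 : ℝ) * m ≤ N ^ (3 / 4 : ℝ) * N ^ (1 / 4 : ℝ) := by gcongr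
            _ = N := h34
        have h4H : 4 * (H : ℝ) * m ≤ N := by
          have a1 : (N : ℝ) ^ (1 / 8 : ℝ) ≤ N ^ (3 / 4 : ℝ) :=
            Real.rpow_le_rpow_of_exponent_le hN1 (by norm_num)
          calc 4 * (H : ℝ) * m ≤ 40 * H * m := by gcongr; norm_num
            _ ≤ N ^ (3 / 4 : ℝ) * N ^ (1 / 4 : ℝ) := by
                have a2 : 40 * (H : ℝ) ≤ N ^ (3 / 4 : ℝ) := hA.trans a1
                gcongr
            _ = N := h34
        have hq : (2 : ℝ) ≤ N ^ (1 / 4 : ℝ) := by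
          have a3 : ((16 : ℝ)) ^ (1 / 4 : ℝ) = 2 := by
            rw [show (16 : ℝ) = 2 ^ (4 : ℝ) by norm_num, ← Real.rpow_mul (by norm_num)]
            norm_num
          rw [← a3]
          exact Real.rpow_le_rpow (by norm_num) hN16 (by norm_num)
        have h5 : N ^ (1 / 2 : ℝ) ≤ N / (2 * m) := by
          have a4 : N ^ (1 / 2 : ℝ) * N ^ (1 / 4 : ℝ) = N ^ (3 / 4 : ℝ) := by
            rw [← Real.rpow_add hNpos]
            norm_num
          have a5 : N / (2 * m) = N / m / 2 := by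
            rw [div_div, mul_comm]
          rw [a5, le_div_iff₀ (by norm_num)]
          calc N ^ (1 / 2 : ℝ) * 2 ≤ N ^ (1 / 2 : ℝ) * N ^ (1 / 4 : ℝ) := by gcongr
            _ = N ^ (3 / 4 : ℝ) := a4
            _ ≤ _ := h3
        have h6 : |τ| ≤ (N / (2 * m)) ^ (2 * K) := by
          refine hτK.trans ?_
          calc N ^ K = (N ^ (1 / 2 : ℝ)) ^ (2 * K) := by
                rw [← Real.rpow_mul hNpos.le]
                congr 1
                ring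
            _ ≤ _ := Real.rpow_le_rpow (by positivity) h5 (by positivity)
        refine (hweyl H m N τ hH h1 h4H hl h6).trans ?_
        have h7 : (N / m) ^ (-c1) ≤ N ^ (-(3 * c1 / 4)) := by
          calc (N / m) ^ (-c1) ≤ (N ^ (3 / 4 : ℝ)) ^ (-c1) :=
                Real.rpow_le_rpow_of_nonpos (by positivity) h3 (by linarith)
            _ = _ := by
                rw [← Real.rpow_mul hNpos.le]
                congr 1
                ring
        gcongr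
      refine (dsum_le (fun m => kern H N m τ) (by positivity) hterm).trans ?_
      have hfin : (D : ℝ) ^ 2 * (C1 * H * N ^ (-(3 * c1 / 4))) ≤ N ^ (-(c1 / 8)) := by
        calc (D : ℝ) ^ 2 * (C1 * H * N ^ (-(3 * c1 / 4)))
            ≤ N ^ (c1 / 4) * (N ^ (3 * c1 / 8) * N ^ (-(3 * c1 / 4))) := by gcongr
          _ = N ^ (-(c1 / 8)) := by
              rw [← Real.rpow_add hNpos, ← Real.rpow_add hNpos]
              congr 1
              ring
      have hpos : 0 ≤ 256 / c1 * H / (τ ^ 2 * Real.log N) := by positivity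
      linarith

end Pool.Agent.MOM
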