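import Pool.Agent.MOM.NT.KernDefs
import Pool.Agent.ExpSum.Sieve

/-!
MOM (MP_2b7f8f_an), N6: the Selberg majorant of the primes `> D` and its kernel.
`sqf`, `selS`, `lam` are those of `Pool.Agent.ExpSum` (`lam D 1 = 1`, `|lam D d| ≤ 1`,
`∑∑ lam lam/[d,e] = 1/selS D ≤ 1/log (D+1)`).
-/

set_option autoImplicit false

namespace Pool.Agent.MOM

open Finset

/-- The Selberg majorant `(∑_{d | n} lam_d)²` of level `D`. -/
noncomputable def nuS (D n : ℕ) : ℝ :=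
  (∑ d ∈ (Pool.Agent.ExpSum.sqf D).filter (· ∣ n), Pool.Agent.ExpSum.lam D d) ^ 2

theorem nuS_nonneg (D n : ℕ) : 0 ≤ nuS D n := sq_nonneg _

theorem nuS_prime {D p : ℕ} (hD : 1 ≤ D) (hp : p.Prime) (h : D < p) : nuS D p = 1 := by
  have h1 : (Pool.Agent.ExpSum.sqf D).filter (· ∣ p) = {1} := by
    ext d
    rw [mem_filter, Pool.Agent.ExpSum.mem_sqf, mem_singleton]
    constructor
    · rintro ⟨⟨⟨h1, h2⟩, h3⟩, h4⟩
      rcases (Nat.dvd_prime hp).1 h4 with h5 | h5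
      · exact h5
      · omega
    · rintro rfl
      exact ⟨⟨⟨le_rfl, hD⟩, squarefree_one⟩, one_dvd p⟩
  rw [nuS, h1, Finset.sum_singleton, Pool.Agent.ExpSum.lam_one hD, one_pow]

theorem sum_nuS (H D : ℕ) (N τ : ℝ) :
    ∑ n ∈ kwin H N, ((kw H N n * nuS D n / n : ℝ) : ℂ) * ph τ n =
      ∑ d ∈ Pool.Agent.ExpSum.sqf D, ∑ e ∈ Pool.Agent.ExpSum.sqf D,
        ((Pool.Agent.ExpSum.lam D d * Pool.Agent.ExpSum.lam D e : ℝ) : ℂ) *
          kern H N (Nat.lcm d e) τ := by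
  have h1 : ∀ n, nuS D n = ∑ d ∈ Pool.Agent.ExpSum.sqf D, ∑ e ∈ Pool.Agent.ExpSum.sqf D,
      if Nat.lcm d e ∣ n then Pool.Agent.ExpSum.lam D d * Pool.Agent.ExpSum.lam D e else 0 := by
    intro n
    rw [nuS, sq, Finset.sum_filter, Finset.sum_mul_sum]
    refine Finset.sum_congr rfl fun d _ => Finset.sum_congr rfl fun e _ => ?_
    by_cases h3 : d ∣ n
    · by_cases h4 : e ∣ n
      · rw [if_pos h3, if_pos h4, if_pos (Nat.lcm_dvd h3 h4)]
      · have h5 : ¬ Nat.lcm d e ∣ n := fun h => h4 ((Nat.dvd_lcm_right d e).trans h)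
        rw [if_neg h4, if_neg h5, mul_zero]
    · have h5 : ¬ Nat.lcm d e ∣ n := fun h => h3 ((Nat.dvd_lcm_left d e).trans h)
      rw [if_neg h3, if_neg h5, zero_mul]
  have h2 : ∀ n ∈ kwin H N, ((kw H N n * nuS D n / n : ℝ) : ℂ) * ph τ n =
      ∑ d ∈ Pool.Agent.ExpSum.sqf D, ∑ e ∈ Pool.Agent.ExpSum.sqf D,
        ((Pool.Agent.ExpSum.lam D d * Pool.Agent.ExpSum.lam D e : ℝ) : ℂ) *
          (if Nat.lcm d e ∣ n then ((kw H N n / n : ℝ) : ℂ) * ph τ n else 0) := by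
    intro n _
    have h3 : ((kw H N n * nuS D n / n : ℝ) : ℂ) * ph τ n =
        ((nuS D n : ℝ) : ℂ) * (((kw H N n / n : ℝ) : ℂ) * ph τ n) := by
      push_cast
      ring
    rw [h3, h1, Complex.ofReal_sum, Finset.sum_mul]
    refine Finset.sum_congr rfl fun d _ => ?_
    rw [Complex.ofReal_sum, Finset.sum_mul]
    refine Finset.sum_congr rfl fun e _ => ?_
    split_ifs <;> simp
  rw [Finset.sum_congr rfl h2, Finset.sum_comm]
  refine Finset.sum_congr rfl fun d _ => ?_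
  rw [Finset.sum_comm]
  refine Finset.sum_congr rfl fun e _ => ?_
  rw [← Finset.mul_sum, kern, Finset.sum_filter]

end Pool.Agent.MOM
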