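import Pool.Agent.MOM.Defs

/-!
MOM (MP_2b7f8f_an), tool N3, part 1.

Let `f(n) = 1` if no prime of `[y,z)` divides `n` and `f(n) = 0` otherwise.

PROOF of `sieve_log`. For `n ∈ free y z x`: `log x = log n + log(x/n)` and `log(x/n) ≤ x/n`
(`Real.log_le_sub_one_of_pos`), so `#free · log x ≤ ∑_{n ∈ free} log n + x ∑_{n ∈ free} 1/n`.
Further
`log n = ∑_{d | n} Λ(d)` (Mathlib `ArithmeticFunction.vonMangoldt_sum`) and every divisor `m =
n/d` of
`n` is again in `free y z x`, so with `n = d m`: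
`∑_{n ∈ free} log n ≤ ∑_{m ∈ free} ∑_{d ≤ x/m} Λ(d) = ∑_{m ∈ free} ψ(x/m) ≤ C x ∑_{m ∈ free} 1/m`
by Chebyshev (Mathlib `Chebyshev.psi_le`, `Chebyshev.psi_le_const_mul_self` or similar in
`Mathlib/NumberTheory/Chebyshev.lean`; all `Λ ≥ 0`; the map `(n, d) ↦ (n/d, d)` is injective on the
pairs `n ∈ free`, `d | n`).
-/

set_option autoImplicit false

namespace Pool.Agent.MOM

open Finset

/-- The integers `1 ≤ n ≤ x` without prime factor in `[y, z)`. -/
noncomputable def free (y z x : ℝ) : Finset ℕ :=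
  (Finset.Ioc 0 ⌊x⌋₊).filter fun n => ∀ p ∈ prs y z, ¬ p ∣ n

theorem sieve_log : ∃ C : ℝ, 0 < C ∧ ∀ y z x : ℝ, 2 ≤ y → y ≤ z → z ≤ x →
    ((free y z x).card : ℝ) * Real.log x ≤ C * x * ∑ n ∈ free y z x, 1 / (n : ℝ) := by
  refine ⟨Real.log 4 + 5, by have := Real.log_nonneg (by norm_num : (1 : ℝ) ≤ 4); linarith, ?_⟩
  intro y z x hy hyz hzx
  have hx2 : 2 ≤ x := le_trans hy (le_trans hyz hzx)
  have hx0 : 0 < x := by linarith
  have hmem : ∀ n ∈ free y z x, 0 < n ∧ (n : ℝ) ≤ x := by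
    intro n hn
    have h1 := (Finset.mem_filter.1 hn).1
    rw [Finset.mem_Ioc] at h1
    exact ⟨h1.1, le_trans (by exact_mod_cast h1.2) (Nat.floor_le hx0.le)⟩
  -- pointwise bound
  have hA : ((free y z x).card : ℝ) * Real.log x
      ≤ ∑ n ∈ free y z x, (Real.log n + x * (1 / (n : ℝ))) := by
    rw [← nsmul_eq_mul, ← Finset.sum_const]
    refine Finset.sum_le_sum fun n hn => ?_
    obtain ⟨h0, h1⟩ := hmem n hn
    have h0' : (0 : ℝ) < n := by exact_mod_cast h0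
    have h2 : Real.log (x / n) ≤ x / n - 1 := Real.log_le_sub_one_of_pos (by positivity)
    rw [Real.log_div hx0.ne' h0'.ne'] at h2
    have h3 : x * (1 / (n : ℝ)) = x / n := by ring
    rw [h3]
    linarith
  rw [Finset.sum_add_distrib, ← Finset.mul_sum] at hA
  -- von Mangoldt
  have hB : ∑ n ∈ free y z x, Real.log n
      ≤ ∑ m ∈ free y z x, Chebyshev.psi (x / m) := by
    have h1 : ∑ n ∈ free y z x, Real.log n
        = ∑ n ∈ free y z x, ∑ d ∈ n.divisors, ArithmeticFunction.vonMangoldt d :=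
      Finset.sum_congr rfl fun n _ => ArithmeticFunction.vonMangoldt_sum.symm
    have h2 : ∀ m : ℕ, Chebyshev.psi (x / m)
        = ∑ d ∈ Finset.Ioc 0 ⌊x / (m : ℝ)⌋₊, ArithmeticFunction.vonMangoldt d := fun m => rfl
    rw [h1, Finset.sum_congr rfl fun m _ => h2 m, Finset.sum_sigma', Finset.sum_sigma']
    have hinj : Set.InjOn (fun p : (Σ _ : ℕ, ℕ) => (⟨p.1 / p.2, p.2⟩ : (Σ _ : ℕ, ℕ)))
        ((free y z x).sigma fun n => n.divisors : Finset (Σ _ : ℕ, ℕ)) := by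
      rintro ⟨n, d⟩ hp ⟨n', d'⟩ hp' he
      have hp1 := (Finset.mem_sigma.1 (Finset.mem_coe.1 hp)).2
      have hp2 := (Finset.mem_sigma.1 (Finset.mem_coe.1 hp')).2
      simp only [Nat.mem_divisors] at hp1 hp2
      simp only [Sigma.mk.injEq, heq_eq_eq] at he
      obtain ⟨he1, he2⟩ := he
      subst he2
      have h3 : n = n / d * d := (Nat.div_mul_cancel hp1.1).symm
      have h4 : n' = n' / d * d := (Nat.div_mul_cancel hp2.1).symm
      rw [← he1, ← h3] at h4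
      rw [h4]
    have h5 : ∑ p ∈ (free y z x).sigma fun n => n.divisors, ArithmeticFunction.vonMangoldt p.2
        = ∑ q ∈ ((free y z x).sigma fun n => n.divisors).image
            (fun p : (Σ _ : ℕ, ℕ) => (⟨p.1 / p.2, p.2⟩ : (Σ _ : ℕ, ℕ))),
          ArithmeticFunction.vonMangoldt q.2 := by
      rw [Finset.sum_image hinj]
    rw [h5]
    refine Finset.sum_le_sum_of_subset_of_nonneg ?_ fun _ _ _ =>
      ArithmeticFunction.vonMangoldt_nonneg
    intro q hq
    obtain ⟨⟨n, d⟩, hp, rfl⟩ := Finset.mem_image.1 hq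
    obtain ⟨hn, hd⟩ := Finset.mem_sigma.1 hp
    simp only at hn hd
    rw [Nat.mem_divisors] at hd
    obtain ⟨hd1, hd2⟩ := hd
    obtain ⟨h0, hnx⟩ := hmem n hn
    have hd0 : 0 < d := Nat.pos_of_dvd_of_pos hd1 h0
    have hq0 : 0 < n / d := Nat.div_pos (Nat.le_of_dvd h0 hd1) hd0
    have hmul : n / d * d = n := Nat.div_mul_cancel hd1
    have hmulR : ((n / d : ℕ) : ℝ) * (d : ℝ) = n := by exact_mod_cast hmul
    have hq0R : (0 : ℝ) < ((n / d : ℕ) : ℝ) := by exact_mod_cast hq0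
    rw [Finset.mem_sigma]
    refine ⟨?_, ?_⟩
    · simp only
      have hf := Finset.mem_filter.1 hn
      refine Finset.mem_filter.2 ⟨?_, fun p hp hpd => hf.2 p hp ?_⟩
      · rw [Finset.mem_Ioc]
        refine ⟨hq0, le_trans (Nat.div_le_self n d) (Finset.mem_Ioc.1 hf.1).2⟩
      · exact dvd_trans hpd (Nat.div_dvd_of_dvd hd1)
    · simp only
      rw [Finset.mem_Ioc]
      refine ⟨hd0, Nat.le_floor ?_⟩
      rw [le_div_iff₀ hq0R, mul_comm, hmulR]
      exact hnx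
  have hC : ∑ m ∈ free y z x, Chebyshev.psi (x / m)
      ≤ (Real.log 4 + 4) * x * ∑ n ∈ free y z x, 1 / (n : ℝ) := by
    rw [Finset.mul_sum]
    refine Finset.sum_le_sum fun m _ => ?_
    refine le_trans (Chebyshev.psi_le_const_mul_self (by positivity)) (le_of_eq ?_)
    ring
  have hD : (Real.log 4 + 5) * x * ∑ n ∈ free y z x, 1 / (n : ℝ)
      = (Real.log 4 + 4) * x * ∑ n ∈ free y z x, 1 / (n : ℝ)
        + x * ∑ n ∈ free y z x, 1 / (n : ℝ) := by ring
  rw [hD]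
  linarith

end Pool.Agent.MOM
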