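import Pool.Agent.MOM.NT.Mertens
import Pool.Agent.MOM.NT.SieveLog
import Pool.Agent.EG327.Mertens

/-!
MOM (MP_2b7f8f_an), tool N3, part 2.

PROOF of `sieve_harm`. Let `N = ⌊x⌋₊` and let `s` be the set of primes `p ≤ N` not in `prs y z`.
Every `n ∈ free y z x` is a product of primes of `s`: `n ∈ Nat.factoredNumbers s`. So
`∑_{n ∈ free y z x} 1/n ≤ ∑'_{m ∈ factoredNumbers s} 1/m = ∏_{p ∈ s} (1-1/p)^{-1}` (Mathlib
`EulerProduct.summable_and_hasSum_factoredNumbers_prod_filter_prime_geometric`; compare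
`Pool.Agent.EG327.log_le_prod` in Pool/Agent/EG327/Mertens.lean for the use with smooth numbers,
and
`sum_le_hasSum`). Further `(1-1/p)^{-1} = 1 + 1/(p-1) ≤ exp(1/(p-1)) = exp(1/p + 1/(p(p-1)))`, and
`∑_p 1/(p(p-1)) ≤ ∑_{k ≥ 2} 1/(k(k-1)) ≤ 1` (`Pool.Agent.EG327.sum_inv_mul_pred_le`), hence the
product is `≤ exp(1 + ∑_{p ≤ N} 1/p - qs (prs y z))` (all elements of `prs y z` are primes `≤ N`
except possibly none: `p < z ≤ x`). By `mertens_qs` with `y = 2`, `z = N + 1` (`≤ 2x`), or by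
`Pool.Agent.ExpSum.mP_le`: `∑_{p ≤ N} 1/p ≤ log log x + C`; by `mertens_qs`:
`qs (prs y z) ≥ log (log z/log y) - C/log y ≥ log(log z/log y) - C/log 2`. So the sum is
`≤ C' log x · (log y/log z)`.

`sieve_count` combines `sieve_log` and `sieve_harm` (`log x > 0` because `x ≥ 2`).
-/

set_option autoImplicit false

namespace Pool.Agent.MOM

open Finset

/-- The harmonic sum over integers composed of the primes of `s` is at most
`exp(1 + ∑_{p ∈ s} 1/p)`. -/
private theorem sieveHarm_euler (s F : Finset ℕ) (hs : ∀ p ∈ s, p.Prime)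
    (hF : ∀ n ∈ F, n ∈ Nat.factoredNumbers s) :
    ∑ n ∈ F, 1 / (n : ℝ) ≤ Real.exp (1 + ∑ p ∈ s, 1 / (p : ℝ)) := by
  have h := EulerProduct.summable_and_hasSum_factoredNumbers_prod_filter_prime_geometric
    (f := Pool.Agent.EG327.invHom) (by
      intro p hp
      simp only [Pool.Agent.EG327.invHom, MonoidHom.coe_mk, OneHom.coe_mk, norm_inv,
        Real.norm_natCast]
      have : (1 : ℝ) < p := by exact_mod_cast hp.one_lt
      exact inv_lt_one_of_one_lt₀ this) s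
  have h2 := h.2
  simp only [Pool.Agent.EG327.invHom, MonoidHom.coe_mk, OneHom.coe_mk] at h2
  rw [Finset.filter_true_of_mem hs] at h2
  let g : {x // x ∈ F} → Nat.factoredNumbers s := fun k => ⟨k.1, hF k.1 k.2⟩
  have hg : Function.Injective g := by
    intro a b hab
    simp only [g, Subtype.mk.injEq] at hab
    exact Subtype.ext hab
  have h3 := sum_le_hasSum (Finset.univ.map ⟨g, hg⟩) (fun i _ => by positivity) h2
  rw [Finset.sum_map] at h3
  simp only [Function.Embedding.coeFn_mk, g] at h3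
  have h4 : ∑ n ∈ F, 1 / (n : ℝ) ≤ ∏ p ∈ s, (1 - (p : ℝ)⁻¹)⁻¹ := by
    rw [← Finset.sum_coe_sort F]
    simpa only [one_div] using h3
  refine h4.trans ?_
  have h5 : ∀ p ∈ s, (1 - (p : ℝ)⁻¹)⁻¹ ≤
      Real.exp (1 / (p : ℝ) + 1 / ((p : ℝ) * ((p : ℝ) - 1))) := by
    intro p hp
    have h1 : (1 : ℝ) < p := by exact_mod_cast (hs p hp).one_lt
    have h6 : (p : ℝ) - 1 ≠ 0 := by linarith
    have h7 : (p : ℝ) ≠ 0 := by linarith
    have h8 : (1 - (p : ℝ)⁻¹)⁻¹ = 1 / (p : ℝ) + 1 / ((p : ℝ) * ((p : ℝ) - 1)) + 1 := by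
      have h9 : 1 - (p : ℝ)⁻¹ = (p - 1) / p := by field_simp
      rw [h9]
      field_simp
      ring
    rw [h8]
    exact Real.add_one_le_exp _
  have h6 : ∏ p ∈ s, (1 - (p : ℝ)⁻¹)⁻¹ ≤
      ∏ p ∈ s, Real.exp (1 / (p : ℝ) + 1 / ((p : ℝ) * ((p : ℝ) - 1))) := by
    refine Finset.prod_le_prod (fun p hp => ?_) h5
    have h1 : (1 : ℝ) < p := by exact_mod_cast (hs p hp).one_lt
    have h2 : (p : ℝ)⁻¹ < 1 := inv_lt_one_of_one_lt₀ h1
    exact (inv_pos.2 (by linarith)).le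
  refine h6.trans ?_
  rw [← Real.exp_sum, Finset.sum_add_distrib]
  refine Real.exp_le_exp.2 ?_
  have h7 : ∑ p ∈ s, (1 : ℝ) / (p * (p - 1)) ≤ 1 := by
    refine le_trans ?_ (Pool.Agent.EG327.sum_inv_mul_pred_le (s.sup id))
    refine Finset.sum_le_sum_of_subset_of_nonneg ?_ ?_
    · intro p hp
      rw [Finset.mem_Icc]
      exact ⟨(hs p hp).two_le, Finset.le_sup (f := id) hp⟩
    · intro k hk _
      rw [Finset.mem_Icc] at hk
      have h1 : (2 : ℝ) ≤ k := by exact_mod_cast hk.1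
      have h2 : 0 < (k : ℝ) - 1 := by linarith
      positivity
  linarith

theorem sieve_harm : ∃ C : ℝ, 0 < C ∧ ∀ y z x : ℝ, 2 ≤ y → y ≤ z → z ≤ x →
    ∑ n ∈ free y z x, 1 / (n : ℝ) ≤ C * Real.log x * (Real.log y / Real.log z) := by
  obtain ⟨C, hC0, hC⟩ := mertens_qs
  refine ⟨Real.exp (5 + C / Real.log 2), Real.exp_pos _, ?_⟩
  intro y z x hy hyz hzx
  have hl2 : 0 < Real.log 2 := Real.log_pos (by norm_num)
  have hly : Real.log 2 ≤ Real.log y := Real.log_le_log (by norm_num) hy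
  have hlz : Real.log y ≤ Real.log z := Real.log_le_log (by linarith) hyz
  have hlx : Real.log z ≤ Real.log x := Real.log_le_log (by linarith) hzx
  have hx0 : 0 ≤ x := by linarith
  have hN : 2 ≤ ⌊x⌋₊ := Nat.le_floor (by push_cast; linarith)
  have hNx : ((⌊x⌋₊ : ℕ) : ℝ) ≤ x := Nat.floor_le hx0
  have hNR : (2 : ℝ) ≤ ((⌊x⌋₊ : ℕ) : ℝ) := by exact_mod_cast hN
  -- the primes of `prs y z` are at most `N`
  have hsub : prs y z ⊆ (Finset.Ioc 0 ⌊x⌋₊).filter Nat.Prime := by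
    intro p hp
    rw [prs, Finset.mem_filter, Finset.mem_Ico] at hp
    rw [Finset.mem_filter, Finset.mem_Ioc]
    refine ⟨⟨hp.2.pos, Nat.le_floor ?_⟩, hp.2⟩
    exact ((Nat.lt_ceil.1 hp.1.2).trans_le hzx).le
  have h1 := sieveHarm_euler ((Finset.Ioc 0 ⌊x⌋₊).filter Nat.Prime \ prs y z) (free y z x)
    (fun p hp => (Finset.mem_filter.1 (Finset.mem_sdiff.1 hp).1).2) (by
      intro n hn
      have h2 := Finset.mem_filter.1 hn
      have h3 := Finset.mem_Ioc.1 h2.1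
      rw [Nat.mem_factoredNumbers']
      intro p hp hpn
      rw [Finset.mem_sdiff, Finset.mem_filter, Finset.mem_Ioc]
      exact ⟨⟨⟨hp.pos, (Nat.le_of_dvd h3.1 hpn).trans h3.2⟩, hp⟩,
        fun hmem => h2.2 p hmem hpn⟩)
  refine h1.trans ?_
  have h2 : ∑ p ∈ (Finset.Ioc 0 ⌊x⌋₊).filter Nat.Prime \ prs y z, 1 / (p : ℝ)
      = Pool.Agent.ExpSum.mP ⌊x⌋₊ - qs (prs y z) := by
    have h3 := Finset.sum_sdiff (f := fun p : ℕ => 1 / (p : ℝ)) hsub
    rw [Pool.Agent.ExpSum.mP, qs]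
    linarith
  rw [h2]
  have h3 := Pool.Agent.ExpSum.mP_le hN
  have h4 : Real.log (Real.log ((⌊x⌋₊ : ℕ) : ℝ)) ≤ Real.log (Real.log x) := by
    refine Real.log_le_log (Real.log_pos (by linarith)) (Real.log_le_log (by linarith) hNx)
  have h5 := (abs_le.1 (hC y z hy hyz)).1
  have h6 : C / Real.log y ≤ C / Real.log 2 := div_le_div_of_nonneg_left hC0 hl2 hly
  have h7 : Real.exp (5 + C / Real.log 2) * Real.log x * (Real.log y / Real.log z)
      = Real.exp (5 + C / Real.log 2 + Real.log (Real.log x)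
        - Real.log (Real.log z / Real.log y)) := by
    have hy0 : 0 < Real.log y := by linarith
    have hz0 : 0 < Real.log z := by linarith
    have hx1 : 0 < Real.log x := by linarith
    rw [Real.exp_sub, Real.exp_add (5 + C / Real.log 2) (Real.log (Real.log x)),
      Real.exp_log hx1, Real.exp_log (div_pos hz0 hy0)]
    rw [div_eq_mul_inv (Real.exp _ * _), inv_div]
  rw [h7]
  exact Real.exp_le_exp.2 (by linarith)

theorem sieve_count : ∃ C : ℝ, 0 < C ∧ ∀ y z x : ℝ, 2 ≤ y → y ≤ z → z ≤ x →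
    ((free y z x).card : ℝ) ≤ C * x * (Real.log y / Real.log z) := by
  obtain ⟨C₁, hC₁, h1⟩ := sieve_log
  obtain ⟨C₂, hC₂, h2⟩ := sieve_harm
  refine ⟨C₁ * C₂, by positivity, ?_⟩
  intro y z x hy hyz hzx
  have hlx : 0 < Real.log x := Real.log_pos (by linarith)
  have h3 := h1 y z x hy hyz hzx
  have h4 := h2 y z x hy hyz hzx
  have hx0 : 0 ≤ C₁ * x := mul_nonneg hC₁.le (by linarith)
  have h5 := h3.trans (mul_le_mul_of_nonneg_left h4 hx0)
  have h6 : C₁ * x * (C₂ * Real.log x * (Real.log y / Real.log z))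
      = C₁ * C₂ * x * (Real.log y / Real.log z) * Real.log x := by ring
  rw [h6] at h5
  exact le_of_mul_le_mul_right h5 hlx

end Pool.Agent.MOM
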