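import Pool.Agent.MOM.NT.SieveLog
import Pool.Agent.MOM.NT.SieveHarm

/-!
MOM (MP_2b7f8f_an), tool N3: upper bound sieve for integers free of the primes of `[y,z)`
(`free`, `sieve_log`, `sieve_harm`, `sieve_count`); see the imported files.
-/
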