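import Pool.Agent.MOM.NT.VdCIneq

/-!
MOM (MP_2b7f8f_an), tool N5, part 2b: van der Corput differencing with shifts `< Q`, iterated.

PROOF of `vdc_iter`, induction on `J` (`J = 0`: the sum over `Fin 0 → ℕ` has one term, `C = 1`).
Write `x(f,M') = |∑_{n<M'} e(f n)|/M`. By `vdc_ineq`
`x² ≤ 2/Q + 4 (1/Q) ∑_{1≤h<Q} x(Δ_h f, M'-h)`, `Δ_h f n = f (n+h) - f n`. Hence, with
`(u+v)^N ≤ 2^N(u^N + v^N)` (`u, v ≥ 0`, Mathlib `add_pow_le`), `N = 2^J`, and the power mean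
inequality
`((1/Q)∑_{h} x_h)^N ≤ (1/Q) ∑_h x_h^N` (`Q - 1 ≤ Q` terms; Mathlib
`Real.pow_arith_mean_le_arith_mean_pow` or `inner_le_nnorm_mul_nnorm`,
`Real.pow_sum_div_card_le_sum_pow`;
add a zero term for `h = 0`, i.e. use `range Q` with `x_0 := 0`),
`x^{2^{J+1}} = (x²)^N ≤ 2^N((2/Q)^N + 4^N (1/Q) ∑_h x_h^N)`, `(2/Q)^N ≤ 2^N/Q`, and the induction
hypothesis for each `Δ_h f`, `M'-h ≤ M`:
`x_h^N ≤ C (1/Q + Q^{-J} ∑_{h'} |∑_{n < M'-h-∑h'} e(itD J h' (Δ_h f) n)|/M)`. Fewer than `Q`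
values `h`.
Sums over `Fin (J+1) → ℕ` split by `Fin.consEquiv`/`Fin.cons` (`Fintype.piFinset`,
`Fin.cons_injective2`, `Fin.tail_cons`, `Fin.sum_univ_succ`; `M'-h-∑h' = M'-(h+∑h')`,
`Nat.sub_sub`); only `≤` is needed (all terms are `≥ 0`).
-/

set_option autoImplicit false

namespace Pool.Agent.MOM

open Finset Pool.Agent.ExpSum

/-- Iterated differences: `itD (J+1) h f = itD J (h 1, .., h J) (fun n => f (n + h 0) - f n)`. -/
def itD : (J : ℕ) → (Fin J → ℕ) → (ℕ → ℝ) → ℕ → ℝ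
  | 0, _, f => f
  | J + 1, h, f => itD J (Fin.tail h) (fun n => f (n + h 0) - f n)

/-- the sum over `Fin (J + 1) → ℕ` -/
private theorem vdc_split (J : ℕ) (f : ℕ → ℝ) (M Q M' : ℕ) :
    ∑ h ∈ Fintype.piFinset (fun _ : Fin (J + 1) => Ico 1 Q),
        ‖∑ n ∈ range (M' - ∑ i, h i), e (itD (J + 1) h f n)‖ / (M : ℝ) =
      ∑ a ∈ Ico 1 Q, ∑ h ∈ Fintype.piFinset (fun _ : Fin J => Ico 1 Q),
        ‖∑ n ∈ range (M' - a - ∑ i, h i), e (itD J h (fun n => f (n + a) - f n) n)‖ /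
          (M : ℝ) := by
  rw [← Finset.sum_product']
  refine Finset.sum_nbij' (fun h => (h 0, Fin.tail h)) (fun p => Fin.cons p.1 p.2)
    ?_ ?_ ?_ ?_ ?_
  · intro h hh
    rw [Fintype.mem_piFinset] at hh
    rw [Finset.mem_product, Fintype.mem_piFinset]
    exact ⟨hh 0, fun i => hh i.succ⟩
  · intro p hp
    rw [Finset.mem_product, Fintype.mem_piFinset] at hp
    rw [Fintype.mem_piFinset]
    intro i
    refine Fin.cases ?_ (fun j => ?_) i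
    · exact hp.1
    · exact hp.2 j
  · intro h _
    exact Fin.cons_self_tail h
  · intro p _
    exact Prod.ext rfl (funext fun i => rfl)
  · intro h _
    rw [Fin.sum_univ_succ, Nat.sub_sub]
    rfl

/-- power mean inequality -/
private theorem vdc_pm (y : ℕ → ℝ) (hy : ∀ a, 0 ≤ y a) (Q N : ℕ) (hQ : 1 ≤ Q) (hN : N ≠ 0) :
    ((∑ a ∈ Ico 1 Q, y a) / Q) ^ N ≤ (∑ a ∈ Ico 1 Q, y a ^ N) / Q := by
  have hQ0 : (Q : ℝ) ≠ 0 := by
    have : 0 < Q := hQ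
    exact_mod_cast this.ne'
  set z : ℕ → ℝ := fun a => if a = 0 then 0 else y a with hz
  have hz0 : ∀ a ∈ range Q, 0 ≤ z a := by
    intro a _
    rw [hz]
    dsimp only
    split_ifs
    · exact le_rfl
    · exact hy a
  have hsub : Ico 1 Q ⊆ range Q := by
    intro a ha
    rw [mem_Ico] at ha
    exact mem_range.2 ha.2
  have hout : ∀ a ∈ range Q, a ∉ Ico 1 Q → a = 0 := by
    intro a ha hn
    rw [mem_Ico] at hn
    rw [mem_range] at ha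
    omega
  have e1 : ∑ a ∈ range Q, 1 / (Q : ℝ) * z a = (∑ a ∈ Ico 1 Q, y a) / Q := by
    rw [← Finset.mul_sum, ← Finset.sum_subset hsub (f := z)]
    · rw [one_div, inv_mul_eq_div]
      congr 1
      refine Finset.sum_congr rfl fun a ha => ?_
      rw [mem_Ico] at ha
      rw [hz]
      dsimp only
      rw [if_neg (by omega)]
    · intro a ha hn
      rw [hout a ha hn, hz]
      simp
  have e2 : ∑ a ∈ range Q, 1 / (Q : ℝ) * z a ^ N = (∑ a ∈ Ico 1 Q, y a ^ N) / Q := by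
    rw [← Finset.mul_sum, ← Finset.sum_subset hsub (f := fun a => z a ^ N)]
    · rw [one_div, inv_mul_eq_div]
      congr 1
      refine Finset.sum_congr rfl fun a ha => ?_
      rw [mem_Ico] at ha
      rw [hz]
      dsimp only
      rw [if_neg (by omega)]
    · intro a ha hn
      rw [hout a ha hn, hz]
      simp [hN]
  have h := Real.pow_arith_mean_le_arith_mean_pow (range Q) (fun _ => 1 / (Q : ℝ)) z
    (fun _ _ => by positivity) (by
      rw [Finset.sum_const, card_range, nsmul_eq_mul]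
      field_simp) hz0 N
  rw [e1, e2] at h
  exact h

private theorem vdc_arith {x A C q R : ℝ} {N : ℕ} (hN : N ≠ 0) (_ : 0 ≤ x) (hA : 0 ≤ A)
    (hq : 1 ≤ q) (hR : 0 ≤ R) (h1 : x ^ 2 ≤ 2 / q + 4 * A)
    (h5 : A ^ N ≤ C * (1 / q + R)) :
    (x ^ 2) ^ N ≤ 2 ^ (N - 1) * (2 ^ N + 4 ^ N * C) * (1 / q + R) := by
  have hq0 : 0 < q := by linarith
  have h6 : ((2 : ℝ) / q) ^ N ≤ 2 ^ N * (1 / q) := by
    rw [div_eq_mul_one_div, mul_pow]
    have h7 : ((1 : ℝ) / q) ^ N ≤ (1 / q) ^ 1 :=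
      pow_le_pow_of_le_one (by positivity) (by rw [div_le_one hq0]; exact hq)
        (Nat.one_le_iff_ne_zero.2 hN)
    rw [pow_one] at h7
    exact mul_le_mul_of_nonneg_left h7 (by positivity)
  have h7 : (x ^ 2) ^ N ≤ (2 / q + 4 * A) ^ N := pow_le_pow_left₀ (by positivity) h1 N
  have h8 : (2 / q + 4 * A) ^ N ≤ 2 ^ (N - 1) * ((2 / q) ^ N + (4 * A) ^ N) :=
    add_pow_le (by positivity) (by positivity) N
  have h9 : (4 * A) ^ N ≤ 4 ^ N * (C * (1 / q + R)) := by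
    rw [mul_pow]
    exact mul_le_mul_of_nonneg_left h5 (by positivity)
  have h10 : (2 : ℝ) ^ N * (1 / q) ≤ 2 ^ N * (1 / q + R) :=
    mul_le_mul_of_nonneg_left (by linarith) (by positivity)
  have h11 : (2 : ℝ) ^ (N - 1) * ((2 / q) ^ N + (4 * A) ^ N) ≤
      2 ^ (N - 1) * (2 ^ N * (1 / q + R) + 4 ^ N * (C * (1 / q + R))) :=
    mul_le_mul_of_nonneg_left (by linarith) (by positivity)
  refine (h7.trans (h8.trans h11)).trans (le_of_eq ?_)
  generalize (2 : ℝ) ^ (N - 1) = u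
  generalize (2 : ℝ) ^ N = v
  generalize (4 : ℝ) ^ N = w
  ring

private theorem vdc_sum {y T : ℕ → ℝ} {C : ℝ} {Q N J : ℕ} (hQ : 1 ≤ Q) (hN : N ≠ 0)
    (hy : ∀ a, 0 ≤ y a) (hC : 0 < C)
    (h3 : ∀ a ∈ Ico 1 Q, y a ^ N ≤ C * (1 / (Q : ℝ) + 1 / (Q : ℝ) ^ J * T a)) :
    ((∑ a ∈ Ico 1 Q, y a) / Q) ^ N ≤
      C * (1 / (Q : ℝ) + 1 / (Q : ℝ) ^ (J + 1) * ∑ a ∈ Ico 1 Q, T a) := by
  have hQ1 : (1 : ℝ) ≤ Q := by exact_mod_cast hQ
  have hQ0 : (0 : ℝ) < Q := by linarith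
  have h4 : ∑ a ∈ Ico 1 Q, y a ^ N ≤ C * (1 + 1 / (Q : ℝ) ^ J * ∑ a ∈ Ico 1 Q, T a) := by
    refine (Finset.sum_le_sum h3).trans ?_
    rw [← Finset.mul_sum, Finset.sum_add_distrib, ← Finset.mul_sum, Finset.sum_const,
      Nat.card_Ico, nsmul_eq_mul]
    have h5 : ((Q - 1 : ℕ) : ℝ) * (1 / (Q : ℝ)) ≤ 1 := by
      rw [mul_one_div, div_le_one hQ0]
      exact_mod_cast Nat.sub_le Q 1
    exact mul_le_mul_of_nonneg_left (by linarith) hC.le
  refine (vdc_pm y hy Q N hQ hN).trans ?_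
  rw [div_le_iff₀ hQ0]
  refine h4.trans (le_of_eq ?_)
  have e1 : 1 / (Q : ℝ) * Q = 1 := by field_simp
  have e2 : 1 / (Q : ℝ) ^ (J + 1) * Q = 1 / (Q : ℝ) ^ J := by
    rw [pow_succ]
    field_simp
  calc C * (1 + 1 / (Q : ℝ) ^ J * ∑ a ∈ Ico 1 Q, T a) =
      C * (1 / (Q : ℝ) * Q + (1 / (Q : ℝ) ^ (J + 1) * Q) * ∑ a ∈ Ico 1 Q, T a) := by rw [e1, e2]
    _ = C * (1 / (Q : ℝ) + 1 / (Q : ℝ) ^ (J + 1) * ∑ a ∈ Ico 1 Q, T a) * Q := by ring

theorem vdc_iter (J : ℕ) : ∃ C : ℝ, 0 < C ∧ ∀ (f : ℕ → ℝ) (M Q M' : ℕ), 1 ≤ Q → Q ≤ M →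
    M' ≤ M → (‖∑ n ∈ range M', e (f n)‖ / M) ^ (2 ^ J) ≤
      C * (1 / (Q : ℝ) + 1 / (Q : ℝ) ^ J * ∑ h ∈ Fintype.piFinset (fun _ : Fin J => Ico 1 Q),
        ‖∑ n ∈ range (M' - ∑ i, h i), e (itD J h f n)‖ / M) := by
  induction J with
  | zero =>
    refine ⟨1, one_pos, fun f M Q M' hQ hQM hM => ?_⟩
    have h1 : Fintype.piFinset (fun _ : Fin 0 => Ico 1 Q) = {fun i => i.elim0} := by
      ext h
      simp only [Fintype.mem_piFinset, Finset.mem_singleton]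
      exact ⟨fun _ => funext fun i => i.elim0, fun _ i => i.elim0⟩
    rw [h1, Finset.sum_singleton]
    have h2 : (0 : ℝ) ≤ 1 / (Q : ℝ) := by positivity
    simp only [pow_zero, pow_one, div_one, one_mul, Finset.univ_eq_empty, Finset.sum_empty,
      Nat.sub_zero, itD]
    linarith
  | succ J ih =>
    obtain ⟨C, hC, ih⟩ := ih
    obtain ⟨N, hN⟩ : ∃ N : ℕ, 2 ^ J = N := ⟨_, rfl⟩
    have hN0 : N ≠ 0 := by
      rw [← hN]
      positivity
    rw [hN] at ih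
    refine ⟨2 ^ (N - 1) * (2 ^ N + 4 ^ N * C), by positivity, fun f M Q M' hQ hQM hM => ?_⟩
    have hQ1 : (1 : ℝ) ≤ Q := by exact_mod_cast hQ
    have hQ0 : (0 : ℝ) < Q := by linarith
    have hM0 : (0 : ℝ) < M := by
      have : 0 < M := lt_of_lt_of_le hQ hQM
      exact_mod_cast this
    rw [vdc_split, pow_succ, hN, mul_comm N 2, pow_mul]
    have hsum := vdc_sum (J := J)
      (y := fun a => ‖∑ n ∈ range (M' - a), e (f (n + a) - f n)‖ / (M : ℝ))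
      (T := fun a => ∑ h ∈ Fintype.piFinset (fun _ : Fin J => Ico 1 Q),
        ‖∑ n ∈ range (M' - a - ∑ i, h i), e (itD J h (fun n => f (n + a) - f n) n)‖ /
          (M : ℝ)) hQ hN0 (fun a => div_nonneg (norm_nonneg _) hM0.le) hC
      (fun a _ => ih (fun n => f (n + a) - f n) M Q (M' - a) hQ hQM
        ((Nat.sub_le _ _).trans hM))
    refine vdc_arith hN0 (div_nonneg (norm_nonneg _) hM0.le)
      (div_nonneg (Finset.sum_nonneg fun a _ => div_nonneg (norm_nonneg _) hM0.le) hQ0.le) hQ1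
      (mul_nonneg (by positivity) (Finset.sum_nonneg fun a _ => Finset.sum_nonneg fun h _ =>
        div_nonneg (norm_nonneg _) hM0.le)) ?_ hsum
    have h2 := vdc_ineq f M Q M' hQ hQM hM
    rw [← Finset.sum_div, div_pow, div_le_iff₀ (by positivity)]
    refine h2.trans (le_of_eq ?_)
    generalize ∑ h ∈ Ico 1 Q, ‖∑ n ∈ range (M' - h), e (f (n + h) - f n)‖ = W
    field_simp

end Pool.Agent.MOM
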