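import Pool.Agent.MOM.Defs
import Pool.Agent.ExpSum.Weyl

/-!
MOM (MP_2b7f8f_an), tool N5, part 2a: van der Corput's inequality with shifts `< Q`.

PROOF of `vdc_ineq`. Put `z n = e(f n)` for `n < M'` and `z n = 0` otherwise (a function on `ℤ`, or
work with natural indices shifted by `Q - 1`). Then
`Q ∑ z = ∑_{m} ∑_{k < Q} z(m+k)`, where `m` runs from `-(Q-1)` to `M'-1` (at most `M' + Q ≤ 2M`
values), so by Cauchy-Schwarz (`sq_sum_le_card_mul_sum_sq`)
`Q² |∑ z|² ≤ 2M ∑_m |∑_{k<Q} z(m+k)|² = 2M ∑_{k,l<Q} ∑_m z(m+k) conj z(m+l)`. The pairs `k = l`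
contribute `2M Q ∑|z|² ≤ 2M·Q·M`; the pair `k ≠ l` with `h = |k-l| ∈ [1,Q)` contributes
`∑_n z(n+h) conj z(n)` or its complex conjugate, of absolute value
`|∑_{n < M'-h} e(f(n+h)-f(n))|` (`Pool.Agent.ExpSum.e_sub`), and every `h` occurs for `2(Q-h) ≤ 2Q`
pairs. Total `≤ 2M (Q M + 2Q ∑_{1≤h<Q} |∑_{n < M'-h} e(f(n+h)-f(n))|)`; divide by `Q²`.
-/

set_option autoImplicit false

namespace Pool.Agent.MOM

open Finset Pool.Agent.ExpSum

/-- the window sums -/
private noncomputable def vW (z : ℕ → ℂ) (M' Q : ℕ) (m : ℕ) : ℂ :=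
  ∑ k ∈ range Q, ∑ n ∈ range M', if n + k = m then z n else 0

private lemma vW_sum (z : ℕ → ℂ) (M' Q : ℕ) (g : ℕ → ℂ) :
    ∑ m ∈ range (M' + Q), vW z M' Q m * g m =
      ∑ k ∈ range Q, ∑ n ∈ range M', z n * g (n + k) := by
  simp only [vW, sum_mul]
  rw [sum_comm]
  refine sum_congr rfl fun k hk => ?_
  rw [sum_comm]
  refine sum_congr rfl fun n hn => ?_
  rw [sum_eq_single (n + k)]
  · rw [if_pos rfl]
  · intro m _ hm
    rw [if_neg (Ne.symm hm), zero_mul]
  · intro h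
    have h1 := mem_range.1 hk
    have h2 := mem_range.1 hn
    exact absurd (mem_range.2 (by omega)) h

/-- the correlations -/
private noncomputable def vU (z : ℕ → ℂ) (M' : ℕ) (k l : ℕ) : ℂ :=
  ∑ n ∈ range M', ∑ n' ∈ range M',
    if n' + l = n + k then z n * (starRingEnd ℂ) (z n') else 0

private lemma vW_sq (z : ℕ → ℂ) (M' Q : ℕ) :
    ∑ m ∈ range (M' + Q), vW z M' Q m * (starRingEnd ℂ) (vW z M' Q m) =
      ∑ k ∈ range Q, ∑ l ∈ range Q, vU z M' k l := by
  rw [vW_sum z M' Q (fun m => (starRingEnd ℂ) (vW z M' Q m))]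
  refine sum_congr rfl fun k _ => ?_
  simp only [vU]
  rw [sum_comm (s := range Q)]
  refine sum_congr rfl fun n _ => ?_
  simp only [vW, map_sum, mul_sum]
  refine sum_congr rfl fun l _ => ?_
  refine sum_congr rfl fun n' _ => ?_
  split_ifs
  · rfl
  · rw [map_zero, mul_zero]

private lemma vU_le (z : ℕ → ℂ) (M' : ℕ) {k l : ℕ} (h : l ≤ k) :
    vU z M' k l = (starRingEnd ℂ)
      (∑ n ∈ range (M' - (k - l)), z (n + (k - l)) * (starRingEnd ℂ) (z n)) := by
  have h1 : ∀ n ∈ range M', (∑ n' ∈ range M',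
      if n' + l = n + k then z n * (starRingEnd ℂ) (z n') else 0) =
      if n + (k - l) < M' then z n * (starRingEnd ℂ) (z (n + (k - l))) else 0 := by
    intro n _
    split_ifs with h2
    · rw [sum_eq_single (n + (k - l))]
      · rw [if_pos (by omega)]
      · intro n' _ hn'
        rw [if_neg (by omega)]
      · intro h3
        exact absurd (mem_range.2 h2) h3
    · refine sum_eq_zero fun n' hn' => ?_
      have h3 := mem_range.1 hn'
      rw [if_neg (by omega)]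
  rw [vU, sum_congr rfl h1, ← sum_filter]
  have h4 : (range M').filter (fun n => n + (k - l) < M') = range (M' - (k - l)) := by
    ext n
    simp only [mem_filter, mem_range]
    omega
  rw [h4, map_sum]
  refine sum_congr rfl fun n _ => ?_
  rw [map_mul, Complex.conj_conj, mul_comm]

private lemma vU_conj (z : ℕ → ℂ) (M' : ℕ) (k l : ℕ) :
    vU z M' k l = (starRingEnd ℂ) (vU z M' l k) := by
  rw [vU, vU, sum_comm]
  simp only [map_sum]
  refine sum_congr rfl fun n _ => ?_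
  refine sum_congr rfl fun n' _ => ?_
  by_cases h : n + l = n' + k
  · rw [if_pos h, if_pos h.symm, map_mul, Complex.conj_conj, mul_comm]
  · rw [if_neg h, if_neg (fun h' => h h'.symm), map_zero]

private lemma sum_inj_le {A B : Finset ℕ} {φ : ℕ → ℕ} (F : ℕ → ℝ) (hF : ∀ h, 0 ≤ F h)
    (hφ : ∀ a ∈ A, φ a ∈ B) (hinj : ∀ a ∈ A, ∀ b ∈ A, φ a = φ b → a = b) :
    ∑ a ∈ A, F (φ a) ≤ ∑ b ∈ B, F b := by
  rw [← sum_image (f := F) (g := φ) (fun a ha b hb h => hinj a ha b hb h)]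
  exact sum_le_sum_of_subset_of_nonneg (image_subset_iff.2 hφ) (fun _ _ _ => hF _)

theorem vdc_ineq (f : ℕ → ℝ) (M Q M' : ℕ) (hQ : 1 ≤ Q) (hQM : Q ≤ M) (hM : M' ≤ M) :
    ‖∑ n ∈ range M', e (f n)‖ ^ 2 ≤ 2 * (M : ℝ) ^ 2 / Q +
      4 * M / Q * ∑ h ∈ Ico 1 Q, ‖∑ n ∈ range (M' - h), e (f (n + h) - f n)‖ := by
  set z : ℕ → ℂ := fun n => e (f n) with hz
  set F : ℕ → ℝ := fun h => ‖∑ n ∈ range (M' - h), e (f (n + h) - f n)‖ with hF
  set H : ℝ := ∑ h ∈ Ico 1 Q, F h with hH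
  have hF0 : ∀ h, 0 ≤ F h := fun h => norm_nonneg _
  have hFe : ∀ h, F h = ‖∑ n ∈ range (M' - h), z (n + h) * (starRingEnd ℂ) (z n)‖ := by
    intro h
    simp only [hF, hz, e_sub]
  have hU : ∀ k l, l ≤ k → ‖vU z M' k l‖ = F (k - l) := by
    intro k l hkl
    rw [vU_le z M' hkl, RCLike.norm_conj, hFe]
  have hU' : ∀ k l, k ≤ l → ‖vU z M' k l‖ = F (l - k) := by
    intro k l hkl
    rw [vU_conj, RCLike.norm_conj, hU l k hkl]
  have hF00 : F 0 ≤ M := by
    have h1 : F 0 ≤ ∑ n ∈ range (M' - 0), ‖e (f (n + 0) - f n)‖ := norm_sum_le _ _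
    refine h1.trans ?_
    simp only [norm_e, sum_const, card_range, nsmul_eq_mul, mul_one, Nat.sub_zero]
    exact_mod_cast hM
  -- one row
  have hrow : ∀ k ∈ range Q, ∑ l ∈ range Q, ‖vU z M' k l‖ ≤ M + 2 * H := by
    intro k hk
    have hk' := mem_range.1 hk
    have e1 : ∀ l ∈ range Q, ‖vU z M' k l‖ =
        ((if l < k then F (k - l) else 0) + (if l = k then F 0 else 0)) +
          (if k < l then F (l - k) else 0) := by
      intro l _
      rcases lt_trichotomy l k with h | h | h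
      · rw [if_pos h, if_neg (by omega), if_neg (by omega), hU k l h.le]
        ring
      · subst h
        rw [if_neg (lt_irrefl l), if_pos rfl, hU l l le_rfl, Nat.sub_self]
        ring
      · rw [if_neg (by omega), if_neg (by omega), if_pos h, hU' k l h.le]
        ring
    rw [sum_congr rfl e1, sum_add_distrib, sum_add_distrib]
    have e2 : ∑ l ∈ range Q, (if l < k then F (k - l) else 0) ≤ H := by
      rw [← sum_filter]
      refine sum_inj_le F hF0 (fun a ha => ?_) (fun a ha b hb h => ?_)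
      · have h1 := (mem_filter.1 ha).2
        rw [mem_Ico]
        omega
      · have h1 := (mem_filter.1 ha).2
        have h2 := (mem_filter.1 hb).2
        omega
    have e3 : ∑ l ∈ range Q, (if l = k then F 0 else 0) ≤ M := by
      rw [sum_ite_eq' (range Q) k (fun _ => F 0), if_pos hk]
      exact hF00
    have e4 : ∑ l ∈ range Q, (if k < l then F (l - k) else 0) ≤ H := by
      rw [← sum_filter]
      refine sum_inj_le F hF0 (fun a ha => ?_) (fun a ha b hb h => ?_)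
      · have h1 := mem_filter.1 ha
        have h2 := mem_range.1 h1.1
        rw [mem_Ico]
        omega
      · have h1 := (mem_filter.1 ha).2
        have h2 := (mem_filter.1 hb).2
        omega
    linarith
  -- the second moment
  have hsq : ∑ m ∈ range (M' + Q), ‖vW z M' Q m‖ ^ 2 ≤ Q * (M + 2 * H) := by
    have h1 : ((∑ m ∈ range (M' + Q), ‖vW z M' Q m‖ ^ 2 : ℝ) : ℂ) =
        ∑ k ∈ range Q, ∑ l ∈ range Q, vU z M' k l := by
      rw [← vW_sq]
      push_cast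
      refine sum_congr rfl fun m _ => ?_
      rw [Complex.mul_conj']
    have h2 : ∑ m ∈ range (M' + Q), ‖vW z M' Q m‖ ^ 2 =
        ‖∑ k ∈ range Q, ∑ l ∈ range Q, vU z M' k l‖ := by
      rw [← h1, Complex.norm_real, Real.norm_of_nonneg]
      exact sum_nonneg fun m _ => sq_nonneg _
    rw [h2]
    calc ‖∑ k ∈ range Q, ∑ l ∈ range Q, vU z M' k l‖
        ≤ ∑ k ∈ range Q, ‖∑ l ∈ range Q, vU z M' k l‖ := norm_sum_le _ _
      _ ≤ ∑ k ∈ range Q, ∑ l ∈ range Q, ‖vU z M' k l‖ :=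
          sum_le_sum fun k _ => norm_sum_le _ _
      _ ≤ ∑ _k ∈ range Q, ((M : ℝ) + 2 * H) := sum_le_sum hrow
      _ = Q * (M + 2 * H) := by rw [sum_const, card_range, nsmul_eq_mul]
  -- the first moment
  have hfirst : ∑ m ∈ range (M' + Q), vW z M' Q m = (Q : ℂ) * ∑ n ∈ range M', z n := by
    have h1 := vW_sum z M' Q (fun _ => 1)
    simp only [mul_one] at h1
    rw [h1, sum_const, card_range, nsmul_eq_mul]
  have hCS : ((Q : ℝ) * ‖∑ n ∈ range M', z n‖) ^ 2 ≤
      ((M' + Q : ℕ) : ℝ) * ∑ m ∈ range (M' + Q), ‖vW z M' Q m‖ ^ 2 := by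
    have h1 : (Q : ℝ) * ‖∑ n ∈ range M', z n‖ ≤ ∑ m ∈ range (M' + Q), ‖vW z M' Q m‖ := by
      calc (Q : ℝ) * ‖∑ n ∈ range M', z n‖ = ‖∑ m ∈ range (M' + Q), vW z M' Q m‖ := by
            rw [hfirst, norm_mul, Complex.norm_natCast]
        _ ≤ _ := norm_sum_le _ _
    have h2 := sq_sum_le_card_mul_sum_sq (s := range (M' + Q)) (f := fun m => ‖vW z M' Q m‖)
    rw [card_range] at h2
    refine le_trans ?_ h2
    exact pow_le_pow_left₀ (by positivity) h1 2
  have hQ0 : (0 : ℝ) < Q := by exact_mod_cast hQ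
  have hH0 : 0 ≤ H := sum_nonneg fun h _ => hF0 h
  have hcard : ((M' + Q : ℕ) : ℝ) ≤ 2 * M := by
    have : M' + Q ≤ 2 * M := by omega
    exact_mod_cast this
  have hfin : ((Q : ℝ) * ‖∑ n ∈ range M', z n‖) ^ 2 ≤ 2 * M * (Q * (M + 2 * H)) := by
    refine hCS.trans ?_
    refine mul_le_mul hcard hsq (sum_nonneg fun m _ => sq_nonneg _) (by positivity)
  have hgoal : ‖∑ n ∈ range M', z n‖ ^ 2 * (Q : ℝ) ≤ 2 * M * (M + 2 * H) := by
    have h3 : (‖∑ n ∈ range M', z n‖ ^ 2 * (Q : ℝ)) * Q ≤ (2 * M * (M + 2 * H)) * Q := by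
      calc (‖∑ n ∈ range M', z n‖ ^ 2 * (Q : ℝ)) * Q =
            ((Q : ℝ) * ‖∑ n ∈ range M', z n‖) ^ 2 := by ring
        _ ≤ 2 * M * (Q * (M + 2 * H)) := hfin
        _ = (2 * M * (M + 2 * H)) * Q := by ring
    exact le_of_mul_le_mul_right h3 hQ0
  have hres : ‖∑ n ∈ range M', z n‖ ^ 2 ≤ (2 * M * (M + 2 * H)) / Q := by
    rw [le_div_iff₀ hQ0]
    exact hgoal
  refine hres.trans (le_of_eq ?_)
  field_simp
  ring

end Pool.Agent.MOM
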