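import Pool.Agent.MOM.NT.KL
import Pool.Agent.MOM.NT.Phase

/-!
MOM (MP_2b7f8f_an), tool N5, part 4a: one step of the power saving for `∑_{n ∈ I} n^{-iτ}` with a
fixed number `J` of differencings.

`ph τ m = exp(-iτ log m) = e(θ log m)`, `θ = -τ/(2π)` (`Pool.Agent.ExpSum.e`).

PROOF of `weyl_J`. Put `f n = θ log(a+n)`, `M1 = ⌈M⌉₊ ≤ 2M`; `M' = b - a ≤ M1` (if `b ≤ a` the sum
is
empty). `∑_{n ∈ Ico a b} ph τ n = ∑_{n < M'} e(f n)`. Use `vdc_iter J` with `M1`, `Q`, `M'`. For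
`h` with `1 ≤ h i < Q` and `g n = itD J h f n = θ L(a+n)`, `L = itR J h Real.log` (`itD_eq_itR`;
`itR J h (fun x => θ * φ x) x = θ * itR J h φ x` by induction on `J`), the differences
`g (n+1) - g n = θ (L(x+1) - L(x))`, `x = a + n`, have the constant sign of `(-1)^J θ`, are
monotone in
`n` (`phase_anti`) and satisfy (`phase_upper`, `phase_lower`, `x ≥ M`, `∏ h ≤ Q^J`, and
`x + ∑h + 1 ≤ 2M + J Q + 1 ≤ (2J+4) M` because `Q ≤ M1 ≤ 2M`)
`|θ| J! ∏h/((2J+4) M)^{J+1} ≤ |g (n+1) - g n| ≤ |θ| J! Q^J/M^{J+1} ≤ 1/2` (`hQ`). By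
`kusmin_landau` or `kusmin_landau_neg` (according to the sign),
`|∑_{n < M'-∑h} e(g n)| ≤ 2 ((2J+4)M)^{J+1}/(|θ| J! ∏h)`. Finally
`∑_h 1/∏h = (∑_{1≤h<Q} 1/h)^J ≤ (1 + log Q)^J` (`Finset.prod_univ_sum` /
`Finset.sum_prod_piFinset`,
`harmonic_le_one_add_log`), and `M1 ≥ M`, so
`(|S|/M1)^{2^J} ≤ C (1/Q + Q^{-J} · C_J M^J |τ|^{-1} (1+log Q)^J)`, and `|S|/(2M) ≤ |S|/M1`.
-/

set_option autoImplicit false

namespace Pool.Agent.MOM

open Finset Pool.Agent.ExpSum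

private theorem weylA_itR_mul (J : ℕ) (h : Fin J → ℕ) (θ : ℝ) (φ : ℝ → ℝ) (x : ℝ) :
    itR J h (fun y => θ * φ y) x = θ * itR J h φ x := by
  induction J generalizing φ with
  | zero => rfl
  | succ J ih =>
    simp only [itR]
    rw [← ih]
    congr 1
    funext y
    ring

private theorem weylA_ph (τ : ℝ) (a n : ℕ) :
    ph τ (a + n) = e (-τ / (2 * Real.pi) * Real.log ((a : ℝ) + n)) := by
  unfold ph e
  congr 1
  rw [mul_comm]
  congr 2
  push_cast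
  have hpi := Real.pi_pos.ne'
  field_simp

private theorem weylA_harm (Q : ℕ) :
    ∑ k ∈ Ico 1 Q, 1 / (k : ℝ) ≤ 1 + Real.log Q := by
  have h1 : ((harmonic Q : ℚ) : ℝ) = ∑ k ∈ Icc 1 Q, 1 / (k : ℝ) := by
    rw [harmonic_eq_sum_Icc]
    push_cast
    refine Finset.sum_congr rfl ?_
    intro k _
    rw [one_div]
  calc ∑ k ∈ Ico 1 Q, 1 / (k : ℝ) ≤ ∑ k ∈ Icc 1 Q, 1 / (k : ℝ) := by
        refine Finset.sum_le_sum_of_subset_of_nonneg ?_ ?_
        · intro k hk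
          rw [Finset.mem_Ico] at hk
          rw [Finset.mem_Icc]
          omega
        · intro k _ _
          positivity
    _ = ((harmonic Q : ℚ) : ℝ) := h1.symm
    _ ≤ 1 + Real.log Q := harmonic_le_one_add_log Q

private theorem weylA_sum (J Q : ℕ) :
    ∑ h ∈ Fintype.piFinset (fun _ : Fin J => Ico 1 Q), 1 / (∏ i, (h i : ℝ)) ≤
      (1 + Real.log Q) ^ J := by
  have h1 : ∑ h ∈ Fintype.piFinset (fun _ : Fin J => Ico 1 Q), 1 / (∏ i, (h i : ℝ)) =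
      (∑ k ∈ Ico 1 Q, 1 / (k : ℝ)) ^ J := by
    have h2 := Finset.prod_univ_sum (fun _ : Fin J => Ico 1 Q) (fun _ k => 1 / (k : ℝ))
    rw [Finset.prod_const, Finset.card_univ, Fintype.card_fin] at h2
    rw [h2]
    refine Finset.sum_congr rfl ?_
    intro h _
    rw [Finset.prod_div_distrib]
    simp
  rw [h1]
  refine pow_le_pow_left₀ ?_ (weylA_harm Q) J
  exact Finset.sum_nonneg fun k _ => by positivity

private theorem weylA_block (J : ℕ) (h : Fin J → ℕ) (hh : ∀ i, 1 ≤ h i) {M τ : ℝ} {Q : ℕ}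
    (hQ : ∀ i, h i ≤ Q) (hM : 1 ≤ M) (hτ : τ ≠ 0)
    (hτQ : |τ| * J.factorial * (Q : ℝ) ^ J ≤ M ^ (J + 1)) (a b : ℕ) (ha : M ≤ a)
    (hb : (b : ℝ) ≤ 2 * M) :
    ‖∑ n ∈ range (b - a - ∑ i, h i),
      e (itD J h (fun m => -τ / (2 * Real.pi) * Real.log ((a : ℝ) + m)) n)‖ ≤
      4 * Real.pi * (2 * M) ^ (J + 1) / |τ| * (1 / ∏ i, (h i : ℝ)) := by
  have hpi := Real.pi_pos
  have hpi3 := Real.pi_gt_three
  have hM0 : 0 < M := by linarith
  have hτ0 : 0 < |τ| := abs_pos.2 hτ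
  have hprod : 0 < ∏ i, (h i : ℝ) :=
    Finset.prod_pos fun i _ => by exact_mod_cast hh i
  have hprod1 : ∏ i, (h i : ℝ) ≤ (Q : ℝ) ^ J := by
    calc ∏ i, (h i : ℝ) ≤ ∏ _i : Fin J, (Q : ℝ) :=
          Finset.prod_le_prod (fun i _ => by positivity) (fun i _ => by exact_mod_cast hQ i)
      _ = (Q : ℝ) ^ J := by rw [Finset.prod_const, Finset.card_univ, Fintype.card_fin]
  have hfac : 1 ≤ (J.factorial : ℝ) := Nat.one_le_cast.2 (Nat.factorial_pos J)
  set N : ℕ := b - a - ∑ i, h i with hN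
  set θ : ℝ := -τ / (2 * Real.pi) with hθ
  set g : ℕ → ℝ := fun n => itD J h (fun m => θ * Real.log ((a : ℝ) + m)) n with hg
  have hgL : ∀ n, g n = θ * itR J h Real.log ((a : ℝ) + n) := by
    intro n
    have h1 := itD_eq_itR J h (fun y => θ * Real.log y) a n
    rw [weylA_itR_mul] at h1
    exact h1
  set D : ℝ → ℝ := fun x => (-1) ^ J * (itR J h Real.log (x + 1) - itR J h Real.log x) with hD
  have hsq : ((-1 : ℝ) ^ J) * (-1) ^ J = 1 := by
    rw [← mul_pow]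
    norm_num
  have hgD : ∀ n : ℕ, g (n + 1) - g n = θ * (-1) ^ J * D ((a : ℝ) + n) := by
    intro n
    rw [hgL, hgL]
    simp only [hD]
    push_cast
    rw [show (a : ℝ) + ((n : ℝ) + 1) = (a : ℝ) + n + 1 by ring]
    calc θ * itR J h Real.log ((a : ℝ) + n + 1) - θ * itR J h Real.log ((a : ℝ) + n)
        = θ * (((-1 : ℝ) ^ J * (-1) ^ J) *
          (itR J h Real.log ((a : ℝ) + n + 1) - itR J h Real.log ((a : ℝ) + n))) := by
          rw [hsq]
          ring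
      _ = _ := by ring
  have hxpos : ∀ n : ℕ, 0 < (a : ℝ) + n := fun n => by
    have : (0 : ℝ) ≤ n := by positivity
    linarith
  have hDlow : ∀ n : ℕ, n < N → (J.factorial : ℝ) * (∏ i, (h i : ℝ)) / (2 * M) ^ (J + 1) ≤
      D ((a : ℝ) + n) := by
    intro n hn
    refine le_trans ?_ (phase_lower J h hh (hxpos n))
    have h1 : (a : ℝ) + n + (∑ i, (h i : ℝ)) + 1 ≤ 2 * M := by
      have h2 : a + n + (∑ i, h i) + 1 ≤ b := by omega
      have h3 : (a : ℝ) + n + (∑ i, (h i : ℝ)) + 1 ≤ b := by exact_mod_cast h2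
      linarith
    have h4 : 0 < (a : ℝ) + n + (∑ i, (h i : ℝ)) + 1 := by
      have h5 := hxpos n
      have h6 : (0 : ℝ) ≤ ∑ i, (h i : ℝ) := Finset.sum_nonneg fun i _ => by positivity
      linarith
    gcongr
  have hDup : ∀ n : ℕ, |τ| * D ((a : ℝ) + n) ≤ 1 := by
    intro n
    have h1 := phase_upper J h hh (hxpos n)
    have h2 : (J.factorial : ℝ) * (∏ i, (h i : ℝ)) / ((a : ℝ) + n) ^ (J + 1) ≤
        (J.factorial : ℝ) * (Q : ℝ) ^ J / M ^ (J + 1) := by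
      have h3 : M ≤ (a : ℝ) + n := by
        have : (0 : ℝ) ≤ n := by positivity
        linarith
      gcongr
    have h4 : D ((a : ℝ) + n) ≤ (J.factorial : ℝ) * (Q : ℝ) ^ J / M ^ (J + 1) := le_trans h1 h2
    calc |τ| * D ((a : ℝ) + n) ≤ |τ| * ((J.factorial : ℝ) * (Q : ℝ) ^ J / M ^ (J + 1)) := by
          gcongr
      _ = (|τ| * J.factorial * (Q : ℝ) ^ J) / M ^ (J + 1) := by ring
      _ ≤ 1 := by
          rw [div_le_one (by positivity)]
          exact hτQ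
  have hDanti : ∀ n : ℕ, D ((a : ℝ) + ((n + 1 : ℕ) : ℝ)) ≤ D ((a : ℝ) + n) := by
    intro n
    refine phase_anti J h hh (hxpos n) ?_
    push_cast
    linarith
  have habs : |θ * (-1) ^ J| = |τ| / (2 * Real.pi) := by
    rw [abs_mul, abs_pow, abs_neg, abs_one, one_pow, mul_one, hθ, abs_div, abs_neg,
      abs_of_pos (by positivity : (0 : ℝ) < 2 * Real.pi)]
  have hne : θ * (-1) ^ J ≠ 0 := by
    rw [← abs_pos, habs]
    positivity
  set δ : ℝ := |τ| / (2 * Real.pi) *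
    ((J.factorial : ℝ) * (∏ i, (h i : ℝ)) / (2 * M) ^ (J + 1)) with hδ
  have hδ0 : 0 < δ := by positivity
  have hlow : ∀ n : ℕ, n < N → δ ≤ |τ| / (2 * Real.pi) * D ((a : ℝ) + n) := by
    intro n hn
    have h1 := hDlow n hn
    rw [hδ]
    gcongr
  have hup : ∀ n : ℕ, |τ| / (2 * Real.pi) * D ((a : ℝ) + n) ≤ 1 / 2 := by
    intro n
    have h1 := hDup n
    calc |τ| / (2 * Real.pi) * D ((a : ℝ) + n) = |τ| * D ((a : ℝ) + n) / (2 * Real.pi) := by ring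
      _ ≤ 1 / (2 * Real.pi) := by gcongr
      _ ≤ 1 / 2 := by
          apply one_div_le_one_div_of_le (by norm_num)
          linarith
  have hanti : ∀ n : ℕ, |τ| / (2 * Real.pi) * D ((a : ℝ) + ((n + 1 : ℕ) : ℝ)) ≤
      |τ| / (2 * Real.pi) * D ((a : ℝ) + n) := by
    intro n
    have h1 := hDanti n
    gcongr
  have hmain : ‖∑ n ∈ Ico 0 N, e (g n)‖ ≤ 2 / δ := by
    rcases lt_or_gt_of_ne hne with hneg | hpos
    · have h1 : θ * (-1) ^ J = -(|τ| / (2 * Real.pi)) := by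
        rw [← habs, abs_of_neg hneg, neg_neg]
      have h2 : ∀ n : ℕ, g n - g (n + 1) = |τ| / (2 * Real.pi) * D ((a : ℝ) + n) := by
        intro n
        have h3 := hgD n
        rw [h1] at h3
        linarith
      refine kusmin_landau_neg g 0 N hδ0 ?_ (Or.inr ?_)
      · intro n _ hn
        rw [h2]
        exact ⟨hlow n hn, hup n⟩
      · intro n _ _
        have h3 := hanti n
        have h4 := h2 n
        have h5 := h2 (n + 1)
        linarith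
    · have h1 : θ * (-1) ^ J = |τ| / (2 * Real.pi) := by
        rw [← habs, abs_of_pos hpos]
      have h2 : ∀ n : ℕ, g (n + 1) - g n = |τ| / (2 * Real.pi) * D ((a : ℝ) + n) := by
        intro n
        rw [hgD n, h1]
      refine kusmin_landau g 0 N hδ0 ?_ (Or.inl ?_)
      · intro n _ hn
        rw [h2]
        exact ⟨hlow n hn, hup n⟩
      · intro n _ _
        have h3 := hanti n
        have h4 := h2 n
        have h5 := h2 (n + 1)
        linarith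
  rw [Finset.range_eq_Ico]
  refine le_trans hmain ?_
  have h1 : 2 / δ = 4 * Real.pi * (2 * M) ^ (J + 1) / |τ| * (1 / ∏ i, (h i : ℝ)) /
      (J.factorial : ℝ) := by
    rw [hδ]
    have h2 : (J.factorial : ℝ) ≠ 0 := by positivity
    field_simp
    ring
  rw [h1]
  exact div_le_self (by positivity) hfac

theorem weyl_J (J : ℕ) : ∃ C : ℝ, 0 < C ∧ ∀ (M : ℝ) (Q : ℕ) (τ : ℝ), 1 ≤ M → 1 ≤ Q →
    (Q : ℝ) ≤ M → τ ≠ 0 → |τ| * J.factorial * (Q : ℝ) ^ J ≤ M ^ (J + 1) →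
    ∀ a b : ℕ, M ≤ a → (b : ℝ) ≤ 2 * M →
      (‖∑ n ∈ Ico a b, ph τ n‖ / (2 * M)) ^ (2 ^ J) ≤
        C * (1 / (Q : ℝ) + M ^ J * (1 + Real.log Q) ^ J / (|τ| * (Q : ℝ) ^ J)) := by
  obtain ⟨C0, hC0, hC⟩ := vdc_iter J
  have hpi3 := Real.pi_gt_three
  refine ⟨C0 * (4 * Real.pi * 2 ^ (J + 1)), by positivity, ?_⟩
  intro M Q τ hM hQ hQM hτ hτQ a b ha hb
  have hM0 : 0 < M := by linarith
  have hτ0 : 0 < |τ| := abs_pos.2 hτ
  have hQ0 : (0 : ℝ) < Q := by exact_mod_cast hQ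
  have hlogQ : 0 ≤ Real.log Q := Real.log_nonneg (by exact_mod_cast hQ)
  set M1 : ℕ := ⌈M⌉₊ with hM1
  have hMM1 : M ≤ (M1 : ℝ) := Nat.le_ceil M
  have hM1M : (M1 : ℝ) ≤ 2 * M := by
    have h1 := Nat.ceil_lt_add_one hM0.le
    linarith
  have hM10 : (0 : ℝ) < M1 := by linarith
  have hQM1 : Q ≤ M1 := by
    have h1 : (Q : ℝ) ≤ M1 := le_trans hQM hMM1
    exact_mod_cast h1
  have hbaM : b - a ≤ M1 := by
    rcases le_total b a with h | h
    · omega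
    · have h1 : ((b - a : ℕ) : ℝ) ≤ M1 := by
        rw [Nat.cast_sub h]
        linarith
      exact_mod_cast h1
  have hS : ∑ n ∈ Ico a b, ph τ n =
      ∑ n ∈ range (b - a), e (-τ / (2 * Real.pi) * Real.log ((a : ℝ) + n)) := by
    rw [Finset.sum_Ico_eq_sum_range]
    exact Finset.sum_congr rfl fun n _ => weylA_ph τ a n
  have h1 := hC (fun m => -τ / (2 * Real.pi) * Real.log ((a : ℝ) + m)) M1 Q (b - a) hQ hQM1 hbaM
  have h2 : (‖∑ n ∈ Ico a b, ph τ n‖ / (2 * M)) ^ (2 ^ J) ≤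
      (‖∑ n ∈ range (b - a), e (-τ / (2 * Real.pi) * Real.log ((a : ℝ) + n))‖ / M1) ^ (2 ^ J) := by
    rw [hS]
    gcongr
  refine le_trans h2 (le_trans h1 ?_)
  have h3 : ∑ h ∈ Fintype.piFinset (fun _ : Fin J => Ico 1 Q),
      ‖∑ n ∈ range (b - a - ∑ i, h i),
        e (itD J h (fun m => -τ / (2 * Real.pi) * Real.log ((a : ℝ) + m)) n)‖ / M1 ≤
      4 * Real.pi * 2 ^ (J + 1) * (M ^ J * (1 + Real.log Q) ^ J / |τ|) := by
    calc ∑ h ∈ Fintype.piFinset (fun _ : Fin J => Ico 1 Q),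
        ‖∑ n ∈ range (b - a - ∑ i, h i),
          e (itD J h (fun m => -τ / (2 * Real.pi) * Real.log ((a : ℝ) + m)) n)‖ / M1
        ≤ ∑ h ∈ Fintype.piFinset (fun _ : Fin J => Ico 1 Q),
          4 * Real.pi * (2 * M) ^ (J + 1) / |τ| / M * (1 / ∏ i, (h i : ℝ)) := by
          refine Finset.sum_le_sum ?_
          intro h hh
          rw [Fintype.mem_piFinset] at hh
          have h4 := weylA_block J h (fun i => (Finset.mem_Ico.1 (hh i)).1) (Q := Q)
            (fun i => (Finset.mem_Ico.1 (hh i)).2.le) hM hτ hτQ a b ha hb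
          have h5 : 0 ≤ 4 * Real.pi * (2 * M) ^ (J + 1) / |τ| * (1 / ∏ i, (h i : ℝ)) := by
            have h6 : 0 ≤ ∏ i, (h i : ℝ) := Finset.prod_nonneg fun i _ => by positivity
            positivity
          calc _ ≤ 4 * Real.pi * (2 * M) ^ (J + 1) / |τ| * (1 / ∏ i, (h i : ℝ)) / M := by
                gcongr
            _ = _ := by ring
      _ = 4 * Real.pi * (2 * M) ^ (J + 1) / |τ| / M *
          ∑ h ∈ Fintype.piFinset (fun _ : Fin J => Ico 1 Q), (1 / ∏ i, (h i : ℝ)) := by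
          rw [Finset.mul_sum]
      _ ≤ 4 * Real.pi * (2 * M) ^ (J + 1) / |τ| / M * (1 + Real.log Q) ^ J := by
          have h4 := weylA_sum J Q
          gcongr
      _ = _ := by
          rw [mul_pow, pow_succ M]
          field_simp
  have h4 : 1 ≤ 4 * Real.pi * 2 ^ (J + 1) := by
    have h5 : (1 : ℝ) ≤ 2 ^ (J + 1) := one_le_pow₀ (by norm_num)
    nlinarith
  calc C0 * (1 / (Q : ℝ) + 1 / (Q : ℝ) ^ J *
      ∑ h ∈ Fintype.piFinset (fun _ : Fin J => Ico 1 Q),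
        ‖∑ n ∈ range (b - a - ∑ i, h i),
          e (itD J h (fun m => -τ / (2 * Real.pi) * Real.log ((a : ℝ) + m)) n)‖ / M1)
      ≤ C0 * (1 * (1 / (Q : ℝ)) + 1 / (Q : ℝ) ^ J *
        (4 * Real.pi * 2 ^ (J + 1) * (M ^ J * (1 + Real.log Q) ^ J / |τ|))) := by
        rw [one_mul]
        gcongr
    _ ≤ C0 * (4 * Real.pi * 2 ^ (J + 1) * (1 / (Q : ℝ)) + 1 / (Q : ℝ) ^ J *
        (4 * Real.pi * 2 ^ (J + 1) * (M ^ J * (1 + Real.log Q) ^ J / |τ|))) := by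
        gcongr
    _ = C0 * (4 * Real.pi * 2 ^ (J + 1)) *
        (1 / (Q : ℝ) + M ^ J * (1 + Real.log Q) ^ J / (|τ| * (Q : ℝ) ^ J)) := by
        field_simp

end Pool.Agent.MOM
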